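import Pool.Agent.W927.Greedy

/-!
The recursion: families of squares covering almost every cell.
-/

namespace Pool.Agent.W927

open MeasureTheory Filter Topology

section Rec

variable {d : ℕ} (i0 i1 : Fin d)

/-- Data produced by the recursion. -/
structure Seq (ν : Measure (FreePart d)) (ε : ℕ → ℝ) (s : ℕ → ℕ) (C K : ℕ → Set (FreePart d)) :
    Prop where
  c0 : C 0 = ∅
  k0 : K 0 = Set.univ
  cm : ∀ n, MeasurableSet (C n)
  km : ∀ n, MeasurableSet (K n)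
  sl : ∀ n, s n + 1 ≤ s (n + 1)
  sep : ∀ n, Sep i0 i1 (2 * s n) (C n)
  gain : ∀ n, ν.real (K n) ≤ 81 * ν.real (K n ∩ Qc i0 i1 (s (n + 1)) (C (n + 1)))
  loss : ∀ n, ν.real (Dc i0 i1 (s (n + 1)) (2 * s n) (C (n + 1))) ≤ ε n
  ks : ∀ n, K (n + 1) = (K n \ Qc i0 i1 (s (n + 1)) (C (n + 1))) ∪
    Dc i0 i1 (s (n + 1)) (2 * s n) (C (n + 1))

theorem exists_seq (h01 : i0 ≠ i1) (ν : Measure (FreePart d)) [IsFiniteMeasure ν] {ε : ℕ → ℝ}
    (hε : ∀ n, 0 < ε n) : ∃ s C K, Seq i0 i1 ν ε s C K := by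
  classical
  let St := {t : ℕ × Set (FreePart d) × Set (FreePart d) // MeasurableSet t.2.1 ∧
    MeasurableSet t.2.2 ∧ Sep i0 i1 (2 * t.1) t.2.1}
  have H : ∀ (n : ℕ) (t : St), ∃ t' : St, t.1.1 + 1 ≤ t'.1.1 ∧
      ν.real t.1.2.2 ≤ 81 * ν.real (t.1.2.2 ∩ Qc i0 i1 t'.1.1 t'.1.2.1) ∧
      ν.real (Dc i0 i1 t'.1.1 (2 * t.1.1) t'.1.2.1) ≤ ε n ∧
      t'.1.2.2 = (t.1.2.2 \ Qc i0 i1 t'.1.1 t'.1.2.1) ∪ Dc i0 i1 t'.1.1 (2 * t.1.1) t'.1.2.1 := by
    rintro n ⟨⟨s, C, K⟩, hC, hK, hsep⟩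
    obtain ⟨s', C', h1, h2, h3, h4, h5⟩ := greedy_step i0 i1 h01 ν K (2 * s) (s + 1) (hε n)
    rw [Nat.cast_mul, Nat.cast_ofNat] at h5
    refine ⟨⟨(s', C', (K \ Qc i0 i1 s' C') ∪ Dc i0 i1 s' (2 * s) C'), h2, ?_, h3⟩, h1, h4, h5, rfl⟩
    exact (hK.diff (measurableSet_Qc i0 i1 h2)).union (measurableSet_Dc i0 i1 h2)
  choose nx hnx using H
  let f : ℕ → St := fun n => Nat.rec ⟨(0, ∅, Set.univ), MeasurableSet.empty, MeasurableSet.univ,
    fun x hx => absurd hx (Set.notMem_empty _)⟩ (fun n t => nx n t) n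
  have hfs : ∀ n, f (n + 1) = nx n (f n) := fun _ => rfl
  refine ⟨fun n => (f n).1.1, fun n => (f n).1.2.1, fun n => (f n).1.2.2, rfl, rfl,
    fun n => (f n).2.1, fun n => (f n).2.2.1, fun n => ?_, fun n => (f n).2.2.2, fun n => ?_,
    fun n => ?_, fun n => ?_⟩
  · rw [hfs]; exact (hnx n (f n)).1
  · rw [hfs]; exact (hnx n (f n)).2.1
  · rw [hfs]; exact (hnx n (f n)).2.2.1
  · rw [hfs]; exact (hnx n (f n)).2.2.2

variable {i0 i1} {ν : Measure (FreePart d)} {ε : ℕ → ℝ} {s : ℕ → ℕ} {C K : ℕ → Set (FreePart d)}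

theorem Seq.bound [IsFiniteMeasure ν]
    (Q : Seq i0 i1 ν (fun n => (1 / 162) * (161 / 162 : ℝ) ^ n) s C K) (n : ℕ) :
    ν.real (K n) ≤ (161 / 162 : ℝ) ^ n * (ν.real Set.univ + 1) := by
  induction n with
  | zero =>
    rw [Q.k0]
    simp
  | succ n ih =>
    have h1 := Q.gain n
    have h2 := Q.loss n
    have h3 : ν.real (K n ∩ Qc i0 i1 (s (n + 1)) (C (n + 1))) +
        ν.real (K n \ Qc i0 i1 (s (n + 1)) (C (n + 1))) = ν.real (K n) :=
      measureReal_inter_add_sdiff (measurableSet_Qc i0 i1 (Q.cm _))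
    have h4 : ν.real (K (n + 1)) ≤ ν.real (K n \ Qc i0 i1 (s (n + 1)) (C (n + 1))) +
        ν.real (Dc i0 i1 (s (n + 1)) (2 * s n) (C (n + 1))) := by
      rw [Q.ks n]
      exact measureReal_union_le _ _
    have h5 : (0 : ℝ) ≤ (161 / 162 : ℝ) ^ n := by positivity
    have h6 : (0 : ℝ) ≤ ν.real Set.univ := measureReal_nonneg
    have h7 : (161 / 162 : ℝ) ^ n ≤ (161 / 162 : ℝ) ^ n * (ν.real Set.univ + 1) := by nlinarith
    rw [pow_succ]
    nlinarith

theorem Seq.mono (Q : Seq i0 i1 ν ε s C K) {n m : ℕ} (h : n < m) : s n < s m :=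
  strictMono_nat_of_lt_succ (fun n => Q.sl n) h

theorem Seq.ae_stage [IsFiniteMeasure ν]
    (Q : Seq i0 i1 ν (fun n => (1 / 162) * (161 / 162 : ℝ) ^ n) s C K) :
    ∀ᵐ x ∂ν, ∃ N, x ∉ K N ∧ ∀ n, N ≤ n → x ∉ Dc i0 i1 (s (n + 1)) (2 * s n) (C (n + 1)) := by
  have hg : Summable fun n : ℕ => (161 / 162 : ℝ) ^ n :=
    summable_geometric_of_lt_one (by norm_num) (by norm_num)
  have h1 : ∑' n, ν (K n) ≠ ⊤ := by
    refine ne_top_of_le_ne_top (hg.mul_right (ν.real Set.univ + 1)).tsum_ofReal_ne_top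
      (ENNReal.tsum_le_tsum fun n => ?_)
    rw [← ofReal_measureReal (measure_ne_top ν _)]
    exact ENNReal.ofReal_le_ofReal (Q.bound n)
  have h2 : ∑' n, ν (Dc i0 i1 (s (n + 1)) (2 * s n) (C (n + 1))) ≠ ⊤ := by
    refine ne_top_of_le_ne_top (hg.mul_left (1 / 162)).tsum_ofReal_ne_top
      (ENNReal.tsum_le_tsum fun n => ?_)
    rw [← ofReal_measureReal (measure_ne_top ν _)]
    exact ENNReal.ofReal_le_ofReal (Q.loss n)
  filter_upwards [ae_eventually_notMem h1, ae_eventually_notMem h2] with x hx1 hx2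
  obtain ⟨N, hN⟩ := eventually_atTop.1 (hx1.and hx2)
  exact ⟨N, (hN N le_rfl).1, fun n hn => (hN n hn).2⟩

/-- Surviving centres. -/
def PG (i0 i1 : Fin d) (s : ℕ → ℕ) (C : ℕ → Set (FreePart d)) (t : ℕ) : Set (FreePart d) :=
  {c | ∃ n, s n = t ∧ c ∈ C n ∧ ∀ m, n < m → ∀ p q, Near p q (s m) (s n) → mv i0 i1 p q c ∉ C m}

theorem Seq.measurable_PG (Q : Seq i0 i1 ν ε s C K) (t : ℕ) : MeasurableSet (PG i0 i1 s C t) := by
  refine measurableSet_setOfPred.2 (Measurable.exists fun n => measurable_const.and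
    (Measurable.and (measurableSet_setOfPred.1 (Q.cm n)) (Measurable.forall fun m =>
      measurable_const.imp (Measurable.forall fun p => Measurable.forall fun q =>
        measurable_const.imp ?_))))
  exact (measurableSet_setOfPred.1 (measurable_mv i0 i1 p q (Q.cm m))).not

theorem Seq.isoW (Q : Seq i0 i1 ν ε s C K) (x : FreePart d) :
    IsoW (Dx i0 i1 (PG i0 i1 s C) x) := by
  refine ⟨?_, ?_⟩
  · rintro p q t ⟨n, rfl, hc, -⟩
    rcases Nat.eq_zero_or_pos n with h | h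
    · subst h
      rw [Q.c0] at hc
      exact absurd hc (Set.notMem_empty _)
    · have := Q.mono h
      omega
  · rintro p q t p' q' t' ⟨n, rfl, hc, hs⟩ ⟨n', rfl, hc', hs'⟩ hle
    have hmove : mv i0 i1 (p' - p) (q' - q) (act (pl i0 i1 p q) x) = act (pl i0 i1 p' q') x := by
      unfold mv
      rw [act_act, pl_add, sub_add_cancel, sub_add_cancel]
    rcases lt_trichotomy n n' with h | h | h
    · have h1 : ¬ Near (p' - p) (q' - q) (s n') (s n) := by
        intro hn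
        apply hs n' h _ _ hn
        rw [hmove]
        exact hc'
      unfold Near at h1
      omega
    · subst h
      by_cases hfar : -(2 * (s n : ℤ)) ≤ p' - p ∧ p' - p ≤ 2 * s n ∧ -(2 * (s n : ℤ)) ≤ q' - q ∧
          q' - q ≤ 2 * s n
      · have h1 := Q.sep n _ hc (p' - p) (q' - q) hfar.1 hfar.2.1 hfar.2.2.1 hfar.2.2.2
          (by rw [hmove]; exact hc')
        omega
      · omega
    · have := Q.mono h
      omega

theorem Seq.cover_stage (Q : Seq i0 i1 ν ε s C K) (x : FreePart d) : ∀ n, x ∉ K n →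
    ∃ k ≤ n, ∃ p q : ℤ, (p - s k ≤ 0 ∧ 0 < p + s k ∧ q - s k ≤ 0 ∧ 0 < q + s k) ∧
      mv i0 i1 p q x ∈ C k ∧ ∀ m, k < m → m ≤ n → ∀ p' q', Near p' q' (s m) (s k) →
        mv i0 i1 p' q' (mv i0 i1 p q x) ∉ C m := by
  intro n
  induction n with
  | zero => intro h; rw [Q.k0] at h; exact absurd (Set.mem_univ _) h
  | succ n ih =>
    intro h
    rw [Q.ks n] at h
    have h1 : x ∉ Dc i0 i1 (s (n + 1)) (2 * s n) (C (n + 1)) := fun h' => h (Or.inr h')
    by_cases h2 : x ∈ Qc i0 i1 (s (n + 1)) (C (n + 1))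
    · obtain ⟨p, q, g1, g2⟩ := h2
      exact ⟨n + 1, le_rfl, p, q, g1, g2, fun m a b => by omega⟩
    · have h3 : x ∉ K n := fun h' => h (Or.inl ⟨h', h2⟩)
      obtain ⟨k, hk, p, q, g1, g2, g3⟩ := ih h3
      refine ⟨k, by omega, p, q, g1, g2, fun m a b p' q' hn hmem => ?_⟩
      rcases Nat.lt_or_ge m (n + 1) with hm | hm
      · exact g3 m a (by omega) p' q' hn hmem
      · obtain rfl : m = n + 1 := by omega
        apply h1
        refine ⟨p' + p, q' + q, ?_, ?_⟩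
        · have : s k ≤ s n := by
            rcases Nat.lt_or_ge k n with h | h
            · exact (Q.mono h).le
            · have : k = n := by omega
              rw [this]
          unfold Near at *
          omega
        · rw [← mv_mv]; exact hmem

theorem Seq.cover (Q : Seq i0 i1 ν ε s C K) (x : FreePart d) {N : ℕ} (hK : x ∉ K N)
    (hD : ∀ n, N ≤ n → x ∉ Dc i0 i1 (s (n + 1)) (2 * s n) (C (n + 1))) :
    ∃ t p q, Cel (Dx i0 i1 (PG i0 i1 s C) x) t 0 0 p q := by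
  obtain ⟨k, hk, p, q, g1, g2, g3⟩ := Q.cover_stage x N hK
  refine ⟨s k, p, q, ⟨k, rfl, g2, fun m hm p' q' hn hmem => ?_⟩, g1⟩
  rcases Nat.lt_or_ge N m with h | h
  · obtain ⟨m, rfl⟩ : ∃ m', m = m' + 1 := ⟨m - 1, by omega⟩
    apply hD m (by omega)
    refine ⟨p' + p, q' + q, ?_, ?_⟩
    · have : s k ≤ s m := by
        rcases Nat.lt_or_ge k m with h | h
        · exact (Q.mono h).le
        · have : k = m := by omega
          rw [this]
      unfold Near at *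
      omega
    · rw [← mv_mv]; exact hmem
  · exact g3 m hm h p' q' hn hmem

theorem exists_fam (h01 : i0 ≠ i1) (μ : Measure (FreePart d)) [IsProbabilityMeasure μ] :
    ∃ P Good, Fam i0 i1 P Good ∧ (∀ s, MeasurableSet (P s)) ∧ ∀ᵐ x ∂μ, x ∈ Good := by
  set ρ : Measure (FreePart d) := Measure.sum fun g : Fin d → ℤ => Measure.map (act g) μ with hρ
  have hfin : ∀ g : Fin d → ℤ, IsFiniteMeasure (Measure.map (act g) μ) := fun g => inferInstance
  obtain ⟨s, C, K, Q⟩ := exists_seq i0 i1 h01 ρ.toFinite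
    (ε := fun n => (1 / 162) * (161 / 162 : ℝ) ^ n) (fun n => by positivity)
  refine ⟨PG i0 i1 s C, {x | ∀ g, ∃ t p q, Cel (Dx i0 i1 (PG i0 i1 s C) (act g x)) t 0 0 p q},
    ⟨?_, fun x _ => Q.isoW x, ?_⟩, Q.measurable_PG, ?_⟩
  · intro g x hx h
    rw [act_act]
    exact hx _
  · intro x hx
    have := hx 0
    rw [act_zero] at this
    exact this
  · have h1 : ∀ᵐ x ∂ρ.toFinite, ∃ t p q, Cel (Dx i0 i1 (PG i0 i1 s C) x) t 0 0 p q := by
      filter_upwards [Q.ae_stage] with x hx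
      obtain ⟨N, h1, h2⟩ := hx
      exact Q.cover x h1 h2
    rw [ae_toFinite, hρ, Measure.ae_sum_iff] at h1
    have h2 : ∀ᵐ x ∂μ, ∀ g, ∃ t p q, Cel (Dx i0 i1 (PG i0 i1 s C) (act g x)) t 0 0 p q := by
      rw [ae_all_iff]
      intro g
      exact ae_of_ae_map (measurable_act g).aemeasurable (h1 g)
    exact h2

theorem SB_hasMeasure (h01 : i0 ≠ i1) {k : ℕ} (e : Fin k ≃ Lab) :
    HasMeasure (SB e (e_ i0) (e_ i1)) :=
  hasMeasure_SB h01 fun μ _ => exists_fam h01 μ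

end Rec

end Pool.Agent.W927
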