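import Pool.Agent.W927.CircleB

/-!
Generic version of the Baire category argument.
-/

namespace Pool.Agent.W927

open Filter Topology

section Main

variable {u v : TT} {H : TT → HL} {V : TT → VL} {C : TT → Bool}

theorem no_borel_gen (hu : addOrderOf u = 0) (hv : addOrderOf v = 0)
    (hHm : ∀ c, MeasurableSet {x | H x = c})
    (hVm : ∀ c, MeasurableSet {x | V x = c})
    (hCm : ∀ c, MeasurableSet {x | C x = c})
    (hW : Gen fun x => Walls (cfg H u v x) (cfg V u v x))
    (hC : Gen fun x => Cols (cfg H u v x) (cfg V u v x) (cfg C u v x)) : False := by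
  set Cor : Set TT := {x | (H x ≠ .n ∨ H (x - u) ≠ .n) ∧ (V x ≠ .n ∨ V (x - v) ≠ .n)} with hCor
  have hCorm : MeasurableSet Cor := by
    have m1 : Measurable fun x : TT => x - u := by fun_prop
    have m2 : Measurable fun x : TT => x - v := by fun_prop
    exact ((hHm .n).compl.union (m1 (hHm .n)).compl).inter
      ((hVm .n).compl.union (m2 (hVm .n)).compl)
  have vert : Gen fun x : TT => okV (H (x - u)) (H x) (V (x - v)) (V x) := by
    filter_upwards [hW] with x hWx
    have := hWx 0 0
    simpa [cfg, sub_eq_add_neg] using this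
  have colH : Gen fun x : TT => (V x = .n → C x = !C (x - u)) := by
    filter_upwards [hC] with x hCx hx
    have := hCx.hor 0 0 (by simpa [cfg] using hx)
    simpa [cfg, sub_eq_add_neg] using this
  have colV : Gen fun x : TT => (H x = .n → C x = !C (x - v)) := by
    filter_upwards [hC] with x hCx hx
    have := hCx.ver 0 0 (by simpa [cfg] using hx)
    simpa [cfg, sub_eq_add_neg] using this
  by_cases hm : IsMeagre Cor
  · -- no corners at all
    have g1 : Gen fun x => x ∉ Cor := hm
    have inv : Gen fun x => (V x ≠ .n ↔ V (x - v) ≠ .n) := by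
      filter_upwards [g1, vert] with x hx hv
      exact okV_nocor _ _ _ _ hv hx
    have g0 := gen_orbit inv v 0
    by_cases hV : IsMeagre {x | V x ≠ .n}
    · apply no_altB hu hCm
      have g2 : Gen fun x => ¬ (V x ≠ .n) := hV
      filter_upwards [gen_add g2 u, gen_add colH u] with x hx hc
      rw [not_not] at hx
      have := hc hx
      simpa using this
    · obtain ⟨O, hO, hne, hg⟩ := localize (D := {x | V x ≠ .n}) (hVm .n).compl hV
      obtain ⟨K, hK⟩ := syndetic hO hne hv
      have g2 : Gen fun x => V x ≠ .n := by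
        filter_upwards [g0, gen_orbit hg v 0] with x hx1 hx2
        obtain ⟨k, -, hk⟩ := hK x
        have h3 : V (x + (k : ℕ) • v) ≠ .n := by
          have := hx2 k 0
          simp only [smul_zero, add_zero, natCast_zsmul] at this
          exact this hk
        clear hk
        induction k with
        | zero => simpa using h3
        | succ k ih =>
          apply ih
          have := hx1 ((k + 1 : ℕ) : ℤ) 0
          simp only [smul_zero, add_zero, natCast_zsmul] at this
          rw [this] at h3
          rwa [succ_nsmul, ← add_assoc, add_sub_cancel_right] at h3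
      apply no_altB hv hCm
      filter_upwards [g2, gen_add g2 v, gen_add vert v, gen_add colV v] with x h2 h3 h4 hc
      rw [add_sub_cancel_right] at h4
      have h5 := (okV_facts _ _ _ _ h4).2.2.2.2.2.2.2.2.2.2.2.2.2.2.2.2.2.1 h2 h3
      have := hc h5.2
      simpa using this
  · -- corners are syndetic
    obtain ⟨O, hO, hne, hg⟩ := localize hCorm hm
    obtain ⟨K1, hK1⟩ := syndetic hO hne hu
    obtain ⟨K2, hK2⟩ := syndetic hO hne hv
    have g1 := gen_orbit hg u v
    have hcor : Gen fun x => ∀ i j : ℤ, x + i • u + j • v ∈ Cor →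
        (H (x + i • u + j • v) = .n ∨ H (x + i • u + j • v - u) = .n) ∧
        (V (x + i • u + j • v) = .n ∨ V (x + i • u + j • v - v) = .n) := by
      refine gen_orbit (p := fun x => x ∈ Cor →
        (H x = .n ∨ H (x - u) = .n) ∧ (V x = .n ∨ V (x - v) = .n)) ?_ u v
      filter_upwards [vert] with x hv hx
      exact okV_cor _ _ _ _ hv hx
    have bdH : Gen fun x => ∀ i j : ℤ, ∃ k : ℕ, k ≤ K1 + 1 ∧ cfg H u v x (i + k) j = .n := by
      filter_upwards [g1, hcor] with x hx hcor i j
      obtain ⟨k, hk, hxk⟩ := hK1 (x + (i + 1) • u + j • v)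
      have e : x + (i + 1) • u + j • v + k • u = x + (i + 1 + k) • u + j • v := by
        rw [add_smul (i + 1) (k : ℤ), natCast_zsmul]; abel
      have h1 := hx (i + 1 + k) j (by rw [← e]; exact hxk)
      rcases (hcor _ _ h1).1 with h2 | h2
      · refine ⟨k + 1, by omega, ?_⟩
        rw [← h2]
        unfold cfg
        congr 4
        push_cast; ring
      · refine ⟨k, by omega, ?_⟩
        rw [← h2]
        unfold cfg
        congr 1
        rw [show (i + 1 + (k : ℤ)) = (i + k) + 1 by ring, add_smul _ (1 : ℤ), one_smul]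
        abel
    have bdV : Gen fun x => ∀ i j : ℤ, ∃ k : ℕ, k ≤ K2 + 1 ∧ cfg V u v x i (j + k) = .n := by
      filter_upwards [g1, hcor] with x hx hcor i j
      obtain ⟨k, hk, hxk⟩ := hK2 (x + i • u + (j + 1) • v)
      have e : x + i • u + (j + 1) • v + k • v = x + i • u + (j + 1 + k) • v := by
        rw [add_smul (j + 1) (k : ℤ), natCast_zsmul]; abel
      have h1 := hx i (j + 1 + k) (by rw [← e]; exact hxk)
      rcases (hcor _ _ h1).2 with h2 | h2
      · refine ⟨k + 1, by omega, ?_⟩
        rw [← h2]
        unfold cfg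
        congr 3
        push_cast; ring
      · refine ⟨k, by omega, ?_⟩
        rw [← h2]
        unfold cfg
        congr 1
        rw [show (j + 1 + (k : ℤ)) = (j + k) + 1 by ring, add_smul _ (1 : ℤ), one_smul]
        abel
    have fin4 : Gen fun x => Fin4 (cfg H u v x) (cfg V u v x) := by
      filter_upwards [bdH, bdV] with x h1 h2
      refine ⟨fun i j => ?_, fun i j => ?_, fun i j => ?_, fun i j => ?_⟩
      · obtain ⟨k, -, hk⟩ := h1 i j
        exact ⟨k, hk⟩
      · obtain ⟨k, hk1, hk⟩ := h1 (i - (K1 + 1)) j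
        refine ⟨K1 + 1 - k, ?_⟩
        rw [← hk]
        congr 1
        omega
      · obtain ⟨k, -, hk⟩ := h2 i j
        exact ⟨k, hk⟩
      · obtain ⟨k, hk1, hk⟩ := h2 i (j - (K2 + 1))
        refine ⟨K2 + 1 - k, ?_⟩
        rw [← hk]
        congr 1
        omega
    have free : Gen fun x => ∃ i j : ℤ, ¬ Encl (cfg H u v x) (cfg V u v x) i j := by
      filter_upwards [bdH, hW] with x h1 hW
      by_contra hcon
      push Not at hcon
      have key : ∀ n : ℕ, ∃ a c w h, Isl (cfg H u v x) (cfg V u v x) a c w h ∧ (n : ℤ) < w ∧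
          a ≤ 0 ∧ 0 < a + w ∧ c ≤ 0 ∧ 0 < c + h := by
        intro n
        induction n with
        | zero =>
          obtain ⟨a, c, w, h, I, g⟩ := hcon 0 0
          exact ⟨a, c, w, h, I, by have := I.1; push_cast; omega, g⟩
        | succ n ih =>
          obtain ⟨a, c, w, h, I, g1, g2, g3, g4, g5⟩ := ih
          obtain ⟨a', c', w', h', I', g1', g2', g3', g4'⟩ := hcon (a - 1) c
          have hh := I.2.1
          rcases Isl.laminar hW I I' (by omega) (by omega) (by omega) (by omega) with k | k | k
          · omega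
          · omega
          · exact ⟨a', c', w', h', I', by push_cast; omega, by omega, by omega, by omega,
              by omega⟩
      obtain ⟨a, c, w, h, I, g, -⟩ := key (K1 + 1)
      obtain ⟨k, hk1, hk2⟩ := h1 a c
      rw [(I.2.2.1 _ (by omega) (by push_cast at g; omega)).1] at hk2
      cases hk2
    have hNm : MeasurableSet {x : TT | Encl (cfg H u v x) (cfg V u v x) 0 0} :=
      measurableSet_setOfPred.2 (meas_Encl (meas_cfgB hHm u v) (meas_cfgB hVm u v) 0 0)
    have enc : ∀ (x : TT) (i j : ℤ), Encl (cfg H u v (x + i • u + j • v))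
        (cfg V u v (x + i • u + j • v)) 0 0 ↔ Encl (cfg H u v x) (cfg V u v x) i j := by
      intro x i j
      have := encl_shift (H := cfg H u v x) (H' := cfg H u v (x + i • u + j • v))
        (V := cfg V u v x) (V' := cfg V u v (x + i • u + j • v)) (p := i) (q := j)
        (fun i' j' => cfg_shift _ _ _ _ _ _ _ _) (fun i' j' => cfg_shift _ _ _ _ _ _ _ _) 0 0
      simpa using this
    have hN : ¬ IsMeagre {x : TT | Encl (cfg H u v x) (cfg V u v x) 0 0}ᶜ := by
      intro hmg
      have g2 : Gen fun x => Encl (cfg H u v x) (cfg V u v x) 0 0 := by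
        have : {x : TT | Encl (cfg H u v x) (cfg V u v x) 0 0}ᶜᶜ ∈ residual TT := hmg
        rwa [compl_compl] at this
      obtain ⟨x, -, hx1, i, j, hx2⟩ := gen_exists isOpen_univ Set.univ_nonempty
        ((gen_orbit g2 u v).and free)
      exact hx2 ((enc x i j).1 (hx1 i j))
    obtain ⟨c, hc⟩ := nonMeagre_color hN C
    obtain ⟨O', hO', hne', hg'⟩ := localize (hNm.compl.inter (hCm c)) hc
    obtain ⟨x, hx, ⟨hx1, hx2⟩, hW, hC⟩ := gen_exists hO' hne'
      ((fin4.and (gen_orbit hg' u v)).and (hW.and hC))
    obtain ⟨k, hk⟩ := odd_return hO' hne' hu x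
    have d0 := hx2 0 0 (by simpa using hx)
    have d1 := hx2 ((2 * k + 1 : ℕ) : ℤ) 0 (by
      rw [zero_smul, add_zero, natCast_zsmul]; exact hk)
    have e0 : ¬ Encl (cfg H u v x) (cfg V u v x) 0 0 := by
      have := d0.1
      intro h
      exact this ((enc x 0 0).2 h)
    have e1 : ¬ Encl (cfg H u v x) (cfg V u v x) (0 + ((2 * k + 1 : ℕ) : ℤ)) 0 := by
      have := d1.1
      intro h
      rw [zero_add] at h
      exact this ((enc x _ 0).2 h)
    have h6 := row_coh hW hx1 hC (2 * k + 1) 0 e0 e1
    have h7 : cfg C u v x ((2 * k + 1 : ℕ) : ℤ) 0 = c := d1.2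
    have h8 : cfg C u v x 0 0 = c := d0.2
    rw [zero_add, h7, h8] at h6
    simp at h6

end Main

end Pool.Agent.W927
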