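import Pool.Agent.W927.Dirs
import Pool.Agent.W927.CircleB2

/-!
The labelling problem has no Borel solution.
-/

namespace Pool.Agent.W927

open MeasureTheory Filter Topology

section Charts

variable {d N : ℕ} {i0 i1 : Fin d} {F : FreePart d → LabG N d}

/-- A chart of the orbit around a point. -/
structure OC (i0 i1 : Fin d) (F : FreePart d → LabG N d) (x : FreePart d)
    (ψ : (Fin d → ℤ) → FreePart d) : Prop where
  root : ψ 0 = x
  inj : ∀ g ∈ B2 d, ∀ h ∈ B2 d, ψ g = ψ h → g = h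
  surj : ∀ h ∈ B2 d, ∃ g ∈ B2 d, ψ g = act h x
  adj : ∀ g ∈ B2 d, ∀ h ∈ B2 d, ((shiftGraph d).Adj (ψ g) (ψ h) ↔ ∃ a, h = g + vec a)
  q : QG i0 i1 (fun g => F (ψ g))

theorem exists_D (hF : ∀ x, ∃ ψ, OC i0 i1 F x ψ) : ∃ (ψ : FreePart d → (Fin d → ℤ) → FreePart d)
    (D : FreePart d → Dir d → Dir d), (∀ x, OC i0 i1 F x (ψ x)) ∧
    ∀ x a, ψ x (vec a) = act (vec (D x a)) x := by
  choose ψ hψ using hF
  have h : ∀ x a, ∃ b, ψ x (vec a) = act (vec b) x := by
    intro x a
    have h1 : (shiftGraph d).Adj (ψ x 0) (ψ x (vec a)) :=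
      ((hψ x).adj _ zero_mem _ (vec_mem a)).2 ⟨a, by simp⟩
    rw [(hψ x).root] at h1
    exact (adj_iff _ _).1 h1
  choose D hD using h
  exact ⟨ψ, D, hψ, hD⟩

variable {ψ : FreePart d → (Fin d → ℤ) → FreePart d} {D : FreePart d → Dir d → Dir d}

theorem D_iff (hψ : ∀ x, OC i0 i1 F x (ψ x)) (hD : ∀ x a, ψ x (vec a) = act (vec (D x a)) x)
    (x : FreePart d) (a b : Dir d) :
    (F x).2.1 (F (act (vec b) x)).1 = a ↔ D x a = b := by
  constructor
  · intro h
    obtain ⟨g, hg, e⟩ := (hψ x).surj (vec b) (vec_mem b)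
    have h1 : (shiftGraph d).Adj (ψ x 0) (ψ x g) := by
      rw [(hψ x).root, e]
      exact (adj_iff _ _).2 ⟨b, rfl⟩
    obtain ⟨a', h2⟩ := ((hψ x).adj _ zero_mem _ hg).1 h1
    rw [zero_add] at h2
    subst h2
    have h3 := (hψ x).q.1 a'
    simp only [(hψ x).root, e] at h3
    rw [h3] at h
    subst h
    rw [hD] at e
    exact vec_inj (act_inj e)
  · rintro rfl
    have h3 := (hψ x).q.1 a
    simp only [(hψ x).root, hD] at h3
    exact h3

theorem D_inj (hψ : ∀ x, OC i0 i1 F x (ψ x)) (hD : ∀ x a, ψ x (vec a) = act (vec (D x a)) x)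
    (x : FreePart d) : Function.Injective (D x) := by
  intro a b h
  apply vec_inj
  apply (hψ x).inj _ (vec_mem a) _ (vec_mem b)
  rw [hD, hD, h]

theorem D_ngt (hψ : ∀ x, OC i0 i1 F x (ψ x)) (hD : ∀ x a, ψ x (vec a) = act (vec (D x a)) x)
    (x : FreePart d) (a : Dir d) : D x (ngt a) = ngt (D x a) := by
  by_contra hne
  have hdist : D x (ngt a) ≠ D x a := fun h => ngt_ne a (D_inj hψ hD x h)
  obtain ⟨g, hg, e⟩ := (hψ x).surj (vec (D x a) + vec (D x (ngt a))) (vec2_mem _ _)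
  have h1 : (shiftGraph d).Adj (ψ x (vec a)) (ψ x g) := by
    rw [e, hD]
    refine (adj_iff _ _).2 ⟨D x (ngt a), ?_⟩
    rw [act_act, add_comm]
  have h2 : (shiftGraph d).Adj (ψ x (vec (ngt a))) (ψ x g) := by
    rw [e, hD]
    refine (adj_iff _ _).2 ⟨D x a, ?_⟩
    rw [act_act]
  obtain ⟨c, hc⟩ := ((hψ x).adj _ (vec_mem _) _ hg).1 h1
  obtain ⟨c', hc'⟩ := ((hψ x).adj _ (vec_mem _) _ hg).1 h2
  have hg0 : g = 0 := by
    rcases add_eq (hc.symm.trans hc') (ngt_ne a).symm with ⟨h3, -⟩ | ⟨h3, -⟩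
    · rw [hc, h3, vec_ngt, add_neg_cancel]
    · rw [hc, h3, vec_ngt, add_neg_cancel]
  rw [hg0, (hψ x).root] at e
  have h4 : act 0 x = act (vec (D x a) + vec (D x (ngt a))) x := by rw [act_zero]; exact e
  have h5 := act_inj h4
  apply hne
  apply vec_inj
  rw [vec_ngt]
  exact eq_neg_of_add_eq_zero_right h5.symm

theorem D_step (hψ : ∀ x, OC i0 i1 F x (ψ x)) (hD : ∀ x a, ψ x (vec a) = act (vec (D x a)) x)
    (x : FreePart d) (a c : Dir d) :
    act (vec (D (ψ x (vec a)) c)) (ψ x (vec a)) = ψ x (vec a + vec c) := by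
  have h1 : (shiftGraph d).Adj (ψ x (vec a)) (ψ x (vec a + vec c)) :=
    ((hψ x).adj _ (vec_mem _) _ (vec2_mem _ _)).2 ⟨c, rfl⟩
  obtain ⟨b, hb⟩ := (adj_iff _ _).1 h1
  have h2 := (hψ x).q.2.1 a c
  simp only [hb] at h2
  rw [(D_iff hψ hD _ _ _).1 h2, hb]

theorem D_nbr (hψ : ∀ x, OC i0 i1 F x (ψ x)) (hD : ∀ x a, ψ x (vec a) = act (vec (D x a)) x)
    (x : FreePart d) (a : Dir d) : D (ψ x (vec a)) = D x := by
  set w := ψ x (vec a) with hw
  have hwx : w = act (vec (D x a)) x := hD x a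
  have hback : D w (ngt a) = ngt (D x a) := by
    have h1 := D_step hψ hD x a (ngt a)
    rw [vec_ngt, add_neg_cancel, (hψ x).root, ← hw, hwx, act_act] at h1
    have h2 : act (vec (D (act (vec (D x a)) x) (ngt a)) + vec (D x a)) x = act 0 x := by
      rw [h1, act_zero]
    have h3 := act_inj h2
    rw [← hwx] at h3
    apply vec_inj
    rw [vec_ngt]
    exact eq_neg_of_add_eq_zero_left h3
  funext c
  by_cases c1 : c = ngt a
  · rw [c1, hback, D_ngt hψ hD]
  by_cases c2 : c = a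
  · subst c2
    have h1 := D_ngt hψ hD w c
    rw [hback] at h1
    have h2 := congrArg ngt h1
    rw [ngt_ngt, ngt_ngt] at h2
    exact h2.symm
  · -- perpendicular directions
    have h1 := D_step hψ hD x a c
    have h2 : (shiftGraph d).Adj (ψ x (vec c)) (ψ x (vec a + vec c)) :=
      ((hψ x).adj _ (vec_mem _) _ (vec2_mem _ _)).2 ⟨a, by rw [add_comm]⟩
    obtain ⟨b, hb⟩ := (adj_iff _ _).1 h2
    rw [← hw, hwx, act_act] at h1
    rw [hD, act_act] at hb
    rw [← hwx] at h1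
    have h3 := act_inj (h1.trans hb)
    rw [add_comm _ (vec (D x a)), add_comm _ (vec (D x c))] at h3
    rcases add_eq h3 (fun h => c2 (D_inj hψ hD x h).symm) with ⟨h4, -⟩ | ⟨h4, -⟩
    · exfalso
      rw [h4, vec_ngt, neg_add_cancel, act_zero] at h1
      have h5 := (hψ x).inj _ zero_mem _ (vec2_mem a c) ((hψ x).root.trans h1)
      apply c1
      apply vec_inj
      rw [vec_ngt]
      exact eq_neg_of_add_eq_zero_right h5.symm
    · exact h4

theorem D_act_vec (hψ : ∀ x, OC i0 i1 F x (ψ x))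
    (hD : ∀ x a, ψ x (vec a) = act (vec (D x a)) x) (x : FreePart d) (b : Dir d) :
    D (act (vec b) x) = D x := by
  obtain ⟨a, ha⟩ := (Finite.injective_iff_surjective.1 (D_inj hψ hD x)) b
  rw [← ha, ← hD]
  exact D_nbr hψ hD x a

theorem D_act (hψ : ∀ x, OC i0 i1 F x (ψ x))
    (hD : ∀ x a, ψ x (vec a) = act (vec (D x a)) x) (g : Fin d → ℤ) (x : FreePart d) :
    D (act g x) = D x := by
  let S : AddSubgroup (Fin d → ℤ) :=
    { carrier := {g | ∀ x, D (act g x) = D x}
      zero_mem' := fun x => by rw [act_zero]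
      add_mem' := fun {g h} hg hh x => by rw [← act_act, hg, hh]
      neg_mem' := fun {g} hg x => by
        have := hg (act (-g) x)
        rw [act_act, add_neg_cancel, act_zero] at this
        exact this.symm }
  have h1 : ∀ i : Fin d, (Pi.single i 1 : Fin d → ℤ) ∈ S := fun i x =>
    D_act_vec hψ hD x (i, true)
  have h2 : g = ∑ i, g i • (Pi.single i 1 : Fin d → ℤ) := by
    funext j
    simp [Finset.sum_apply, Pi.single_apply]
  have h3 : g ∈ S := by
    rw [h2]
    exact S.sum_mem fun i _ => S.zsmul_mem (h1 i) _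
  exact h3 x

theorem rule_D (hψ : ∀ x, OC i0 i1 F x (ψ x))
    (hD : ∀ x a, ψ x (vec a) = act (vec (D x a)) x) (x : FreePart d) :
    RuleB (vec (D x (i0, true))) (vec (D x (i1, true))) (fun g => (F (act g x)).2.2) := by
  have h1 := (hψ x).q.2.2
  have e0 : -e_ i0 = vec (ngt ((i0, true) : Dir d)) := by rw [vec_ngt]; rfl
  have e1 : -e_ i1 = vec (ngt ((i1, true) : Dir d)) := by rw [vec_ngt]; rfl
  have k0 : ψ x (-e_ i0) = act (-vec (D x (i0, true))) x := by
    rw [e0, hD, D_ngt hψ hD, vec_ngt]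
  have k1 : ψ x (-e_ i1) = act (-vec (D x (i1, true))) x := by
    rw [e1, hD, D_ngt hψ hD, vec_ngt]
  simp only [RuleB, k0, k1, (hψ x).root] at h1
  simp only [RuleB, act_zero]
  exact h1

end Charts

section Main

variable {d N k : ℕ} {i0 i1 : Fin d} {e : Fin k ≃ LabG N d}

theorem oc_of_good {f : FreePart d → Fin k} {x : FreePart d}
    (h : GoodRG i0 i1 e (ballRG (shiftGraph d) 2 f x)) :
    ∃ ψ, OC i0 i1 (fun y => e (f y)) x ψ := by
  obtain ⟨ψ, hψ, hQ⟩ := h
  refine ⟨fun g => (ψ g).1, ⟨?_, ?_, ?_, ?_, hQ⟩⟩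
  · rw [hψ.root]; rfl
  · intro g hg h hh e
    exact hψ.inj g hg h hh (Subtype.ext e)
  · intro h hh
    obtain ⟨g, hg, e⟩ := hψ.surj ⟨act h x, (mem_ball_iff _ _).2 ⟨h, hh, rfl⟩⟩
    exact ⟨g, hg, by rw [e]⟩
  · intro g hg h hh
    exact hψ.adj g hg h hh

theorem no_borelSol : ¬ (PB_ N d i0 i1 e).BorelSol d := by
  rintro ⟨f', hf', hs'⟩
  obtain ⟨f, hf, hs⟩ : ∃ f : FreePart d → Fin k, Measurable f ∧
      ∀ x ∈ (Set.univ : Set (FreePart d)), GoodRG i0 i1 e (ballRG (shiftGraph d) 2 f x) :=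
    ⟨f', hf', (solves_iff (e := e) (shiftGraph d) Set.univ f').1 hs'⟩
  obtain ⟨ψ, D, hψ, hD⟩ := exists_D (F := fun y => e (f y)) (i0 := i0) (i1 := i1)
    (fun x => oc_of_good (hs x (Set.mem_univ x)))
  obtain ⟨α, hα⟩ := exists_alpha d
  have hcode : ∀ (θ : TT) (g : Fin d → ℤ), codeF hα (θ + lin α g) = act g (codeF hα θ) :=
    fun θ g => Subtype.ext (code_shift α θ g)
  -- the pieces
  let Pc : Dir d × Dir d → Set TT := fun b =>
    {θ | D (codeF hα θ) (i0, true) = b.1 ∧ D (codeF hα θ) (i1, true) = b.2}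
  have hDm : ∀ a b, MeasurableSet {x : FreePart d | D x a = b} := by
    intro a b
    have h1 : {x : FreePart d | D x a = b} = (fun x => (f x, f (act (vec b) x))) ⁻¹'
        {m : Fin k × Fin k | (e m.1).2.1 (e m.2).1 = a} := by
      ext x
      exact (D_iff hψ hD x a b).symm
    rw [h1]
    exact (hf.prodMk (hf.comp (measurable_act _))) (MeasurableSet.of_discrete)
  have hPm : ∀ b, MeasurableSet (Pc b) := fun b =>
    (measurable_codeF hα (hDm (i0, true) b.1)).inter (measurable_codeF hα (hDm (i1, true) b.2))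
  have hPi : ∀ b g θ, θ + lin α g ∈ Pc b ↔ θ ∈ Pc b := by
    intro b g θ
    change (_ ∧ _) ↔ (_ ∧ _)
    rw [hcode, D_act hψ hD]
  obtain ⟨b, hb⟩ : ∃ b, ¬ IsMeagre (Pc b) := by
    by_contra hcon
    push Not at hcon
    apply not_meagre_univ
    have h1 : (Set.univ : Set TT) ⊆ ⋃ b, Pc b := by
      intro θ _
      exact Set.mem_iUnion.2 ⟨(D (codeF hα θ) (i0, true), D (codeF hα θ) (i1, true)), rfl, rfl⟩
    refine IsMeagre.mono h1 ?_
    unfold IsMeagre
    rw [Set.compl_iUnion, countable_iInter_mem]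
    exact hcon
  have hall : Gen fun θ => θ ∈ Pc b := by
    obtain ⟨O, hO, hne, hg⟩ := localize (hPm b) hb
    obtain ⟨K, hK⟩ := syndetic hO hne (hα (vec b.1) (vec_ne_zero _))
    filter_upwards [gen_orbit hg (lin α (vec b.1)) 0] with θ h1
    obtain ⟨m, -, hm⟩ := hK θ
    have h2 := h1 m 0
    simp only [smul_zero, add_zero, natCast_zsmul] at h2
    have h3 := h2 hm
    rw [← map_nsmul, hPi] at h3
    exact h3
  have hm' : ∀ A : Set Lab, MeasurableSet {θ : TT | (e (f (codeF hα θ))).2.2 ∈ A} := by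
    intro A
    exact (hf.comp (measurable_codeF hα))
      (MeasurableSet.of_discrete (s := {m : Fin k | (e m).2.2 ∈ A}))
  have hr : Gen fun x : TT => ∀ i j : ℤ, RuleB (vec b.1) (vec b.2)
      (fun h => (e (f (codeF hα (x + i • lin α (vec b.1) + j • lin α (vec b.2) + lin α h)))).2.2) := by
    have h0 := gen_orbit hall (lin α (vec b.1)) (lin α (vec b.2))
    filter_upwards [h0] with x hx i j
    have h1 := rule_D hψ hD (codeF hα (x + i • lin α (vec b.1) + j • lin α (vec b.2)))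
    rw [(hx i j).1, (hx i j).2] at h1
    simpa only [hcode] using h1
  have s0 : ∀ (x : TT) (i j : ℤ),
      x + i • lin α (vec b.1) + j • lin α (vec b.2) + lin α (-vec b.1) =
      x + (i - 1) • lin α (vec b.1) + j • lin α (vec b.2) := by
    intro x i j
    rw [map_neg, sub_smul, one_smul]; abel
  have s1 : ∀ (x : TT) (i j : ℤ),
      x + i • lin α (vec b.1) + j • lin α (vec b.2) + lin α (-vec b.2) =
      x + i • lin α (vec b.1) + (j - 1) • lin α (vec b.2) := by
    intro x i j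
    rw [map_neg, sub_smul, one_smul]; abel
  refine no_borel_gen (H := fun θ => (e (f (codeF hα θ))).2.2.1)
    (V := fun θ => (e (f (codeF hα θ))).2.2.2.1) (C := fun θ => (e (f (codeF hα θ))).2.2.2.2.1)
    (hα (vec b.1) (vec_ne_zero _)) (hα (vec b.2) (vec_ne_zero _))
    (fun c => hm' {l | l.1 = c}) (fun c => hm' {l | l.2.1 = c}) (fun c => hm' {l | l.2.2.1 = c})
    ?_ ?_
  · filter_upwards [hr] with x hx i j
    have := (hx i j).1
    simpa only [s0, s1, map_zero, add_zero, cfg] using this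
  · filter_upwards [hr] with x hx
    constructor
    · intro i j
      have := (hx i j).2.1
      simpa only [s0, s1, map_zero, add_zero, cfg] using this
    · intro i j
      have := (hx i j).2.2
      simpa only [s0, s1, map_zero, add_zero, cfg] using this

end Main

end Pool.Agent.W927
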