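import Pool.Agent.W927.Grid

/-!
Labellings of the plane built from a family of nested or disjoint squares.
-/

namespace Pool.Agent.W927

section Plane

variable (D : ℤ → ℤ → ℕ → Prop)

/-- `(x, y)` is the left endpoint of a top edge of a square. -/
def Top (x y : ℤ) : Prop := ∃ p q : ℤ, ∃ s : ℕ, D p q s ∧ y = q + s ∧ p - s ≤ x ∧ x < p + s
def Bot (x y : ℤ) : Prop := ∃ p q : ℤ, ∃ s : ℕ, D p q s ∧ y = q - s ∧ p - s ≤ x ∧ x < p + s
def Lef (x y : ℤ) : Prop := ∃ p q : ℤ, ∃ s : ℕ, D p q s ∧ x = p - s ∧ q - s ≤ y ∧ y < q + s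
def Rig (x y : ℤ) : Prop := ∃ p q : ℤ, ∃ s : ℕ, D p q s ∧ x = p + s ∧ q - s ≤ y ∧ y < q + s

/-- The cell `(x, y)` is covered by the square of centre `(p, q)` and radius `s`. -/
def Cel (s : ℕ) (x y p q : ℤ) : Prop := D p q s ∧ p - s ≤ x ∧ x < p + s ∧ q - s ≤ y ∧ y < q + s

/-- The colour: parity with respect to the smallest covering square. -/
def Col (x y : ℤ) : Prop := ∃ (s : ℕ) (p q : ℤ), Cel D s x y p q ∧
  (∀ s' < s, ∀ p' q' : ℤ, ¬ Cel D s' x y p' q') ∧ Even (x - p + (y - q))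

def Tri (x y : ℤ) : Prop := ∃ p q : ℤ, ∃ s : ℕ, D p q s ∧ p - s ≤ x ∧ q + s ≤ y ∧
  (x - p) + (y - q) < 2 * s
def Rtri (x y : ℤ) : Prop := ∃ p q : ℤ, ∃ s : ℕ, D p q s ∧ q - s ≤ y ∧ p + s ≤ x ∧
  (x - p) + (y - q) < 2 * s

open Classical in
noncomputable def Hlab (x y : ℤ) : HL := if Top D x y then .t else if Bot D x y then .b else .n
open Classical in
noncomputable def Vlab (x y : ℤ) : VL := if Lef D x y then .l else if Rig D x y then .r else .n
open Classical in
noncomputable def Clab (x y : ℤ) : Bool := decide (Col D x y)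
open Classical in
noncomputable def Mlab (x y : ℤ) : ML := if Tri D x y then .t else if Rtri D x y then .r else .n

/-- Weak isolation: squares are disjoint or strictly nested. -/
structure IsoW : Prop where
  pos : ∀ p q s, D p q s → 1 ≤ s
  iso : ∀ (p q : ℤ) (s : ℕ) (p' q' : ℤ) (s' : ℕ), D p q s → D p' q' s' → s ≤ s' →
    (p = p' ∧ q = q' ∧ s = s') ∨
    (p - p' > s + s' ∨ p' - p > s + s' ∨ q - q' > s + s' ∨ q' - q > s + s') ∨
    (p - p' + s < s' ∧ p' - p + s < s' ∧ q - q' + s < s' ∧ q' - q + s < s')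

/-- Strong isolation. -/
structure IsoS : Prop where
  pos : ∀ p q s, D p q s → 1 ≤ s
  iso : ∀ (p q : ℤ) (s : ℕ) (p' q' : ℤ) (s' : ℕ), D p q s → D p' q' s' → s ≤ s' →
    (p = p' ∧ q = q' ∧ s = s') ∨
    (p - p' > 4 * s' ∨ p' - p > 4 * s' ∨ q - q' > 4 * s' ∨ q' - q > 4 * s') ∨
    (p - p' + 4 * s < s' ∧ p' - p + 4 * s < s' ∧ q - q' + 4 * s < s' ∧ q' - q + 4 * s < s')

variable {D}

theorem IsoS.weak (h : IsoS D) : IsoW D := by
  refine ⟨h.pos, fun p q s p' q' s' h1 h2 h3 => ?_⟩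
  have := h.iso p q s p' q' s' h1 h2 h3
  omega

theorem bd_unique (hI : IsoW D) {p q : ℤ} {s : ℕ} {p' q' : ℤ} {s' : ℕ} {x y : ℤ}
    (h1 : D p q s) (h2 : D p' q' s')
    (k1 : p - s ≤ x ∧ x ≤ p + s ∧ q - s ≤ y ∧ y ≤ q + s ∧
      (x = p - s ∨ x = p + s ∨ y = q - s ∨ y = q + s))
    (k2 : p' - s' ≤ x ∧ x ≤ p' + s' ∧ q' - s' ≤ y ∧ y ≤ q' + s' ∧
      (x = p' - s' ∨ x = p' + s' ∨ y = q' - s' ∨ y = q' + s')) :
    p = p' ∧ q = q' ∧ s = s' := by
  rcases le_total s s' with h | h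
  · have := hI.iso p q s p' q' s' h1 h2 h
    omega
  · have := hI.iso p' q' s' p q s h2 h1 h
    omega

theorem walls_build (hI : IsoW D) : Walls (Hlab D) (Vlab D) := by
  classical
  intro x y
  by_cases hB : ∃ (p q : ℤ) (s : ℕ), D p q s ∧ (p - s ≤ x ∧ x ≤ p + s ∧ q - s ≤ y ∧ y ≤ q + s ∧
      (x = p - s ∨ x = p + s ∨ y = q - s ∨ y = q + s))
  · obtain ⟨p, q, s, hD, hb⟩ := hB
    have hs := hI.pos _ _ _ hD
    have T1 : Top D x y ↔ (y = q + s ∧ p - s ≤ x ∧ x < p + s) := by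
      constructor
      · rintro ⟨p', q', s', hD', g⟩
        obtain ⟨rfl, rfl, rfl⟩ := bd_unique hI hD hD' hb (by omega)
        exact g
      · intro g
        exact ⟨p, q, s, hD, g⟩
    have T2 : Top D (x - 1) y ↔ (y = q + s ∧ p - s ≤ x - 1 ∧ x - 1 < p + s) := by
      constructor
      · rintro ⟨p', q', s', hD', g⟩
        obtain ⟨rfl, rfl, rfl⟩ := bd_unique hI hD hD' hb (by omega)
        exact g
      · intro g
        exact ⟨p, q, s, hD, g⟩
    have B1 : Bot D x y ↔ (y = q - s ∧ p - s ≤ x ∧ x < p + s) := by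
      constructor
      · rintro ⟨p', q', s', hD', g⟩
        obtain ⟨rfl, rfl, rfl⟩ := bd_unique hI hD hD' hb (by omega)
        exact g
      · intro g
        exact ⟨p, q, s, hD, g⟩
    have B2 : Bot D (x - 1) y ↔ (y = q - s ∧ p - s ≤ x - 1 ∧ x - 1 < p + s) := by
      constructor
      · rintro ⟨p', q', s', hD', g⟩
        obtain ⟨rfl, rfl, rfl⟩ := bd_unique hI hD hD' hb (by omega)
        exact g
      · intro g
        exact ⟨p, q, s, hD, g⟩
    have L1 : Lef D x y ↔ (x = p - s ∧ q - s ≤ y ∧ y < q + s) := by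
      constructor
      · rintro ⟨p', q', s', hD', g⟩
        obtain ⟨rfl, rfl, rfl⟩ := bd_unique hI hD hD' hb (by omega)
        exact g
      · intro g
        exact ⟨p, q, s, hD, g⟩
    have L2 : Lef D x (y - 1) ↔ (x = p - s ∧ q - s ≤ y - 1 ∧ y - 1 < q + s) := by
      constructor
      · rintro ⟨p', q', s', hD', g⟩
        obtain ⟨rfl, rfl, rfl⟩ := bd_unique hI hD hD' hb (by omega)
        exact g
      · intro g
        exact ⟨p, q, s, hD, g⟩
    have R1 : Rig D x y ↔ (x = p + s ∧ q - s ≤ y ∧ y < q + s) := by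
      constructor
      · rintro ⟨p', q', s', hD', g⟩
        obtain ⟨rfl, rfl, rfl⟩ := bd_unique hI hD hD' hb (by omega)
        exact g
      · intro g
        exact ⟨p, q, s, hD, g⟩
    have R2 : Rig D x (y - 1) ↔ (x = p + s ∧ q - s ≤ y - 1 ∧ y - 1 < q + s) := by
      constructor
      · rintro ⟨p', q', s', hD', g⟩
        obtain ⟨rfl, rfl, rfl⟩ := bd_unique hI hD hD' hb (by omega)
        exact g
      · intro g
        exact ⟨p, q, s, hD, g⟩
    simp only [Hlab, Vlab, T1, T2, B1, B2, L1, L2, R1, R2]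
    split_ifs <;> first | decide | omega
  · have T1 : ¬ Top D x y := by
      rintro ⟨p', q', s', hD', g⟩
      exact hB ⟨p', q', s', hD', by omega⟩
    have T2 : ¬ Top D (x - 1) y := by
      rintro ⟨p', q', s', hD', g⟩
      exact hB ⟨p', q', s', hD', by omega⟩
    have B1 : ¬ Bot D x y := by
      rintro ⟨p', q', s', hD', g⟩
      exact hB ⟨p', q', s', hD', by omega⟩
    have B2 : ¬ Bot D (x - 1) y := by
      rintro ⟨p', q', s', hD', g⟩
      exact hB ⟨p', q', s', hD', by omega⟩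
    have L1 : ¬ Lef D x y := by
      rintro ⟨p', q', s', hD', g⟩
      exact hB ⟨p', q', s', hD', by omega⟩
    have L2 : ¬ Lef D x (y - 1) := by
      rintro ⟨p', q', s', hD', g⟩
      exact hB ⟨p', q', s', hD', by omega⟩
    have R1 : ¬ Rig D x y := by
      rintro ⟨p', q', s', hD', g⟩
      exact hB ⟨p', q', s', hD', by omega⟩
    have R2 : ¬ Rig D x (y - 1) := by
      rintro ⟨p', q', s', hD', g⟩
      exact hB ⟨p', q', s', hD', by omega⟩
    simp only [Hlab, Vlab, T1, T2, B1, B2, L1, L2, R1, R2, if_false]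
    decide

theorem col_iff (hI : IsoW D) {s : ℕ} {x y p q : ℤ} (hc : Cel D s x y p q)
    (hmin : ∀ s' < s, ∀ p' q' : ℤ, ¬ Cel D s' x y p' q') :
    Col D x y ↔ Even (x - p + (y - q)) := by
  constructor
  · rintro ⟨s', p', q', hc', hmin', he⟩
    have h1 : s' = s := by
      rcases lt_trichotomy s s' with h | h | h
      · exact absurd hc (hmin' s h p q)
      · exact h.symm
      · exact absurd hc' (hmin s' h p' q')
    subst h1
    obtain ⟨d1, g1⟩ := hc
    obtain ⟨d2, g2⟩ := hc'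
    have h2 := hI.iso _ _ _ _ _ _ d1 d2 le_rfl
    have h3 : p = p' ∧ q = q' := by omega
    rw [h3.1, h3.2]
    exact he
  · intro h
    exact ⟨s, p, q, hc, hmin, h⟩

theorem exists_min_cel {x y : ℤ} (h : ∃ s p q, Cel D s x y p q) :
    ∃ s p q, Cel D s x y p q ∧ ∀ s' < s, ∀ p' q' : ℤ, ¬ Cel D s' x y p' q' := by
  classical
  obtain ⟨p, q, hc⟩ := Nat.find_spec h
  exact ⟨Nat.find h, p, q, hc, fun s' hs' p' q' hc' => Nat.find_min h hs' ⟨p', q', hc'⟩⟩

theorem cols_build (hI : IsoW D) (hcov : ∀ x y, ∃ s p q, Cel D s x y p q) :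
    Cols (Hlab D) (Vlab D) (Clab D) := by
  classical
  constructor
  · intro x y hV
    have hL : ¬ Lef D x y := by
      intro h; simp [Vlab, h] at hV
    have hR : ¬ Rig D x y := by
      intro h; simp [Vlab, h, hL] at hV
    have key : ∀ s p q, Cel D s x y p q ↔ Cel D s (x - 1) y p q := by
      intro s p q
      constructor
      · rintro ⟨hD, g⟩
        by_cases hx : x = p - s
        · exact absurd ⟨p, q, s, hD, hx, g.2.2.1, g.2.2.2⟩ hL
        · exact ⟨hD, by omega⟩
      · rintro ⟨hD, g⟩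
        by_cases hx : x = p + s
        · exact absurd ⟨p, q, s, hD, hx, g.2.2.1, g.2.2.2⟩ hR
        · exact ⟨hD, by omega⟩
    obtain ⟨s, p, q, hc, hmin⟩ := exists_min_cel (hcov x y)
    have e1 := col_iff hI hc hmin
    have e2 := col_iff hI ((key s p q).1 hc) (fun s' hs' p' q' h =>
      hmin s' hs' p' q' ((key _ _ _).2 h))
    have e3 : Even (x - p + (y - q)) ↔ ¬ Even (x - 1 - p + (y - q)) := by
      rw [Int.even_iff, Int.even_iff]; omega
    unfold Clab
    rw [← decide_not, decide_eq_decide, e1, e2]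
    exact e3
  · intro x y hV
    have hL : ¬ Top D x y := by
      intro h; simp [Hlab, h] at hV
    have hR : ¬ Bot D x y := by
      intro h; simp [Hlab, h, hL] at hV
    have key : ∀ s p q, Cel D s x y p q ↔ Cel D s x (y - 1) p q := by
      intro s p q
      constructor
      · rintro ⟨hD, g⟩
        by_cases hx : y = q - s
        · exact absurd ⟨p, q, s, hD, hx, g.1, g.2.1⟩ hR
        · exact ⟨hD, by omega⟩
      · rintro ⟨hD, g⟩
        by_cases hx : y = q + s
        · exact absurd ⟨p, q, s, hD, hx, g.1, g.2.1⟩ hL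
        · exact ⟨hD, by omega⟩
    obtain ⟨s, p, q, hc, hmin⟩ := exists_min_cel (hcov x y)
    have e1 := col_iff hI hc hmin
    have e2 := col_iff hI ((key s p q).1 hc) (fun s' hs' p' q' h =>
      hmin s' hs' p' q' ((key _ _ _).2 h))
    have e3 : Even (x - p + (y - q)) ↔ ¬ Even (x - p + (y - 1 - q)) := by
      rw [Int.even_iff, Int.even_iff]; omega
    unfold Clab
    rw [← decide_not, decide_eq_decide, e1, e2]
    exact e3

theorem tri_rtri (hI : IsoS D) {x y : ℤ} (h1 : Tri D x y) (h2 : Rtri D x y) : False := by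
  obtain ⟨p, q, s, hD, g⟩ := h1
  obtain ⟨p', q', s', hD', g'⟩ := h2
  have := hI.pos _ _ _ hD
  have := hI.pos _ _ _ hD'
  rcases le_total s s' with h | h
  · have := hI.iso _ _ _ _ _ _ hD hD' h
    omega
  · have := hI.iso _ _ _ _ _ _ hD' hD h
    omega

theorem marks_build (hI : IsoS D) : Marks (Hlab D) (Vlab D) (Mlab D) := by
  classical
  have hMt : ∀ x y, Mlab D x y = .t ↔ Tri D x y := by
    intro x y
    unfold Mlab
    split_ifs <;> simp_all
  have hMr : ∀ x y, Mlab D x y = .r ↔ Rtri D x y := by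
    intro x y
    unfold Mlab
    split_ifs with h1 h2
    · simp only [false_iff]
      exact fun h => tri_rtri hI h1 h
    · simp [h2]
    · simp [h2]
  have hHt : ∀ x y, Hlab D x y = .t ↔ Top D x y := by
    intro x y
    unfold Hlab
    split_ifs <;> simp_all
  have hHn : ∀ x y, ¬ Top D x y → ¬ Bot D x y → Hlab D x y = .n := by
    intro x y h1 h2
    simp [Hlab, h1, h2]
  have hVn : ∀ x y, ¬ Lef D x y → ¬ Rig D x y → Vlab D x y = .n := by
    intro x y h1 h2
    simp [Vlab, h1, h2]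
  have hVr : ∀ x y, Vlab D x y = .r → Rig D x y := by
    intro x y h
    unfold Vlab at h
    split_ifs at h with h1 h2
    exact h2
  refine ⟨fun x y h => ?_, fun x y h h' => ?_, fun x y h => ?_, fun x y h h' => ?_⟩
  · rw [hMt]
    rw [hHt] at h
    obtain ⟨p, q, s, hD, g⟩ := h
    exact ⟨p, q, s, hD, by omega⟩
  · rw [hMt] at h h'
    obtain ⟨p, q, s, hD, g⟩ := h
    obtain ⟨p', q', s', hD', g'⟩ := h'
    have hs := hI.pos _ _ _ hD
    have hs' := hI.pos _ _ _ hD'
    have e : p = p' ∧ q = q' ∧ s = s' := by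
      rcases le_total s s' with h | h
      · have := hI.iso _ _ _ _ _ _ hD hD' h
        omega
      · have := hI.iso _ _ _ _ _ _ hD' hD h
        omega
    obtain ⟨rfl, rfl, rfl⟩ := e
    refine ⟨(hMt _ _).2 ⟨p, q, s, hD, by omega⟩, hHn _ _ ?_ ?_⟩
    · rintro ⟨p2, q2, s2, hD2, g2⟩
      have hs2 := hI.pos _ _ _ hD2
      rcases le_total s s2 with h | h
      · have := hI.iso _ _ _ _ _ _ hD hD2 h
        omega
      · have := hI.iso _ _ _ _ _ _ hD2 hD h
        omega
    · rintro ⟨p2, q2, s2, hD2, g2⟩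
      have hs2 := hI.pos _ _ _ hD2
      rcases le_total s s2 with h | h
      · have := hI.iso _ _ _ _ _ _ hD hD2 h
        omega
      · have := hI.iso _ _ _ _ _ _ hD2 hD h
        omega
  · rw [hMr]
    obtain ⟨p, q, s, hD, g⟩ := hVr _ _ h
    exact ⟨p, q, s, hD, by omega⟩
  · rw [hMr] at h h'
    obtain ⟨p, q, s, hD, g⟩ := h
    obtain ⟨p', q', s', hD', g'⟩ := h'
    have hs := hI.pos _ _ _ hD
    have hs' := hI.pos _ _ _ hD'
    have e : p = p' ∧ q = q' ∧ s = s' := by
      rcases le_total s s' with h | h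
      · have := hI.iso _ _ _ _ _ _ hD hD' h
        omega
      · have := hI.iso _ _ _ _ _ _ hD' hD h
        omega
    obtain ⟨rfl, rfl, rfl⟩ := e
    refine ⟨(hMr _ _).2 ⟨p, q, s, hD, by omega⟩, hVn _ _ ?_ ?_⟩
    · rintro ⟨p2, q2, s2, hD2, g2⟩
      have hs2 := hI.pos _ _ _ hD2
      rcases le_total s s2 with h | h
      · have := hI.iso _ _ _ _ _ _ hD hD2 h
        omega
      · have := hI.iso _ _ _ _ _ _ hD2 hD h
        omega
    · rintro ⟨p2, q2, s2, hD2, g2⟩
      have hs2 := hI.pos _ _ _ hD2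
      rcases le_total s s2 with h | h
      · have := hI.iso _ _ _ _ _ _ hD hD2 h
        omega
      · have := hI.iso _ _ _ _ _ _ hD2 hD h
        omega

end Plane

end Pool.Agent.W927
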