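import Pool.Agent.W927.Grid

/-!
Labellings of the plane coming from null measurable maps on the circle.
-/

namespace Pool.Agent.W927

open MeasureTheory

section Msbl

variable {Y : Type*} [MeasurableSpace Y] {H : Y → ℤ → ℤ → HL} {V : Y → ℤ → ℤ → VL}

theorem meas_Isl (hH : ∀ i j c, Measurable fun y => H y i j = c)
    (hV : ∀ i j c, Measurable fun y => V y i j = c) (a c w h : ℤ) :
    Measurable fun y => Isl (H y) (V y) a c w h := by
  unfold Isl
  exact measurable_const.and (measurable_const.and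
    ((Measurable.forall fun i => measurable_const.imp (measurable_const.imp
      ((hH _ _ _).and (hH _ _ _)))).and
    (Measurable.forall fun i => measurable_const.imp (measurable_const.imp
      ((hV _ _ _).and (hV _ _ _))))))

theorem meas_Encl (hH : ∀ i j c, Measurable fun y => H y i j = c)
    (hV : ∀ i j c, Measurable fun y => V y i j = c) (x y : ℤ) :
    Measurable fun y' => Encl (H y') (V y') x y := by
  unfold Encl
  exact Measurable.exists fun a => Measurable.exists fun c => Measurable.exists fun w =>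
    Measurable.exists fun h => (meas_Isl hH hV a c w h).and measurable_const

theorem meas_MaxIsl (hH : ∀ i j c, Measurable fun y => H y i j = c)
    (hV : ∀ i j c, Measurable fun y => V y i j = c) (L a c w h : ℤ) :
    Measurable fun y' => MaxIsl L (H y') (V y') a c w h := by
  unfold MaxIsl
  exact (meas_Isl hH hV a c w h).and (measurable_const.and (measurable_const.and
    (Measurable.forall fun a' => Measurable.forall fun c' => Measurable.forall fun w' =>
      Measurable.forall fun h' => (meas_Isl hH hV a' c' w' h').imp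
        (measurable_const.imp (measurable_const.imp measurable_const)))))

end Msbl

/-- The circle. -/
abbrev TT := AddCircle (1 : ℝ)

/-- The planar configuration of a point of the circle. -/
def cfg {A : Type*} (f : TT → A) (u v : TT) (x : TT) (i j : ℤ) : A := f (x + i • u + j • v)

theorem mp_add (β : TT) : MeasurePreserving (fun x : TT => x + β) volume volume :=
  measurePreserving_add_right volume β

theorem ae_add {p : TT → Prop} (h : ∀ᵐ x, p x) (β : TT) : ∀ᵐ x, p (x + β) :=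
  (mp_add β).quasiMeasurePreserving.ae h

theorem ae_orbit {p : TT → Prop} (h : ∀ᵐ x, p x) (u v : TT) :
    ∀ᵐ x : TT, ∀ i j : ℤ, p (x + i • u + j • v) := by
  rw [ae_all_iff]; intro i
  rw [ae_all_iff]; intro j
  have := ae_add h (i • u + j • v)
  simpa [add_assoc] using this

theorem hit {β : TT} (hβ : addOrderOf β = 0) {D : Set TT} (hD : NullMeasurableSet D)
    (hpos : volume D ≠ 0) : ∀ᵐ x : TT, ∃ k : ℕ, x + k • β ∈ D := by
  have herg : Ergodic (fun x : TT => x + β) volume := AddCircle.ergodic_add_right.2 hβ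
  set S : Set TT := ⋃ k : ℕ, (fun x => x + k • β) ⁻¹' D with hS
  have hSm : NullMeasurableSet S := NullMeasurableSet.iUnion fun k =>
    hD.preimage (mp_add _).quasiMeasurePreserving
  have hsub : (fun x : TT => x + β) ⁻¹' S ≤ᵐ[volume] S := by
    refine Filter.Eventually.of_forall fun x hx => ?_
    obtain ⟨k, hk⟩ := Set.mem_iUnion.1 hx
    refine Set.mem_iUnion.2 ⟨k + 1, ?_⟩
    simp only [Set.mem_preimage] at hk ⊢
    rw [succ_nsmul', ← add_assoc]
    exact hk
  rcases herg.ae_empty_or_univ_of_preimage_ae_le hSm hsub with h | h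
  · exfalso
    apply hpos
    have h1 : volume S = 0 := by rw [measure_congr h]; simp
    refine measure_mono_null (fun x hx => Set.mem_iUnion.2 ⟨0, by simpa using hx⟩) h1
  · filter_upwards [Filter.eventuallyEq_univ.1 h] with x hx
    exact Set.mem_iUnion.1 hx

theorem addOrderOf_two {β : TT} (hβ : addOrderOf β = 0) : addOrderOf (2 • β) = 0 := by
  rw [addOrderOf_eq_zero_iff'] at hβ ⊢
  intro n hn h
  apply hβ (n * 2) (by omega)
  rw [mul_smul]; exact h

theorem hit_odd {β : TT} (hβ : addOrderOf β = 0) {D : Set TT} (hD : NullMeasurableSet D)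
    (hpos : volume D ≠ 0) : ∀ᵐ x : TT, ∃ k : ℕ, x + (2 * k + 1) • β ∈ D := by
  have h := ae_add (hit (addOrderOf_two hβ) hD hpos) β
  filter_upwards [h] with x hx
  obtain ⟨k, hk⟩ := hx
  refine ⟨k, ?_⟩
  rw [add_smul, one_smul, mul_comm, mul_smul, ← add_assoc, add_right_comm]
  exact hk

theorem exists_of_pos {D : Set TT} (hpos : volume D ≠ 0) {p : TT → Prop} (h : ∀ᵐ x, p x) :
    ∃ x ∈ D, p x := by
  by_contra hcon
  push Not at hcon
  exact hpos (measure_mono_null (fun x hx => hcon x hx) h)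

theorem pos_color {N : Set TT} (hN : volume N ≠ 0) (C : TT → Bool) :
    ∃ c, volume (N ∩ {x | C x = c}) ≠ 0 := by
  by_contra hcon
  push Not at hcon
  apply hN
  have h1 : N ⊆ (N ∩ {x | C x = true}) ∪ (N ∩ {x | C x = false}) := by
    intro x hx
    cases e : C x
    · right; exact ⟨hx, e⟩
    · left; exact ⟨hx, e⟩
  exact measure_mono_null h1 (measure_union_null (hcon true) (hcon false))

theorem no_alt {β : TT} (hβ : addOrderOf β = 0) {C : TT → Bool}
    (hC : ∀ c, NullMeasurableSet {x | C x = c}) : ¬ ∀ᵐ x : TT, C (x + β) = !C x := by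
  intro h
  obtain ⟨c, hc⟩ := pos_color (N := Set.univ) (by simp) C
  rw [Set.univ_inter] at hc
  obtain ⟨x, hx, h1, h2⟩ := exists_of_pos hc ((ae_orbit h β 0).and (hit_odd hβ (hC c) hc))
  obtain ⟨k, hk⟩ := h2
  have h3 : ∀ n : ℕ, C (x + n • β) = xor (C x) n.bodd := by
    intro n
    induction n with
    | zero => simp
    | succ n ih =>
      have := h1 n 0
      simp only [smul_zero, add_zero, natCast_zsmul] at this
      rw [succ_nsmul, ← add_assoc, this, ih, Nat.bodd_succ]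
      cases C x <;> cases n.bodd <;> rfl
  have h4 := h3 (2 * k + 1)
  have hx' : C x = c := hx
  have hk' : C (x + (2 * k + 1) • β) = c := hk
  rw [hk', hx'] at h4
  simp at h4

section Cfg
variable {A : Type*} (f : TT → A) (u v : TT)

theorem cfg_zero (x : TT) : cfg f u v x 0 0 = f x := by simp [cfg]

theorem cfg_shift (x : TT) (p q i j : ℤ) :
    cfg f u v (x + p • u + q • v) i j = cfg f u v x (p + i) (q + j) := by
  unfold cfg
  congr 1
  rw [add_smul, add_smul]
  abel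

end Cfg

section Main

variable {u v : TT} {H : TT → HL} {V : TT → VL} {C : TT → Bool}

theorem posV (hv : addOrderOf v = 0)
    (hCm : ∀ c, NullMeasurableSet {x | C x = c})
    (hW : ∀ x, Walls (cfg H u v x) (cfg V u v x))
    (hC : ∀ x, Cols (cfg H u v x) (cfg V u v x) (cfg C u v x)) :
    volume {x | V x = .n} ≠ 0 := by
  intro h0
  have h1 : ∀ᵐ x, V x ≠ .n := by
    rw [ae_iff]; simpa using h0
  apply no_alt hv hCm
  filter_upwards [h1, ae_add h1 v] with x h2 h3
  have h4 := hW (x + v) 0 0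
  have h5 := (okV_facts _ _ _ _ h4).2.2.2.2.2.2.2.2.2.2.2.2.2.2.2.2.2.1
    (by simpa [cfg] using h2) (by simpa [cfg] using h3)
  have h6 := (hC (x + v)).ver 0 0 h5.2
  simpa [cfg] using h6

theorem posH (hu : addOrderOf u = 0)
    (hCm : ∀ c, NullMeasurableSet {x | C x = c})
    (hW : ∀ x, Walls (cfg H u v x) (cfg V u v x))
    (hC : ∀ x, Cols (cfg H u v x) (cfg V u v x) (cfg C u v x)) :
    volume {x | H x = .n} ≠ 0 := by
  intro h0
  have h1 : ∀ᵐ x, H x ≠ .n := by
    rw [ae_iff]; simpa using h0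
  apply no_alt hu hCm
  filter_upwards [h1, ae_add h1 u] with x h2 h3
  have h4 := hW (x + u) 0 0
  have h5 := (okV_facts _ _ _ _ h4).2.2.2.2.2.2.2.2.2.2.2.2.2.2.2.2.1
    (by simpa [cfg] using h2) (by simpa [cfg] using h3)
  have h6 := (hC (x + u)).hor 0 0 h5.2
  simpa [cfg] using h6

theorem ae_fin4 (hu : addOrderOf u = 0) (hv : addOrderOf v = 0)
    (hHm : ∀ c, NullMeasurableSet {x | H x = c})
    (hVm : ∀ c, NullMeasurableSet {x | V x = c})
    (hCm : ∀ c, NullMeasurableSet {x | C x = c})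
    (hW : ∀ x, Walls (cfg H u v x) (cfg V u v x))
    (hC : ∀ x, Cols (cfg H u v x) (cfg V u v x) (cfg C u v x)) :
    ∀ᵐ x, Fin4 (cfg H u v x) (cfg V u v x) := by
  have pV := posV hv hCm hW hC
  have pH := posH hu hCm hW hC
  have hu' : addOrderOf (-u) = 0 := by rw [addOrderOf_neg]; exact hu
  have hv' : addOrderOf (-v) = 0 := by rw [addOrderOf_neg]; exact hv
  filter_upwards [ae_orbit (hit hu (hHm .n) pH) u v, ae_orbit (hit hu' (hHm .n) pH) u v,
    ae_orbit (hit hv (hVm .n) pV) u v, ae_orbit (hit hv' (hVm .n) pV) u v] with x h1 h2 h3 h4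
  refine ⟨fun i j => ?_, fun i j => ?_, fun i j => ?_, fun i j => ?_⟩
  · obtain ⟨k, hk⟩ := h1 i j
    refine ⟨k, ?_⟩
    rw [← hk]
    unfold cfg
    congr 1
    rw [add_smul, natCast_zsmul]
    abel
  · obtain ⟨k, hk⟩ := h2 i j
    refine ⟨k, ?_⟩
    rw [← hk]
    unfold cfg
    congr 1
    rw [sub_smul, natCast_zsmul, smul_neg]
    abel
  · obtain ⟨k, hk⟩ := h3 i j
    refine ⟨k, ?_⟩
    rw [← hk]
    unfold cfg
    congr 1
    rw [add_smul, natCast_zsmul]
    abel
  · obtain ⟨k, hk⟩ := h4 i j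
    refine ⟨k, ?_⟩
    rw [← hk]
    unfold cfg
    congr 1
    rw [sub_smul, natCast_zsmul, smul_neg]
    abel

theorem meas_cfg {A : Type*} {f : TT → A} (hf : ∀ c, NullMeasurableSet {x | f x = c}) (u v : TT)
    (i j : ℤ) (c : A) :
    @Measurable (NullMeasurableSpace TT volume) Prop _ _ (fun x => cfg f u v x i j = c) := by
  apply measurableSet_setOfPred.1
  have := (hf c).preimage (mp_add (i • u + j • v)).quasiMeasurePreserving
  have e : (fun x : TT => x + (i • u + j • v)) ⁻¹' {x | f x = c} = {x | cfg f u v x i j = c} := by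
    ext x
    simp [cfg, add_assoc]
  rw [e] at this
  exact this

theorem null_maxIsl (hHm : ∀ c, NullMeasurableSet {x | H x = c})
    (hVm : ∀ c, NullMeasurableSet {x | V x = c}) (L a c w h : ℤ) :
    NullMeasurableSet {x : TT | MaxIsl L (cfg H u v x) (cfg V u v x) a c w h} :=
  measurableSet_setOfPred.2 (@meas_MaxIsl (NullMeasurableSpace TT volume) _ (cfg H u v) (cfg V u v)
    (meas_cfg hHm u v) (meas_cfg hVm u v) L a c w h)

theorem null_encl (hHm : ∀ c, NullMeasurableSet {x | H x = c})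
    (hVm : ∀ c, NullMeasurableSet {x | V x = c}) :
    NullMeasurableSet {x : TT | Encl (cfg H u v x) (cfg V u v x) 0 0} :=
  measurableSet_setOfPred.2 (@meas_Encl (NullMeasurableSpace TT volume) _ (cfg H u v) (cfg V u v)
    (meas_cfg hHm u v) (meas_cfg hVm u v) 0 0)

theorem vol_maxIsl (hHm : ∀ c, NullMeasurableSet {x | H x = c})
    (hVm : ∀ c, NullMeasurableSet {x | V x = c}) (L a c w h : ℤ) :
    volume {x : TT | MaxIsl L (cfg H u v x) (cfg V u v x) a c w h} =
      volume {x : TT | MaxIsl L (cfg H u v x) (cfg V u v x) 0 0 w h} := by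
  rw [← (mp_add (a • u + c • v)).measure_preimage (null_maxIsl hHm hVm L 0 0 w h)]
  congr 1
  ext x
  have := maxIsl_shift (H := cfg H u v x) (H' := cfg H u v (x + a • u + c • v))
    (V := cfg V u v x) (V' := cfg V u v (x + a • u + c • v)) (p := a) (q := c)
    (fun i j => cfg_shift _ _ _ _ _ _ _ _) (fun i j => cfg_shift _ _ _ _ _ _ _ _) L 0 0 w h
  simp only [add_zero] at this
  rw [add_assoc] at this
  exact this.symm

/-- Cells of maximal islands, indexed by the size of the island and the relative position. -/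
def pieceA (H : TT → HL) (V : TT → VL) (u v : TT) (L : ℤ) (n : ℤ × ℤ × ℤ × ℤ) : Set TT :=
  {x | 0 ≤ n.2.2.1 ∧ n.2.2.1 < n.1 ∧ 0 ≤ n.2.2.2 ∧ n.2.2.2 < n.2.1 ∧
    MaxIsl L (cfg H u v x) (cfg V u v x) (-n.2.2.1) (-n.2.2.2) n.1 n.2.1}

/-- Companions of the cells. -/
def pieceB (H : TT → HL) (V : TT → VL) (u v : TT) (L : ℤ) (n : ℤ × ℤ × ℤ × ℤ) : Set TT :=
  {x | 0 ≤ n.2.2.1 ∧ n.2.2.1 < n.1 ∧ 0 ≤ n.2.2.2 ∧ n.2.2.2 < n.2.1 ∧
    ((n.2.2.1 + n.2.2.2 < n.1 ∧
      MaxIsl L (cfg H u v x) (cfg V u v x) (-n.2.2.1) (-n.2.1 - n.2.2.2) n.1 n.2.1) ∨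
     (n.1 ≤ n.2.2.1 + n.2.2.2 ∧
      MaxIsl L (cfg H u v x) (cfg V u v x) (-n.1 - (n.1 - 1 - n.2.2.1)) (-(n.2.1 - 1 - n.2.2.2))
        n.1 n.2.1))}

theorem null_pieceA (hHm : ∀ c, NullMeasurableSet {x | H x = c})
    (hVm : ∀ c, NullMeasurableSet {x | V x = c}) (L : ℤ) (n : ℤ × ℤ × ℤ × ℤ) :
    NullMeasurableSet (pieceA H V u v L n) := by
  by_cases h : 0 ≤ n.2.2.1 ∧ n.2.2.1 < n.1 ∧ 0 ≤ n.2.2.2 ∧ n.2.2.2 < n.2.1
  · convert null_maxIsl (u := u) (v := v) hHm hVm L (-n.2.2.1) (-n.2.2.2) n.1 n.2.1 using 1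
    ext x
    simp only [pieceA, Set.mem_ofPred_eq]
    tauto
  · convert nullMeasurableSet_empty using 1
    ext x
    simp only [pieceA, Set.mem_ofPred_eq, Set.mem_empty_iff_false]
    tauto

theorem pieceB_eq (L : ℤ) (n : ℤ × ℤ × ℤ × ℤ) : ∃ a c : ℤ,
    (pieceA H V u v L n = ∅ ∧ pieceB H V u v L n = ∅) ∨
    (pieceA H V u v L n =
      {x : TT | MaxIsl L (cfg H u v x) (cfg V u v x) (-n.2.2.1) (-n.2.2.2) n.1 n.2.1} ∧
      pieceB H V u v L n = {x : TT | MaxIsl L (cfg H u v x) (cfg V u v x) a c n.1 n.2.1}) := by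
  by_cases h : 0 ≤ n.2.2.1 ∧ n.2.2.1 < n.1 ∧ 0 ≤ n.2.2.2 ∧ n.2.2.2 < n.2.1
  · by_cases h2 : n.2.2.1 + n.2.2.2 < n.1
    · refine ⟨-n.2.2.1, -n.2.1 - n.2.2.2, Or.inr ⟨?_, ?_⟩⟩
      · ext x
        simp only [pieceA, Set.mem_ofPred_eq]
        tauto
      · ext x
        have h3 : ¬ (n.1 ≤ n.2.2.1 + n.2.2.2) := by omega
        simp only [pieceB, Set.mem_ofPred_eq]
        tauto
    · refine ⟨-n.1 - (n.1 - 1 - n.2.2.1), -(n.2.1 - 1 - n.2.2.2), Or.inr ⟨?_, ?_⟩⟩
      · ext x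
        simp only [pieceA, Set.mem_ofPred_eq]
        tauto
      · ext x
        have h3 : n.1 ≤ n.2.2.1 + n.2.2.2 := by omega
        simp only [pieceB, Set.mem_ofPred_eq]
        tauto
  · refine ⟨0, 0, Or.inl ⟨?_, ?_⟩⟩
    · ext x
      simp only [pieceA, Set.mem_ofPred_eq, Set.mem_empty_iff_false]
      tauto
    · ext x
      simp only [pieceB, Set.mem_ofPred_eq, Set.mem_empty_iff_false]
      tauto

theorem null_pieceB (hHm : ∀ c, NullMeasurableSet {x | H x = c})
    (hVm : ∀ c, NullMeasurableSet {x | V x = c}) (L : ℤ) (n : ℤ × ℤ × ℤ × ℤ) :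
    NullMeasurableSet (pieceB H V u v L n) := by
  obtain ⟨a, c, ⟨-, h⟩ | ⟨-, h⟩⟩ := pieceB_eq (H := H) (V := V) (u := u) (v := v) L n
  · rw [h]; exact nullMeasurableSet_empty
  · rw [h]; exact null_maxIsl hHm hVm L a c _ _

theorem vol_piece (hHm : ∀ c, NullMeasurableSet {x | H x = c})
    (hVm : ∀ c, NullMeasurableSet {x | V x = c}) (L : ℤ) (n : ℤ × ℤ × ℤ × ℤ) :
    volume (pieceA H V u v L n) = volume (pieceB H V u v L n) := by
  obtain ⟨a, c, ⟨h', h⟩ | ⟨h', h⟩⟩ := pieceB_eq (H := H) (V := V) (u := u) (v := v) L n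
  · rw [h, h']
  · rw [h, h', vol_maxIsl hHm hVm, vol_maxIsl hHm hVm L a c]

theorem disjAA (hW : ∀ x, Walls (cfg H u v x) (cfg V u v x)) (L : ℤ) (n m : ℤ × ℤ × ℤ × ℤ)
    (hnm : n ≠ m) : Disjoint (pieceA H V u v L n) (pieceA H V u v L m) := by
  rw [Set.disjoint_left]
  rintro x ⟨a1, a2, a3, a4, a5⟩ ⟨b1, b2, b3, b4, b5⟩
  have := cell_cell (hW x) a5 b5 (x := 0) (y := 0) (by omega) (by omega) (by omega) (by omega)
    (by omega) (by omega) (by omega) (by omega)
  apply hnm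
  obtain ⟨w, h, i, j⟩ := n
  obtain ⟨w', h', i', j'⟩ := m
  simp only [Prod.mk.injEq] at *
  omega

theorem disjAB (hW : ∀ x, Walls (cfg H u v x) (cfg V u v x)) {M : TT → ML}
    (hM : ∀ x, Marks (cfg H u v x) (cfg V u v x) (cfg M u v x)) (L : ℤ) (n m : ℤ × ℤ × ℤ × ℤ) :
    Disjoint (pieceA H V u v L n) (pieceB H V u v L m) := by
  rw [Set.disjoint_left]
  rintro x ⟨a1, a2, a3, a4, a5⟩ ⟨b1, b2, b3, b4, ⟨b5, b6⟩ | ⟨b5, b6⟩⟩
  · exact cell_t (hW x) (hM x) b6 a5 (x := 0) (y := 0) (by omega) (by omega) (by omega) (by omega)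
      (by omega) (by omega) (by omega)
  · exact cell_r (hW x) (hM x) b6 a5 (x := 0) (y := 0) (by omega) (by omega) (by omega) (by omega)
      (by omega) (by omega) (by omega)

theorem disjBB (hW : ∀ x, Walls (cfg H u v x) (cfg V u v x)) {M : TT → ML}
    (hM : ∀ x, Marks (cfg H u v x) (cfg V u v x) (cfg M u v x)) (L : ℤ) (n m : ℤ × ℤ × ℤ × ℤ)
    (hnm : n ≠ m) : Disjoint (pieceB H V u v L n) (pieceB H V u v L m) := by
  rw [Set.disjoint_left]
  rintro x ⟨a1, a2, a3, a4, ⟨a5, a6⟩ | ⟨a5, a6⟩⟩ ⟨b1, b2, b3, b4, ⟨b5, b6⟩ | ⟨b5, b6⟩⟩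
  · have := t_t (hW x) (hM x) a6.1 b6.1 (x := 0) (y := 0) (by omega) (by omega) (by omega)
      (by omega) (by omega) (by omega)
    apply hnm
    obtain ⟨w, h, i, j⟩ := n
    obtain ⟨w', h', i', j'⟩ := m
    simp only [Prod.mk.injEq] at *
    omega
  · exact t_r (hM x) a6.1 b6.1 (x := 0) (y := 0) (by omega) (by omega) (by omega)
      (by omega) (by omega) (by omega)
  · exact t_r (hM x) b6.1 a6.1 (x := 0) (y := 0) (by omega) (by omega) (by omega)
      (by omega) (by omega) (by omega)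
  · have := r_r (hW x) (hM x) a6.1 b6.1 (x := 0) (y := 0) (by omega) (by omega) (by omega)
      (by omega) (by omega) (by omega)
    apply hnm
    obtain ⟨w, h, i, j⟩ := n
    obtain ⟨w', h', i', j'⟩ := m
    simp only [Prod.mk.injEq] at *
    omega

theorem enclL_le (hHm : ∀ c, NullMeasurableSet {x | H x = c})
    (hVm : ∀ c, NullMeasurableSet {x | V x = c})
    (hW : ∀ x, Walls (cfg H u v x) (cfg V u v x)) {M : TT → ML}
    (hM : ∀ x, Marks (cfg H u v x) (cfg V u v x) (cfg M u v x)) (L : ℤ) :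
    2 * volume {x : TT | ∃ a c w h, Isl (cfg H u v x) (cfg V u v x) a c w h ∧ w ≤ L ∧ h ≤ L ∧
      a ≤ 0 ∧ 0 < a + w ∧ c ≤ 0 ∧ 0 < c + h} ≤ 1 := by
  have hsub : {x : TT | ∃ a c w h, Isl (cfg H u v x) (cfg V u v x) a c w h ∧ w ≤ L ∧ h ≤ L ∧
      a ≤ 0 ∧ 0 < a + w ∧ c ≤ 0 ∧ 0 < c + h} ⊆ ⋃ n, pieceA H V u v L n := by
    rintro x ⟨a, c, w, h, I, g1, g2, g3, g4, g5, g6⟩
    obtain ⟨a, c, w, h, J, k1, k2, k3, k4⟩ := exists_maxIsl I g1 g2 g3 g4 g5 g6
    refine Set.mem_iUnion.2 ⟨(w, h, -a, -c), ?_⟩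
    refine ⟨by simp; omega, by simp; omega, by simp; omega, by simp; omega, ?_⟩
    simpa using J
  have hA : volume (⋃ n, pieceA H V u v L n) = ∑' n, volume (pieceA H V u v L n) :=
    measure_iUnion₀ (fun n m hnm => (disjAA hW L n m hnm).aedisjoint)
      (fun n => null_pieceA hHm hVm L n)
  have hB : volume (⋃ n, pieceB H V u v L n) = ∑' n, volume (pieceB H V u v L n) :=
    measure_iUnion₀ (fun n m hnm => (disjBB hW hM L n m hnm).aedisjoint)
      (fun n => null_pieceB hHm hVm L n)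
  have hAB : volume (⋃ n, pieceA H V u v L n) = volume (⋃ n, pieceB H V u v L n) := by
    rw [hA, hB]
    exact tsum_congr fun n => vol_piece hHm hVm L n
  have hd : Disjoint (⋃ n, pieceA H V u v L n) (⋃ n, pieceB H V u v L n) := by
    rw [Set.disjoint_iUnion_left]
    intro n
    rw [Set.disjoint_iUnion_right]
    intro m
    exact disjAB hW hM L n m
  have hu := measure_union₀ (μ := volume) (NullMeasurableSet.iUnion fun n => null_pieceB hHm hVm L n)
    hd.aedisjoint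
  calc 2 * volume _ ≤ 2 * volume (⋃ n, pieceA H V u v L n) := by gcongr
    _ = volume (⋃ n, pieceA H V u v L n) + volume (⋃ n, pieceB H V u v L n) := by
        rw [← hAB, two_mul]
    _ = volume ((⋃ n, pieceA H V u v L n) ∪ (⋃ n, pieceB H V u v L n)) := hu.symm
    _ ≤ volume (Set.univ : Set TT) := measure_mono (Set.subset_univ _)
    _ = 1 := by simp

theorem encl_le (hHm : ∀ c, NullMeasurableSet {x | H x = c})
    (hVm : ∀ c, NullMeasurableSet {x | V x = c})
    (hW : ∀ x, Walls (cfg H u v x) (cfg V u v x)) {M : TT → ML}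
    (hM : ∀ x, Marks (cfg H u v x) (cfg V u v x) (cfg M u v x)) :
    2 * volume {x : TT | Encl (cfg H u v x) (cfg V u v x) 0 0} ≤ 1 := by
  have e : {x : TT | Encl (cfg H u v x) (cfg V u v x) 0 0} =
      ⋃ L : ℕ, {x : TT | ∃ a c w h, Isl (cfg H u v x) (cfg V u v x) a c w h ∧ w ≤ L ∧ h ≤ L ∧
      a ≤ 0 ∧ 0 < a + w ∧ c ≤ 0 ∧ 0 < c + h} := by
    ext x
    simp only [Set.mem_iUnion]
    constructor
    · rintro ⟨a, c, w, h, I, g1, g2, g3, g4⟩
      exact ⟨(max w h).toNat, a, c, w, h, I, by have := I.1; omega, by have := I.2.1; omega,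
        g1, g2, g3, g4⟩
    · rintro ⟨L, a, c, w, h, I, -, -, g1, g2, g3, g4⟩
      exact ⟨a, c, w, h, I, g1, g2, g3, g4⟩
  have hmono : Monotone fun L : ℕ => {x : TT | ∃ a c w h,
      Isl (cfg H u v x) (cfg V u v x) a c w h ∧ w ≤ (L : ℤ) ∧ h ≤ (L : ℤ) ∧
      a ≤ 0 ∧ 0 < a + w ∧ c ≤ 0 ∧ 0 < c + h} := by
    intro L L' hL x
    rintro ⟨a, c, w, h, I, g1, g2, g⟩
    exact ⟨a, c, w, h, I, by omega, by omega, g⟩
  rw [e, hmono.measure_iUnion, ENNReal.mul_iSup]
  exact iSup_le fun L => enclL_le hHm hVm hW hM L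

/-- There is no null measurable labelling of the circle obeying all the rules. -/
theorem no_null_labelling (hu : addOrderOf u = 0) (hv : addOrderOf v = 0)
    (hHm : ∀ c, NullMeasurableSet {x | H x = c})
    (hVm : ∀ c, NullMeasurableSet {x | V x = c})
    (hCm : ∀ c, NullMeasurableSet {x | C x = c})
    (hW : ∀ x, Walls (cfg H u v x) (cfg V u v x))
    (hC : ∀ x, Cols (cfg H u v x) (cfg V u v x) (cfg C u v x)) {M : TT → ML}
    (hM : ∀ x, Marks (cfg H u v x) (cfg V u v x) (cfg M u v x)) : False := by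
  haveI : IsProbabilityMeasure (volume : Measure TT) := ⟨by simp⟩
  have h1 := encl_le hHm hVm hW hM
  have hN : volume {x : TT | Encl (cfg H u v x) (cfg V u v x) 0 0}ᶜ ≠ 0 := by
    intro h0
    have h2 : volume {x : TT | Encl (cfg H u v x) (cfg V u v x) 0 0} = 1 := by
      rw [← prob_compl_eq_zero_iff₀ (null_encl hHm hVm)]
      exact h0
    rw [h2] at h1
    norm_num at h1
  obtain ⟨c, hc⟩ := pos_color hN C
  have hDm : NullMeasurableSet ({x : TT | Encl (cfg H u v x) (cfg V u v x) 0 0}ᶜ ∩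
      {x | C x = c}) := (null_encl hHm hVm).compl.inter (hCm c)
  obtain ⟨x, hx, h2, k, hk⟩ := exists_of_pos hc ((ae_fin4 hu hv hHm hVm hCm hW hC).and
    (hit_odd hu hDm hc))
  have hk1 : ¬ Encl (cfg H u v x) (cfg V u v x) (0 + ((2 * k + 1 : ℕ) : ℤ)) 0 := by
    have h3 := hk.1
    intro h4
    apply h3
    have h5 := encl_shift (H := cfg H u v x)
      (H' := cfg H u v (x + ((2 * k + 1 : ℕ) : ℤ) • u + (0 : ℤ) • v))
      (V := cfg V u v x) (V' := cfg V u v (x + ((2 * k + 1 : ℕ) : ℤ) • u + (0 : ℤ) • v))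
      (p := ((2 * k + 1 : ℕ) : ℤ)) (q := 0)
      (fun i j => cfg_shift _ _ _ _ _ _ _ _) (fun i j => cfg_shift _ _ _ _ _ _ _ _) 0 0
    rw [natCast_zsmul, zero_smul, add_zero] at h5
    refine h5.2 ?_
    simpa using h4
  have h6 := row_coh (hW x) h2 (hC x) (2 * k + 1) 0 hx.1 hk1
  have h7 : C (x + (2 * k + 1) • u) = c := hk.2
  have h8 : C x = c := hx.2
  rw [cfg_zero, h8, zero_add] at h6
  have h9 : cfg C u v x ((2 * k + 1 : ℕ) : ℤ) 0 = c := by
    unfold cfg
    rw [natCast_zsmul, zero_smul, add_zero]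
    exact h7
  rw [h9] at h6
  simp at h6

end Main

end Pool.Agent.W927
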