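import Pool.Agent.W927.Circle

/-!
Labellings of the plane coming from Borel maps on the circle: Baire category argument.
-/

namespace Pool.Agent.W927

open Filter Topology

/-- `p` holds on a comeagre set. -/
abbrev Gen (p : TT → Prop) : Prop := ∀ᶠ x in residual TT, p x

theorem gen_add {p : TT → Prop} (h : Gen p) (β : TT) : Gen fun x => p (x + β) :=
  (tendsto_residual_of_isOpenMap (Homeomorph.addRight β).continuous
    (Homeomorph.addRight β).isOpenMap).eventually h

theorem gen_orbit {p : TT → Prop} (h : Gen p) (u v : TT) :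
    Gen fun x => ∀ i j : ℤ, p (x + i • u + j • v) := by
  simp only [Gen, eventually_countable_forall]
  intro i j
  have := gen_add h (i • u + j • v)
  simpa [add_assoc] using this

theorem gen_exists {O : Set TT} (hO : IsOpen O) (hne : O.Nonempty) {p : TT → Prop} (h : Gen p) :
    ∃ x ∈ O, p x := by
  obtain ⟨x, hx, hp⟩ := (dense_of_mem_residual h).inter_open_nonempty O hO hne
  exact ⟨x, hx, hp⟩

theorem localize {D : Set TT} (hD : MeasurableSet D) (hn : ¬ IsMeagre D) :
    ∃ O : Set TT, IsOpen O ∧ O.Nonempty ∧ Gen fun x => x ∈ O → x ∈ D := by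
  obtain ⟨U, hU, hDU⟩ := hD.residualEq_isOpen
  refine ⟨U, hU, ?_, ?_⟩
  · by_contra hne
    rw [Set.not_nonempty_iff_eq_empty] at hne
    subst hne
    apply hn
    have h1 := eventuallyEq_empty.1 hDU
    exact h1
  · filter_upwards [eventuallyEq_set.1 hDU] with x hx
    exact hx.2

theorem syndetic {O : Set TT} (hO : IsOpen O) (hne : O.Nonempty) {β : TT}
    (hβ : addOrderOf β = 0) : ∃ K : ℕ, ∀ x : TT, ∃ k : ℕ, k ≤ K ∧ x + k • β ∈ O := by
  have hd := AddCircle.denseRange_zsmul_iff.2 hβ
  have hcov : (Set.univ : Set TT) ⊆ ⋃ k : ℤ, (fun x : TT => x + k • β) ⁻¹' O := by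
    intro x _
    have h1 : IsOpen ((fun y : TT => x + y) ⁻¹' O) := hO.preimage (continuous_const.add continuous_id)
    have h2 : ((fun y : TT => x + y) ⁻¹' O).Nonempty := by
      obtain ⟨o, ho⟩ := hne
      exact ⟨-x + o, by simpa using ho⟩
    obtain ⟨y, hy, k, rfl⟩ := hd.inter_open_nonempty _ h1 h2
    exact Set.mem_iUnion.2 ⟨k, hy⟩
  obtain ⟨F, hF⟩ := isCompact_univ.elim_finite_subcover
    (fun k : ℤ => (fun x : TT => x + k • β) ⁻¹' O)
    (fun k => hO.preimage (continuous_id.add continuous_const)) hcov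
  obtain ⟨m, hm⟩ : ∃ m : ℕ, ∀ k ∈ F, |k| ≤ m := by
    refine ⟨∑ k ∈ F, k.natAbs, fun k hk => ?_⟩
    have := Finset.single_le_sum (f := fun k : ℤ => k.natAbs) (fun _ _ => Nat.zero_le _) hk
    rw [Int.abs_eq_natAbs]
    exact_mod_cast this
  refine ⟨2 * m, fun x => ?_⟩
  have h1 := hF (Set.mem_univ (x + m • β))
  obtain ⟨k, hk, hx⟩ := Set.mem_iUnion₂.1 h1
  have h2 := abs_le.1 (hm k hk)
  refine ⟨((m : ℤ) + k).toNat, by omega, ?_⟩
  have h3 : (((m : ℤ) + k).toNat) • β = ((m : ℤ) + k) • β := by
    rw [← natCast_zsmul]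
    congr 1
    omega
  rw [h3, add_smul, natCast_zsmul, ← add_assoc]
  exact hx

theorem nonMeagre_color {N : Set TT} (hN : ¬ IsMeagre N) (C : TT → Bool) :
    ∃ c, ¬ IsMeagre (N ∩ {x | C x = c}) := by
  by_contra hcon
  push Not at hcon
  apply hN
  have h1 : N ⊆ (N ∩ {x | C x = true}) ∪ (N ∩ {x | C x = false}) := by
    intro x hx
    cases e : C x
    · right; exact ⟨hx, e⟩
    · left; exact ⟨hx, e⟩
  refine IsMeagre.mono h1 ?_
  unfold IsMeagre
  rw [Set.compl_union]
  exact inter_mem (hcon true) (hcon false)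

theorem odd_return {O : Set TT} (hO : IsOpen O) (hne : O.Nonempty) {β : TT}
    (hβ : addOrderOf β = 0) (x : TT) : ∃ k : ℕ, x + (2 * k + 1) • β ∈ O := by
  obtain ⟨K, hK⟩ := syndetic hO hne (addOrderOf_two hβ)
  obtain ⟨k, -, hk⟩ := hK (x + β)
  refine ⟨k, ?_⟩
  rw [add_smul, one_smul, mul_comm, mul_smul, ← add_assoc, add_right_comm]
  exact hk

theorem not_meagre_univ : ¬ IsMeagre (Set.univ : Set TT) :=
  not_isMeagre_of_isOpen isOpen_univ Set.univ_nonempty

theorem no_altB {β : TT} (hβ : addOrderOf β = 0) {C : TT → Bool}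
    (hC : ∀ c, MeasurableSet {x | C x = c}) : ¬ Gen fun x : TT => C (x + β) = !C x := by
  intro h
  obtain ⟨c, hc⟩ := nonMeagre_color not_meagre_univ C
  rw [Set.univ_inter] at hc
  obtain ⟨O, hO, hne, hg⟩ := localize (hC c) hc
  obtain ⟨x, hx, h1, h2⟩ := gen_exists hO hne ((gen_orbit h β 0).and (gen_orbit hg β 0))
  obtain ⟨k, hk⟩ := odd_return hO hne hβ x
  have h3 : ∀ n : ℕ, C (x + n • β) = xor (C x) n.bodd := by
    intro n
    induction n with
    | zero => simp
    | succ n ih =>
      have := h1 n 0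
      simp only [smul_zero, add_zero, natCast_zsmul] at this
      rw [succ_nsmul, ← add_assoc, this, ih, Nat.bodd_succ]
      cases C x <;> cases n.bodd <;> rfl
  have h4 := h3 (2 * k + 1)
  have h5 : C x = c := by
    have := h2 0 0
    simp only [zero_smul, add_zero] at this
    exact this hx
  have h6 : C (x + (2 * k + 1) • β) = c := by
    have := h2 ((2 * k + 1 : ℕ) : ℤ) 0
    simp only [smul_zero, add_zero, natCast_zsmul] at this
    exact this hk
  rw [h6, h5] at h4
  simp at h4

theorem okV_cor (a a' : HL) (c d : VL) (h : okV a a' c d)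
    (hc : (a' ≠ .n ∨ a ≠ .n) ∧ (d ≠ .n ∨ c ≠ .n)) : (a' = .n ∨ a = .n) ∧ (d = .n ∨ c = .n) := by
  cases a <;> cases a' <;> cases c <;> cases d <;> simp_all [okV]

theorem okV_nocor (a a' : HL) (c d : VL) (h : okV a a' c d)
    (hc : ¬ ((a' ≠ .n ∨ a ≠ .n) ∧ (d ≠ .n ∨ c ≠ .n))) : d ≠ .n ↔ c ≠ .n := by
  cases a <;> cases a' <;> cases c <;> cases d <;> simp_all [okV]

section Main

variable {u v : TT} {H : TT → HL} {V : TT → VL} {C : TT → Bool}

theorem meas_cfgB {A : Type*} {f : TT → A} (hf : ∀ c, MeasurableSet {x | f x = c}) (u v : TT)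
    (i j : ℤ) (c : A) : Measurable (fun x => cfg f u v x i j = c) := by
  apply measurableSet_setOfPred.1
  have h1 : Measurable fun x : TT => x + i • u + j • v := by fun_prop
  exact h1 (hf c)

theorem no_borel_labelling (hu : addOrderOf u = 0) (hv : addOrderOf v = 0)
    (hHm : ∀ c, MeasurableSet {x | H x = c})
    (hVm : ∀ c, MeasurableSet {x | V x = c})
    (hCm : ∀ c, MeasurableSet {x | C x = c})
    (hW : ∀ x, Walls (cfg H u v x) (cfg V u v x))
    (hC : ∀ x, Cols (cfg H u v x) (cfg V u v x) (cfg C u v x)) : False := by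
  set Cor : Set TT := {x | (H x ≠ .n ∨ H (x - u) ≠ .n) ∧ (V x ≠ .n ∨ V (x - v) ≠ .n)} with hCor
  have hCorm : MeasurableSet Cor := by
    have m1 : Measurable fun x : TT => x - u := by fun_prop
    have m2 : Measurable fun x : TT => x - v := by fun_prop
    exact ((hHm .n).compl.union (m1 (hHm .n)).compl).inter
      ((hVm .n).compl.union (m2 (hVm .n)).compl)
  have vert : ∀ x : TT, okV (H (x - u)) (H x) (V (x - v)) (V x) := by
    intro x
    have := hW x 0 0
    simpa [cfg, sub_eq_add_neg] using this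
  have colH : ∀ x : TT, V x = .n → C x = !C (x - u) := by
    intro x hx
    have := (hC x).hor 0 0 (by simpa [cfg] using hx)
    simpa [cfg, sub_eq_add_neg] using this
  have colV : ∀ x : TT, H x = .n → C x = !C (x - v) := by
    intro x hx
    have := (hC x).ver 0 0 (by simpa [cfg] using hx)
    simpa [cfg, sub_eq_add_neg] using this
  by_cases hm : IsMeagre Cor
  · -- no corners at all
    have g1 : Gen fun x => x ∉ Cor := hm
    have inv : Gen fun x => (V x ≠ .n ↔ V (x - v) ≠ .n) := by
      filter_upwards [g1] with x hx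
      exact okV_nocor _ _ _ _ (vert x) hx
    have g0 := gen_orbit inv v 0
    by_cases hV : IsMeagre {x | V x ≠ .n}
    · apply no_altB hu hCm
      have g2 : Gen fun x => ¬ (V x ≠ .n) := hV
      filter_upwards [gen_add g2 u] with x hx
      rw [not_not] at hx
      have := colH _ hx
      simpa using this
    · obtain ⟨O, hO, hne, hg⟩ := localize (D := {x | V x ≠ .n}) (hVm .n).compl hV
      obtain ⟨K, hK⟩ := syndetic hO hne hv
      have g2 : Gen fun x => V x ≠ .n := by
        filter_upwards [g0, gen_orbit hg v 0] with x hx1 hx2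
        obtain ⟨k, -, hk⟩ := hK x
        have h3 : V (x + (k : ℕ) • v) ≠ .n := by
          have := hx2 k 0
          simp only [smul_zero, add_zero, natCast_zsmul] at this
          exact this hk
        clear hk
        induction k with
        | zero => simpa using h3
        | succ k ih =>
          apply ih
          have := hx1 ((k + 1 : ℕ) : ℤ) 0
          simp only [smul_zero, add_zero, natCast_zsmul] at this
          rw [this] at h3
          rwa [succ_nsmul, ← add_assoc, add_sub_cancel_right] at h3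
      apply no_altB hv hCm
      filter_upwards [g2, gen_add g2 v] with x h2 h3
      have h4 := vert (x + v)
      rw [add_sub_cancel_right] at h4
      have h5 := (okV_facts _ _ _ _ h4).2.2.2.2.2.2.2.2.2.2.2.2.2.2.2.2.2.1 h2 h3
      have := colV _ h5.2
      simpa using this
  · -- corners are syndetic
    obtain ⟨O, hO, hne, hg⟩ := localize hCorm hm
    obtain ⟨K1, hK1⟩ := syndetic hO hne hu
    obtain ⟨K2, hK2⟩ := syndetic hO hne hv
    have g1 := gen_orbit hg u v
    have hcor : ∀ x, x ∈ Cor → (H x = .n ∨ H (x - u) = .n) ∧ (V x = .n ∨ V (x - v) = .n) := by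
      intro x hx
      exact okV_cor _ _ _ _ (vert x) hx
    have bdH : Gen fun x => ∀ i j : ℤ, ∃ k : ℕ, k ≤ K1 + 1 ∧ cfg H u v x (i + k) j = .n := by
      filter_upwards [g1] with x hx i j
      obtain ⟨k, hk, hxk⟩ := hK1 (x + (i + 1) • u + j • v)
      have e : x + (i + 1) • u + j • v + k • u = x + (i + 1 + k) • u + j • v := by
        rw [add_smul (i + 1) (k : ℤ), natCast_zsmul]; abel
      have h1 := hx (i + 1 + k) j (by rw [← e]; exact hxk)
      rcases (hcor _ h1).1 with h2 | h2
      · refine ⟨k + 1, by omega, ?_⟩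
        rw [← h2]
        unfold cfg
        congr 4
        push_cast; ring
      · refine ⟨k, by omega, ?_⟩
        rw [← h2]
        unfold cfg
        congr 1
        rw [show (i + 1 + (k : ℤ)) = (i + k) + 1 by ring, add_smul _ (1 : ℤ), one_smul]
        abel
    have bdV : Gen fun x => ∀ i j : ℤ, ∃ k : ℕ, k ≤ K2 + 1 ∧ cfg V u v x i (j + k) = .n := by
      filter_upwards [g1] with x hx i j
      obtain ⟨k, hk, hxk⟩ := hK2 (x + i • u + (j + 1) • v)
      have e : x + i • u + (j + 1) • v + k • v = x + i • u + (j + 1 + k) • v := by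
        rw [add_smul (j + 1) (k : ℤ), natCast_zsmul]; abel
      have h1 := hx i (j + 1 + k) (by rw [← e]; exact hxk)
      rcases (hcor _ h1).2 with h2 | h2
      · refine ⟨k + 1, by omega, ?_⟩
        rw [← h2]
        unfold cfg
        congr 3
        push_cast; ring
      · refine ⟨k, by omega, ?_⟩
        rw [← h2]
        unfold cfg
        congr 1
        rw [show (j + 1 + (k : ℤ)) = (j + k) + 1 by ring, add_smul _ (1 : ℤ), one_smul]
        abel
    have fin4 : Gen fun x => Fin4 (cfg H u v x) (cfg V u v x) := by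
      filter_upwards [bdH, bdV] with x h1 h2
      refine ⟨fun i j => ?_, fun i j => ?_, fun i j => ?_, fun i j => ?_⟩
      · obtain ⟨k, -, hk⟩ := h1 i j
        exact ⟨k, hk⟩
      · obtain ⟨k, hk1, hk⟩ := h1 (i - (K1 + 1)) j
        refine ⟨K1 + 1 - k, ?_⟩
        rw [← hk]
        congr 1
        omega
      · obtain ⟨k, -, hk⟩ := h2 i j
        exact ⟨k, hk⟩
      · obtain ⟨k, hk1, hk⟩ := h2 i (j - (K2 + 1))
        refine ⟨K2 + 1 - k, ?_⟩
        rw [← hk]
        congr 1
        omega
    have free : Gen fun x => ∃ i j : ℤ, ¬ Encl (cfg H u v x) (cfg V u v x) i j := by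
      filter_upwards [bdH] with x h1
      by_contra hcon
      push Not at hcon
      have key : ∀ n : ℕ, ∃ a c w h, Isl (cfg H u v x) (cfg V u v x) a c w h ∧ (n : ℤ) < w ∧
          a ≤ 0 ∧ 0 < a + w ∧ c ≤ 0 ∧ 0 < c + h := by
        intro n
        induction n with
        | zero =>
          obtain ⟨a, c, w, h, I, g⟩ := hcon 0 0
          exact ⟨a, c, w, h, I, by have := I.1; push_cast; omega, g⟩
        | succ n ih =>
          obtain ⟨a, c, w, h, I, g1, g2, g3, g4, g5⟩ := ih
          obtain ⟨a', c', w', h', I', g1', g2', g3', g4'⟩ := hcon (a - 1) c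
          have hh := I.2.1
          rcases Isl.laminar (hW x) I I' (by omega) (by omega) (by omega) (by omega) with k | k | k
          · omega
          · omega
          · exact ⟨a', c', w', h', I', by push_cast; omega, by omega, by omega, by omega,
              by omega⟩
      obtain ⟨a, c, w, h, I, g, -⟩ := key (K1 + 1)
      obtain ⟨k, hk1, hk2⟩ := h1 a c
      rw [(I.2.2.1 _ (by omega) (by push_cast at g; omega)).1] at hk2
      cases hk2
    have hNm : MeasurableSet {x : TT | Encl (cfg H u v x) (cfg V u v x) 0 0} :=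
      measurableSet_setOfPred.2 (meas_Encl (meas_cfgB hHm u v) (meas_cfgB hVm u v) 0 0)
    have enc : ∀ (x : TT) (i j : ℤ), Encl (cfg H u v (x + i • u + j • v))
        (cfg V u v (x + i • u + j • v)) 0 0 ↔ Encl (cfg H u v x) (cfg V u v x) i j := by
      intro x i j
      have := encl_shift (H := cfg H u v x) (H' := cfg H u v (x + i • u + j • v))
        (V := cfg V u v x) (V' := cfg V u v (x + i • u + j • v)) (p := i) (q := j)
        (fun i' j' => cfg_shift _ _ _ _ _ _ _ _) (fun i' j' => cfg_shift _ _ _ _ _ _ _ _) 0 0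
      simpa using this
    have hN : ¬ IsMeagre {x : TT | Encl (cfg H u v x) (cfg V u v x) 0 0}ᶜ := by
      intro hmg
      have g2 : Gen fun x => Encl (cfg H u v x) (cfg V u v x) 0 0 := by
        have : {x : TT | Encl (cfg H u v x) (cfg V u v x) 0 0}ᶜᶜ ∈ residual TT := hmg
        rwa [compl_compl] at this
      obtain ⟨x, -, hx1, i, j, hx2⟩ := gen_exists isOpen_univ Set.univ_nonempty
        ((gen_orbit g2 u v).and free)
      exact hx2 ((enc x i j).1 (hx1 i j))
    obtain ⟨c, hc⟩ := nonMeagre_color hN C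
    obtain ⟨O', hO', hne', hg'⟩ := localize (hNm.compl.inter (hCm c)) hc
    obtain ⟨x, hx, hx1, hx2⟩ := gen_exists hO' hne' (fin4.and (gen_orbit hg' u v))
    obtain ⟨k, hk⟩ := odd_return hO' hne' hu x
    have d0 := hx2 0 0 (by simpa using hx)
    have d1 := hx2 ((2 * k + 1 : ℕ) : ℤ) 0 (by
      rw [zero_smul, add_zero, natCast_zsmul]; exact hk)
    have e0 : ¬ Encl (cfg H u v x) (cfg V u v x) 0 0 := by
      have := d0.1
      intro h
      exact this ((enc x 0 0).2 h)
    have e1 : ¬ Encl (cfg H u v x) (cfg V u v x) (0 + ((2 * k + 1 : ℕ) : ℤ)) 0 := by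
      have := d1.1
      intro h
      rw [zero_add] at h
      exact this ((enc x _ 0).2 h)
    have h6 := row_coh (hW x) hx1 (hC x) (2 * k + 1) 0 e0 e1
    have h7 : cfg C u v x ((2 * k + 1 : ℕ) : ℤ) 0 = c := d1.2
    have h8 : cfg C u v x 0 0 = c := d0.2
    rw [zero_add, h7, h8] at h6
    simp at h6

end Main

end Pool.Agent.W927
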