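import Pool.Agent.W927.Defs
import Pool.Agent.W927.CircleB

/-!
Coding of circle rotations in the free part, and the negative halves.
-/

namespace Pool.Agent.W927

open MeasureTheory

/-- Labels of the vertices: horizontal edge, vertical edge, colour, mark. -/
abbrev Lab := HL × VL × Bool × ML

section Rules
variable {d : ℕ}

/-- Local rule at the origin for walls and colours. -/
def RuleB (e0 e1 : Fin d → ℤ) (s : Conf d Lab) : Prop :=
  okV (s (-e0)).1 (s 0).1 (s (-e1)).2.1 (s 0).2.1 ∧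
  ((s 0).2.1 = .n → (s 0).2.2.1 = !(s (-e0)).2.2.1) ∧
  ((s 0).1 = .n → (s 0).2.2.1 = !(s (-e1)).2.2.1)

/-- Local rule at the origin for marks. -/
def RuleM (e0 e1 : Fin d → ℤ) (s : Conf d Lab) : Prop :=
  ((s 0).1 = .t → (s 0).2.2.2 = .t) ∧
  ((s 0).2.2.2 = .t → (s e0).2.2.2 = .t → (s e1).2.2.2 = .t ∧ (s e1).1 = .n) ∧
  ((s 0).2.1 = .r → (s 0).2.2.2 = .r) ∧
  ((s 0).2.2.2 = .r → (s e1).2.2.2 = .r → (s e0).2.2.2 = .r ∧ (s e0).2.1 = .n)

end Rules

section Coding
variable {d : ℕ}

/-- The homomorphism `ℤ^d → TT` with given values on the basis. -/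
def lin (α : Fin d → TT) : (Fin d → ℤ) →+ TT where
  toFun g := ∑ i, g i • α i
  map_zero' := by simp
  map_add' g h := by simp [add_smul, Finset.sum_add_distrib]

theorem exists_alpha (d : ℕ) : ∃ α : Fin d → TT, ∀ g : Fin d → ℤ, g ≠ 0 →
    addOrderOf (lin α g) = 0 := by
  set t : ℝ := liouvilleNumber 2 with ht
  have htr : Transcendental ℤ t := by
    have := transcendental_liouvilleNumber (m := 2) le_rfl
    simpa [ht] using this
  refine ⟨fun i => ((t ^ ((i : ℕ) + 1) : ℝ) : TT), fun g hg => ?_⟩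
  have e : lin (fun i => ((t ^ ((i : ℕ) + 1) : ℝ) : TT)) g =
      ((∑ i, (g i : ℝ) * t ^ ((i : ℕ) + 1) : ℝ) : TT) := by
    change ∑ i, g i • ((t ^ ((i : ℕ) + 1) : ℝ) : TT) = _
    rw [QuotientAddGroup.mk_sum]
    refine Finset.sum_congr rfl fun i _ => ?_
    rw [← zsmul_eq_mul]
    rfl
  rw [e]
  by_contra hfin
  have h1 : IsOfFinAddOrder ((∑ i, (g i : ℝ) * t ^ ((i : ℕ) + 1) : ℝ) : TT) := by
    rw [← addOrderOf_pos_iff]; omega
  rw [AddCircle.isOfFinAddOrder_iff_exists_rat_eq_div] at h1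
  obtain ⟨q, hq⟩ := h1
  obtain ⟨i0, hi0⟩ : ∃ i, g i ≠ 0 := by
    by_contra hcon
    push Not at hcon
    exact hg (funext hcon)
  apply htr
  refine ⟨∑ i : Fin d, Polynomial.C ((q.den : ℤ) * g i) * Polynomial.X ^ ((i : ℕ) + 1) -
    Polynomial.C q.num, ?_, ?_⟩
  · intro h0
    have h2 := congrArg (fun p => Polynomial.coeff p ((i0 : ℕ) + 1)) h0
    simp only [Polynomial.coeff_sub, Polynomial.finsetSum_coeff, Polynomial.coeff_C_mul,
      Polynomial.coeff_X_pow, Polynomial.coeff_C, Polynomial.coeff_zero] at h2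
    rw [Finset.sum_eq_single i0] at h2
    · simp at h2
      exact hi0 h2
    · intro b _ hb
      have : ¬ ((i0 : ℕ) + 1 = (b : ℕ) + 1) := by
        intro h; apply hb; ext; omega
      rw [if_neg this, mul_zero]
    · simp
  · simp only [map_sub, map_sum, map_mul, Polynomial.aeval_C, map_pow, Polynomial.aeval_X]
    have h3 : (∑ i, (g i : ℝ) * t ^ ((i : ℕ) + 1)) = q := by rw [hq]; simp
    have h4 : (q : ℝ) * q.den = q.num := by
      have := Rat.mul_den_eq_num q
      exact_mod_cast congrArg (fun r : ℚ => (r : ℝ)) this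
    calc _ = (q.den : ℝ) * (∑ i, (g i : ℝ) * t ^ ((i : ℕ) + 1)) - q.num := by
          rw [Finset.mul_sum]
          simp [mul_assoc]
      _ = 0 := by rw [h3, ← h4]; ring

/-- An open arc. -/
def arc (a b : ℝ) : Set TT := (fun r : ℝ => (r : TT)) '' Set.Ioo a b

theorem isOpen_arc (a b : ℝ) : IsOpen (arc a b) :=
  QuotientAddGroup.isOpenMap_coe _ isOpen_Ioo

theorem arc_nonempty {a b : ℝ} (h : a < b) : (arc a b).Nonempty :=
  (Set.nonempty_Ioo.2 h).image _

theorem arc_disj {θ : TT} (h1 : θ ∈ arc 0 (1 / 2)) (h2 : θ ∈ arc (1 / 2) 1) : False := by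
  obtain ⟨a, ha, rfl⟩ := h1
  obtain ⟨b, hb, hab⟩ := h2
  have h3 := (AddCircle.coe_eq_coe_iff_of_mem_Ico (p := (1 : ℝ)) (a := 0) (x := b) (y := a)
    ⟨by linarith [hb.1], by linarith [hb.2]⟩ ⟨by linarith [ha.1], by linarith [ha.2]⟩).1 hab
  linarith [ha.2, hb.1]

open Classical in
/-- The coding of the orbit of a point of the circle. -/
noncomputable def code (α : Fin d → TT) (θ : TT) : Conf d Bool :=
  fun g => decide (θ + lin α g ∈ arc 0 (1 / 2))

theorem code_shift (α : Fin d → TT) (θ : TT) (g : Fin d → ℤ) :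
    code α (θ + lin α g) = shift g (code α θ) := by
  classical
  funext h
  change decide (_ ∈ _) = decide (_ ∈ _)
  rw [map_add, add_assoc, add_comm (lin α g)]

theorem code_free {α : Fin d → TT} (hα : ∀ g : Fin d → ℤ, g ≠ 0 → addOrderOf (lin α g) = 0)
    (θ : TT) (g : Fin d → ℤ) (hg : g ≠ 0) : shift g (code α θ) ≠ code α θ := by
  intro h
  have h1 : ∀ k : ℕ, code α θ (k • g) = code α θ 0 := by
    intro k
    induction k with
    | zero => simp
    | succ k ih =>
      rw [← ih, succ_nsmul]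
      exact congrFun h (k • g)
  have h2 : ∀ k : ℕ, (θ + k • lin α g ∈ arc 0 (1 / 2) ↔ θ ∈ arc 0 (1 / 2)) := by
    intro k
    have := h1 k
    unfold code at this
    rw [map_nsmul, map_zero, add_zero, decide_eq_decide] at this
    exact this
  obtain ⟨_, hK1⟩ := syndetic (isOpen_arc 0 (1 / 2)) (arc_nonempty (by norm_num)) (hα g hg)
  obtain ⟨_, hK2⟩ := syndetic (isOpen_arc (1 / 2) 1) (arc_nonempty (by norm_num)) (hα g hg)
  obtain ⟨k1, -, hk1⟩ := hK1 θ
  obtain ⟨k2, -, hk2⟩ := hK2 θ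
  exact arc_disj ((h2 k2).2 ((h2 k1).1 hk1)) hk2

/-- The coding as a map into the free part. -/
noncomputable def codeF {α : Fin d → TT} (hα : ∀ g : Fin d → ℤ, g ≠ 0 → addOrderOf (lin α g) = 0)
    (θ : TT) : FreePart d := ⟨code α θ, code_free hα θ⟩

theorem measurable_codeF {α : Fin d → TT}
    (hα : ∀ g : Fin d → ℤ, g ≠ 0 → addOrderOf (lin α g) = 0) : Measurable (codeF hα) := by
  refine Measurable.subtype_mk (measurable_pi_iff.2 fun g => ?_)
  have h1 : MeasurableSet {θ : TT | θ + lin α g ∈ arc 0 (1 / 2)} := by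
    have h2 : Measurable fun θ : TT => θ + lin α g := by fun_prop
    exact h2 (isOpen_arc _ _).measurableSet
  unfold code
  refine measurable_to_bool ?_
  convert h1 using 1
  ext θ
  simp

end Coding

section Neg
variable {d k : ℕ} (e : Fin k ≃ Lab) (e0 e1 : Fin d → ℤ)

/-- The subshift of walls and colours. -/
def SB : Set (Conf d (Fin k)) := {s | ∀ g, RuleB e0 e1 (fun h => e (shift g s h))}

/-- The subshift of walls, colours and marks. -/
def SA : Set (Conf d (Fin k)) :=
  {s | ∀ g, RuleB e0 e1 (fun h => e (shift g s h)) ∧ RuleM e0 e1 (fun h => e (shift g s h))}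

theorem isSFT_SB : IsSFT (SB e e0 e1) := by
  classical
  refine isSFT_of_window {0, -e0, -e1, e0, e1} (fun s => RuleB e0 e1 (fun h => e (s h))) ?_
  intro s s' h
  have h0 := h 0 (by simp)
  have h1 := h (-e0) (by simp)
  have h2 := h (-e1) (by simp)
  simp only [RuleB, h0, h1, h2]
  exact id

theorem isSFT_SA : IsSFT (SA e e0 e1) := by
  classical
  refine isSFT_of_window {0, -e0, -e1, e0, e1} (fun s => RuleB e0 e1 (fun h => e (s h)) ∧
    RuleM e0 e1 (fun h => e (s h))) ?_
  intro s s' h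
  have h0 := h 0 (by simp)
  have h1 := h (-e0) (by simp)
  have h2 := h (-e1) (by simp)
  have h3 := h e0 (by simp)
  have h4 := h e1 (by simp)
  simp only [RuleB, RuleM, h0, h1, h2, h3, h4]
  exact id

variable {e e0 e1}

theorem SA_sub_SB : SA e e0 e1 ⊆ SB e e0 e1 := fun _ hs g => (hs g).1

theorem read {α : Fin d → TT} (hα : ∀ g : Fin d → ℤ, g ≠ 0 → addOrderOf (lin α g) = 0)
    {S : Set (Conf d (Fin k))} {T : FreePart d → Conf d (Fin k)} (hT : IsEquivMap S T)
    (θ : TT) (g : Fin d → ℤ) : T (codeF hα θ) g = T (codeF hα (θ + lin α g)) 0 := by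
  have := hT.equivariant g (codeF hα θ) (codeF hα (θ + lin α g)) (code_shift α θ g)
  rw [this]
  simp [shift]

theorem rules_of_T {α : Fin d → TT} (hα : ∀ g : Fin d → ℤ, g ≠ 0 → addOrderOf (lin α g) = 0)
    {T : FreePart d → Conf d (Fin k)} (hT : IsEquivMap (SB e e0 e1) T) :
    (∀ x, Walls (cfg (fun θ => (e (T (codeF hα θ) 0)).1) (lin α e0) (lin α e1) x)
      (cfg (fun θ => (e (T (codeF hα θ) 0)).2.1) (lin α e0) (lin α e1) x)) ∧
    (∀ x, Cols (cfg (fun θ => (e (T (codeF hα θ) 0)).1) (lin α e0) (lin α e1) x)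
      (cfg (fun θ => (e (T (codeF hα θ) 0)).2.1) (lin α e0) (lin α e1) x)
      (cfg (fun θ => (e (T (codeF hα θ) 0)).2.2.1) (lin α e0) (lin α e1) x)) := by
  have key : ∀ (x : TT) (i j : ℤ) (h : Fin d → ℤ), T (codeF hα (x + i • lin α e0 + j • lin α e1)) h =
      T (codeF hα (x + i • lin α e0 + j • lin α e1 + lin α h)) 0 := fun x i j h => read hα hT _ _
  have hr : ∀ (x : TT) (i j : ℤ), RuleB e0 e1
      (fun h => e (T (codeF hα (x + i • lin α e0 + j • lin α e1 + lin α h)) 0)) := by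
    intro x i j
    have := hT.mem (codeF hα (x + i • lin α e0 + j • lin α e1)) 0
    simp only [shift, add_zero] at this
    simpa only [key] using this
  have s0 : ∀ (x : TT) (i j : ℤ), x + i • lin α e0 + j • lin α e1 + lin α (-e0) =
      x + (i - 1) • lin α e0 + j • lin α e1 := by
    intro x i j
    rw [map_neg, sub_smul, one_smul]; abel
  have s1 : ∀ (x : TT) (i j : ℤ), x + i • lin α e0 + j • lin α e1 + lin α (-e1) =
      x + i • lin α e0 + (j - 1) • lin α e1 := by
    intro x i j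
    rw [map_neg, sub_smul, one_smul]; abel
  constructor
  · intro x i j
    have := (hr x i j).1
    simpa only [s0, s1, map_zero, add_zero, cfg] using this
  · intro x
    constructor
    · intro i j
      have := (hr x i j).2.1
      simpa only [s0, s1, map_zero, add_zero, cfg] using this
    · intro i j
      have := (hr x i j).2.2
      simpa only [s0, s1, map_zero, add_zero, cfg] using this

theorem marks_of_T {α : Fin d → TT} (hα : ∀ g : Fin d → ℤ, g ≠ 0 → addOrderOf (lin α g) = 0)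
    {T : FreePart d → Conf d (Fin k)} (hT : IsEquivMap (SA e e0 e1) T) (x : TT) :
    Marks (cfg (fun θ => (e (T (codeF hα θ) 0)).1) (lin α e0) (lin α e1) x)
      (cfg (fun θ => (e (T (codeF hα θ) 0)).2.1) (lin α e0) (lin α e1) x)
      (cfg (fun θ => (e (T (codeF hα θ) 0)).2.2.2) (lin α e0) (lin α e1) x) := by
  have key : ∀ (x : TT) (i j : ℤ) (h : Fin d → ℤ), T (codeF hα (x + i • lin α e0 + j • lin α e1)) h =
      T (codeF hα (x + i • lin α e0 + j • lin α e1 + lin α h)) 0 := fun x i j h => read hα hT _ _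
  have hr : ∀ (i j : ℤ), RuleM e0 e1
      (fun h => e (T (codeF hα (x + i • lin α e0 + j • lin α e1 + lin α h)) 0)) := by
    intro i j
    have := (hT.mem (codeF hα (x + i • lin α e0 + j • lin α e1)) 0).2
    simp only [shift, add_zero] at this
    simpa only [key] using this
  have s0 : ∀ (x : TT) (i j : ℤ), x + i • lin α e0 + j • lin α e1 + lin α e0 =
      x + (i + 1) • lin α e0 + j • lin α e1 := by
    intro x i j
    rw [add_smul, one_smul]; abel
  have s1 : ∀ (x : TT) (i j : ℤ), x + i • lin α e0 + j • lin α e1 + lin α e1 =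
      x + i • lin α e0 + (j + 1) • lin α e1 := by
    intro x i j
    rw [add_smul, one_smul]; abel
  refine ⟨fun i j => ?_, fun i j => ?_, fun i j => ?_, fun i j => ?_⟩
  · have := (hr i j).1
    simpa only [s0, s1, map_zero, add_zero, cfg] using this
  · have := (hr i j).2.1
    simpa only [s0, s1, map_zero, add_zero, cfg] using this
  · have := (hr i j).2.2.1
    simpa only [s0, s1, map_zero, add_zero, cfg] using this
  · have := (hr i j).2.2.2
    simpa only [s0, s1, map_zero, add_zero, cfg] using this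

theorem SB_not_borel (h0 : e0 ≠ 0) (h1 : e1 ≠ 0) : ¬ HasBorel (SB e e0 e1) := by
  rintro ⟨T, hT, hTm⟩
  obtain ⟨α, hα⟩ := exists_alpha d
  obtain ⟨hW, hC⟩ := rules_of_T hα hT
  have hm : Measurable fun θ => T (codeF hα θ) 0 :=
    (measurable_pi_apply 0).comp (hTm.comp (measurable_codeF hα))
  have hm' : ∀ A : Set Lab, MeasurableSet {θ : TT | e (T (codeF hα θ) 0) ∈ A} := by
    intro A
    exact hm (MeasurableSet.of_discrete (s := e ⁻¹' A))
  exact no_borel_labelling (hα e0 h0) (hα e1 h1) (fun c => hm' {l | l.1 = c})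
    (fun c => hm' {l | l.2.1 = c}) (fun c => hm' {l | l.2.2.1 = c}) hW hC

theorem SA_not_measure (h0 : e0 ≠ 0) (h1 : e1 ≠ 0) : ¬ HasMeasure (SA e e0 e1) := by
  intro h
  obtain ⟨α, hα⟩ := exists_alpha d
  have : IsProbabilityMeasure (volume : Measure TT) := ⟨by simp⟩
  obtain ⟨T, hT, hTm⟩ := h (Measure.map (codeF hα) volume)
    (Measure.isProbabilityMeasure_map (measurable_codeF hα).aemeasurable)
  have hT' : IsEquivMap (SB e e0 e1) T := ⟨fun x => SA_sub_SB (hT.mem x), hT.equivariant⟩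
  obtain ⟨hW, hC⟩ := rules_of_T hα hT'
  have hm' : ∀ A : Set Lab, NullMeasurableSet {θ : TT | e (T (codeF hα θ) 0) ∈ A} := by
    intro A
    have h0 : Measurable fun s : Conf d (Fin k) => s 0 := measurable_pi_apply 0
    have h1 : MeasurableSet {s : Conf d (Fin k) | e (s 0) ∈ A} :=
      h0 (MeasurableSet.of_discrete (s := e ⁻¹' A))
    exact (hTm _ h1).preimage ((measurable_codeF hα).quasiMeasurePreserving volume)
  exact no_null_labelling (hα e0 h0) (hα e1 h1) (fun c => hm' {l | l.1 = c})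
    (fun c => hm' {l | l.2.1 = c}) (fun c => hm' {l | l.2.2.1 = c}) hW hC (marks_of_T hα hT)

theorem SA_not_borel (h0 : e0 ≠ 0) (h1 : e1 ≠ 0) : ¬ HasBorel (SA e e0 e1) := by
  rintro ⟨T, hT, hTm⟩
  exact SB_not_borel h0 h1 ⟨T, ⟨fun x => SA_sub_SB (hT.mem x), hT.equivariant⟩, hTm⟩

end Neg

end Pool.Agent.W927
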