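import Mathlib

/-!
Subshifts of finite type over `ℤ^d` and equivariant maps from the free part of `2^{ℤ^d}`.
-/

namespace Pool.Agent.W927

open MeasureTheory

/-- Configurations over the alphabet `A` on `ℤ^d`. -/
abbrev Conf (d : ℕ) (A : Type*) := (Fin d → ℤ) → A

/-- The shift action: `(g • x)(h) = x (h + g)`. -/
def shift {d : ℕ} {A : Type*} (g : Fin d → ℤ) (x : Conf d A) : Conf d A := fun h => x (h + g)

/-- The free part of `2^{ℤ^d}`, with the subspace topology and its Borel structure. -/
abbrev FreePart (d : ℕ) := {x : Conf d Bool // ∀ g : Fin d → ℤ, g ≠ 0 → shift g x ≠ x}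

/-- `S` is the set of configurations avoiding a finite set of finite patterns (a pattern is a
function on a finite subset `W` of `ℤ^d`). -/
def IsSFT {d k : ℕ} (S : Set (Conf d (Fin k))) : Prop :=
  ∃ F : Finset (Σ W : Finset (Fin d → ℤ), ((w : W) → Fin k)),
    S = {s | ∀ p ∈ F, ∀ g : Fin d → ℤ, ¬ ∀ w : p.1, s (w + g) = p.2 w}

/-- `T` is an equivariant map from the free part into `S`. -/
structure IsEquivMap {d k : ℕ} (S : Set (Conf d (Fin k))) (T : FreePart d → Conf d (Fin k)) :
    Prop where
  mem : ∀ x, T x ∈ S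
  equivariant : ∀ (g : Fin d → ℤ) (x y : FreePart d), y.1 = shift g x.1 → T y = shift g (T x)

/-- Condition (i): a Borel equivariant map. -/
def HasBorel {d k : ℕ} (S : Set (Conf d (Fin k))) : Prop :=
  ∃ T : FreePart d → Conf d (Fin k), IsEquivMap S T ∧ Measurable T

/-- Condition (ii): a Baire measurable equivariant map. -/
def HasBaire {d k : ℕ} (S : Set (Conf d (Fin k))) : Prop :=
  ∃ T : FreePart d → Conf d (Fin k), IsEquivMap S T ∧
    ∀ B : Set (Conf d (Fin k)), MeasurableSet B → BaireMeasurableSet (T ⁻¹' B)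

/-- Condition (iii): for every Borel probability measure, a measurable equivariant map. -/
def HasMeasure {d k : ℕ} (S : Set (Conf d (Fin k))) : Prop :=
  ∀ μ : Measure (FreePart d), IsProbabilityMeasure μ →
    ∃ T : FreePart d → Conf d (Fin k), IsEquivMap S T ∧
      ∀ B : Set (Conf d (Fin k)), MeasurableSet B → NullMeasurableSet (T ⁻¹' B) μ

/-- A criterion: a local rule with a finite window defines a subshift of finite type. -/
theorem isSFT_of_window {d k : ℕ} (W : Finset (Fin d → ℤ)) (P : Conf d (Fin k) → Prop)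
    (hP : ∀ s s' : Conf d (Fin k), (∀ w ∈ W, s w = s' w) → (P s → P s')) :
    IsSFT {s : Conf d (Fin k) | ∀ g, P (shift g s)} := by
  classical
  refine ⟨(Finset.univ.filter fun p : (w : W) → Fin k =>
    ∃ s : Conf d (Fin k), (∀ w : W, s w = p w) ∧ ¬ P s).map
      ⟨fun p => ⟨W, p⟩, fun p q h => by simpa using h⟩, ?_⟩
  ext s
  simp only [Set.mem_ofPred_eq, Finset.mem_map, Finset.mem_filter, Finset.mem_univ, true_and]
  constructor
  · rintro h _ ⟨p, ⟨s', hs', hn⟩, rfl⟩ g hg
    apply hn
    refine hP (shift g s) s' ?_ (h g)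
    intro w hw
    exact (hg ⟨w, hw⟩).trans (hs' ⟨w, hw⟩).symm
  · intro h g
    by_contra hn
    exact h ⟨W, fun w => s (w + g)⟩ ⟨fun w => s (w + g), ⟨shift g s, fun w => rfl, hn⟩, rfl⟩ g
      (fun w => rfl)

end Pool.Agent.W927
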