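import Pool.Agent.W927.Code
import Pool.Agent.W927.Build

/-!
Equivariant maps built from families of squares.
-/

namespace Pool.Agent.W927

open MeasureTheory Filter Topology

section ShiftLabels

variable {D D' : ℤ → ℤ → ℕ → Prop} {a b : ℤ}

theorem top_shift (h : ∀ p q s, D' p q s ↔ D (a + p) (b + q) s) (x y : ℤ) :
    Top D' x y ↔ Top D (a + x) (b + y) := by
  constructor
  · rintro ⟨p, q, s, hD, g⟩
    exact ⟨a + p, b + q, s, (h _ _ _).1 hD, by omega⟩
  · rintro ⟨p, q, s, hD, g⟩
    exact ⟨p - a, q - b, s, (h _ _ _).2 (by simpa using hD), by omega⟩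

theorem bot_shift (h : ∀ p q s, D' p q s ↔ D (a + p) (b + q) s) (x y : ℤ) :
    Bot D' x y ↔ Bot D (a + x) (b + y) := by
  constructor
  · rintro ⟨p, q, s, hD, g⟩
    exact ⟨a + p, b + q, s, (h _ _ _).1 hD, by omega⟩
  · rintro ⟨p, q, s, hD, g⟩
    exact ⟨p - a, q - b, s, (h _ _ _).2 (by simpa using hD), by omega⟩

theorem lef_shift (h : ∀ p q s, D' p q s ↔ D (a + p) (b + q) s) (x y : ℤ) :
    Lef D' x y ↔ Lef D (a + x) (b + y) := by
  constructor
  · rintro ⟨p, q, s, hD, g⟩
    exact ⟨a + p, b + q, s, (h _ _ _).1 hD, by omega⟩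
  · rintro ⟨p, q, s, hD, g⟩
    exact ⟨p - a, q - b, s, (h _ _ _).2 (by simpa using hD), by omega⟩

theorem rig_shift (h : ∀ p q s, D' p q s ↔ D (a + p) (b + q) s) (x y : ℤ) :
    Rig D' x y ↔ Rig D (a + x) (b + y) := by
  constructor
  · rintro ⟨p, q, s, hD, g⟩
    exact ⟨a + p, b + q, s, (h _ _ _).1 hD, by omega⟩
  · rintro ⟨p, q, s, hD, g⟩
    exact ⟨p - a, q - b, s, (h _ _ _).2 (by simpa using hD), by omega⟩

theorem tri_shift (h : ∀ p q s, D' p q s ↔ D (a + p) (b + q) s) (x y : ℤ) :
    Tri D' x y ↔ Tri D (a + x) (b + y) := by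
  constructor
  · rintro ⟨p, q, s, hD, g⟩
    exact ⟨a + p, b + q, s, (h _ _ _).1 hD, by omega⟩
  · rintro ⟨p, q, s, hD, g⟩
    exact ⟨p - a, q - b, s, (h _ _ _).2 (by simpa using hD), by omega⟩

theorem rtri_shift (h : ∀ p q s, D' p q s ↔ D (a + p) (b + q) s) (x y : ℤ) :
    Rtri D' x y ↔ Rtri D (a + x) (b + y) := by
  constructor
  · rintro ⟨p, q, s, hD, g⟩
    exact ⟨a + p, b + q, s, (h _ _ _).1 hD, by omega⟩
  · rintro ⟨p, q, s, hD, g⟩
    exact ⟨p - a, q - b, s, (h _ _ _).2 (by simpa using hD), by omega⟩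

theorem cel_shift (h : ∀ p q s, D' p q s ↔ D (a + p) (b + q) s) (s : ℕ) (x y p q : ℤ) :
    Cel D' s x y p q ↔ Cel D s (a + x) (b + y) (a + p) (b + q) := by
  constructor
  · rintro ⟨hD, g⟩
    exact ⟨(h _ _ _).1 hD, by omega⟩
  · rintro ⟨hD, g⟩
    exact ⟨(h _ _ _).2 hD, by omega⟩

theorem col_shift (h : ∀ p q s, D' p q s ↔ D (a + p) (b + q) s) (x y : ℤ) :
    Col D' x y ↔ Col D (a + x) (b + y) := by
  constructor
  · rintro ⟨s, p, q, hc, hmin, he⟩
    refine ⟨s, a + p, b + q, (cel_shift h _ _ _ _ _).1 hc, fun s' hs' p' q' hc' => ?_, ?_⟩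
    · refine hmin s' hs' (p' - a) (q' - b) ((cel_shift h _ _ _ _ _).2 ?_)
      simpa using hc'
    · rwa [show a + x - (a + p) + (b + y - (b + q)) = x - p + (y - q) by ring]
  · rintro ⟨s, p, q, hc, hmin, he⟩
    refine ⟨s, p - a, q - b, (cel_shift h _ _ _ _ _).2 (by simpa using hc),
      fun s' hs' p' q' hc' => hmin s' hs' _ _ ((cel_shift h _ _ _ _ _).1 hc'), ?_⟩
    rwa [show x - (p - a) + (y - (q - b)) = a + x - p + (b + y - q) by ring]

/-- The label of a vertex. -/
noncomputable def labD (D : ℤ → ℤ → ℕ → Prop) (x y : ℤ) : Lab :=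
  (Hlab D x y, Vlab D x y, Clab D x y, Mlab D x y)

theorem labD_shift (h : ∀ p q s, D' p q s ↔ D (a + p) (b + q) s) (x y : ℤ) :
    labD D' x y = labD D (a + x) (b + y) := by
  classical
  unfold labD Hlab Vlab Clab Mlab
  simp only [top_shift h, bot_shift h, lef_shift h, rig_shift h, tri_shift h, rtri_shift h,
    col_shift h]

end ShiftLabels

section Action

variable {d : ℕ}

theorem shift_shift {A : Type*} (g h : Fin d → ℤ) (x : Conf d A) :
    shift g (shift h x) = shift (g + h) x := by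
  funext k
  simp [shift, add_assoc]

/-- The shift action on the free part. -/
def act (g : Fin d → ℤ) (x : FreePart d) : FreePart d :=
  ⟨shift g x.1, fun h hh he => by
    apply x.2 h hh
    have h1 := congrArg (shift (-g)) he
    rw [shift_shift, shift_shift, shift_shift, neg_add_cancel, show -g + h + g = h by abel]
      at h1
    rw [h1]
    funext k; simp [shift]⟩

theorem act_act (g h : Fin d → ℤ) (x : FreePart d) : act g (act h x) = act (g + h) x :=
  Subtype.ext (shift_shift g h x.1)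

theorem act_zero (x : FreePart d) : act 0 x = x := Subtype.ext (by funext k; simp [act, shift])

theorem act_inj {g h : Fin d → ℤ} {x : FreePart d} (e : act g x = act h x) : g = h := by
  by_contra hne
  have h1 : act (g - h) (act h x) = act h x := by rw [act_act, sub_add_cancel, e]
  exact (act h x).2 (g - h) (sub_ne_zero.2 hne) (congrArg Subtype.val h1)

theorem continuous_act (g : Fin d → ℤ) : Continuous (act g) := by
  refine Continuous.subtype_mk (continuous_pi fun k => ?_) _
  exact (continuous_apply (k + g)).comp continuous_subtype_val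

theorem measurable_act (g : Fin d → ℤ) : Measurable (act g) := (continuous_act g).measurable

/-- Same orbit. -/
def orb (d : ℕ) : Setoid (FreePart d) where
  r x y := ∃ g, act g x = y
  iseqv := by
    refine ⟨fun x => ⟨0, act_zero x⟩, ?_, ?_⟩
    · rintro x y ⟨g, rfl⟩
      exact ⟨-g, by rw [act_act, neg_add_cancel, act_zero]⟩
    · rintro x y z ⟨g, rfl⟩ ⟨h, rfl⟩
      exact ⟨h + g, by rw [act_act]⟩

theorem exists_coord (d : ℕ) : ∃ c : FreePart d → (Fin d → ℤ), ∀ g x, c (act g x) = g + c x := by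
  classical
  have h1 : ∀ x : FreePart d, ∃ g, act g (Quotient.out (Quotient.mk (orb d) x)) = x :=
    fun x => @Quotient.exact _ (orb d) _ _ (Quotient.out_eq (Quotient.mk (orb d) x))
  choose c hc using h1
  refine ⟨c, fun g x => ?_⟩
  have h2 : Quotient.mk (orb d) (act g x) = Quotient.mk (orb d) x :=
    (Quotient.sound (s := orb d) ⟨g, rfl⟩).symm
  have h3 := hc (act g x)
  rw [h2] at h3
  apply act_inj (x := Quotient.out (Quotient.mk (orb d) x))
  rw [h3, ← act_act, hc x]

end Action

section Global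

variable {d : ℕ} {i0 i1 : Fin d}

/-- First direction. -/
def e_ (i : Fin d) : Fin d → ℤ := Pi.single i 1

theorem e_ne (i : Fin d) : (e_ i : Fin d → ℤ) ≠ 0 := by
  intro h
  have := congrFun h i
  simp [e_] at this

/-- The plane spanned by two directions. -/
def pl (i0 i1 : Fin d) (p q : ℤ) : Fin d → ℤ := p • e_ i0 + q • e_ i1

theorem pl_add (p q p' q' : ℤ) : pl i0 i1 p q + pl i0 i1 p' q' = pl i0 i1 (p + p') (q + q') := by
  unfold pl; rw [add_smul, add_smul]; abel

theorem pl_zero : pl i0 i1 0 0 = 0 := by simp [pl]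

theorem pl_inj (h01 : i0 ≠ i1) {p q p' q' : ℤ} (h : pl i0 i1 p q = pl i0 i1 p' q') :
    p = p' ∧ q = q' := by
  have h1 := congrFun h i0
  have h2 := congrFun h i1
  simp only [pl, e_, Pi.add_apply, Pi.smul_apply, Pi.single_eq_same, smul_eq_mul, mul_one,
    Pi.single_eq_of_ne h01, Pi.single_eq_of_ne h01.symm, mul_zero, add_zero, zero_add] at h1 h2
  exact ⟨h1, h2⟩

/-- The centres seen from a point. -/
def Dx (i0 i1 : Fin d) (P : ℕ → Set (FreePart d)) (x : FreePart d) (p q : ℤ) (s : ℕ) : Prop :=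
  act (pl i0 i1 p q) x ∈ P s

theorem Dx_act (P : ℕ → Set (FreePart d)) (x : FreePart d) (a b p q : ℤ) (s : ℕ) :
    Dx i0 i1 P (act (pl i0 i1 a b) x) p q s ↔ Dx i0 i1 P x (a + p) (b + q) s := by
  unfold Dx
  rw [act_act, pl_add, add_comm p a, add_comm q b]

theorem labD_act (P : ℕ → Set (FreePart d)) (x : FreePart d) (a b : ℤ) :
    labD (Dx i0 i1 P (act (pl i0 i1 a b) x)) 0 0 = labD (Dx i0 i1 P x) a b := by
  rw [labD_shift (Dx_act P x a b), add_zero, add_zero]

/-- A good family of squares. -/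
structure Fam (i0 i1 : Fin d) (P : ℕ → Set (FreePart d)) (Good : Set (FreePart d)) : Prop where
  inv : ∀ g x, x ∈ Good → act g x ∈ Good
  iso : ∀ x ∈ Good, IsoW (Dx i0 i1 P x)
  cov : ∀ x ∈ Good, ∃ s p q, Cel (Dx i0 i1 P x) s 0 0 p q

theorem Fam.inv' {P : ℕ → Set (FreePart d)} {Good : Set (FreePart d)} (F : Fam i0 i1 P Good)
    (g : Fin d → ℤ) (x : FreePart d) : act g x ∈ Good ↔ x ∈ Good := by
  refine ⟨fun h => ?_, F.inv g x⟩
  have := F.inv (-g) _ h
  rwa [act_act, neg_add_cancel, act_zero] at this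

variable (i0 i1) in
open Classical in
/-- The label function. -/
noncomputable def lab (P : ℕ → Set (FreePart d)) (Good : Set (FreePart d))
    (c : FreePart d → (Fin d → ℤ)) (x : FreePart d) : Lab :=
  if x ∈ Good then labD (Dx i0 i1 P x) 0 0 else (.n, .n, decide (Even (c x i0 + c x i1)), .n)

variable {P : ℕ → Set (FreePart d)} {Good : Set (FreePart d)} {c : FreePart d → (Fin d → ℤ)}
  {k : ℕ} {e : Fin k ≃ Lab}

theorem neg_e0 : (-e_ i0 : Fin d → ℤ) = pl i0 i1 (-1) 0 := by simp [pl]
theorem neg_e1 : (-e_ i1 : Fin d → ℤ) = pl i0 i1 0 (-1) := by simp [pl]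
theorem pos_e0 : (e_ i0 : Fin d → ℤ) = pl i0 i1 1 0 := by simp [pl]
theorem pos_e1 : (e_ i1 : Fin d → ℤ) = pl i0 i1 0 1 := by simp [pl]

theorem rest (h01 : i0 ≠ i1) : (e_ i0 : Fin d → ℤ) i0 + (e_ i0 : Fin d → ℤ) i1 = 1 ∧
    (e_ i1 : Fin d → ℤ) i0 + (e_ i1 : Fin d → ℤ) i1 = 1 := by
  simp [e_, Pi.single_eq_of_ne h01, Pi.single_eq_of_ne h01.symm]

theorem ruleB_lab (h01 : i0 ≠ i1) (F : Fam i0 i1 P Good) (hc : ∀ g x, c (act g x) = g + c x)
    (x : FreePart d) : RuleB (e_ i0) (e_ i1) (fun h => lab i0 i1 P Good c (act h x)) := by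
  classical
  by_cases hx : x ∈ Good
  · have hl : ∀ a b : ℤ, lab i0 i1 P Good c (act (pl i0 i1 a b) x) = labD (Dx i0 i1 P x) a b := by
      intro a b
      unfold lab
      rw [if_pos ((F.inv' _ _).2 hx), labD_act]
    have hcov : ∀ a b, ∃ s p q, Cel (Dx i0 i1 P x) s a b p q := by
      intro a b
      obtain ⟨s, p, q, h⟩ := F.cov _ (F.inv (pl i0 i1 a b) x hx)
      rw [cel_shift (Dx_act P x a b)] at h
      exact ⟨s, a + p, b + q, by simpa using h⟩
    have W := walls_build (F.iso x hx) 0 0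
    have C := cols_build (F.iso x hx) hcov
    have l0 : lab i0 i1 P Good c (act 0 x) = labD (Dx i0 i1 P x) 0 0 := by
      rw [← pl_zero (i0 := i0) (i1 := i1), hl]
    refine ⟨?_, ?_, ?_⟩
    · simp only [neg_e0 (i0 := i0) (i1 := i1), neg_e1 (i0 := i0) (i1 := i1), hl, l0]
      exact W
    · simp only [neg_e0 (i0 := i0) (i1 := i1), hl, l0]
      exact C.hor 0 0
    · simp only [neg_e1 (i0 := i0) (i1 := i1), hl, l0]
      exact C.ver 0 0
  · have hl : ∀ g, lab i0 i1 P Good c (act g x) =
        (.n, .n, decide (Even (g i0 + g i1 + (c x i0 + c x i1))), .n) := by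
      intro g
      unfold lab
      rw [if_neg (fun h => hx ((F.inv' _ _).1 h)), hc]
      simp only [Pi.add_apply]
      simp only [show g i0 + c x i0 + (g i1 + c x i1) = g i0 + g i1 + (c x i0 + c x i1) by ring]
    obtain ⟨r0, r1⟩ := rest h01
    refine ⟨?_, ?_, ?_⟩
    · simp only [hl]
      decide
    · intro _
      simp only [hl, Pi.zero_apply, Pi.neg_apply]
      rw [← decide_not, decide_eq_decide, Int.even_iff, Int.even_iff]
      omega
    · intro _
      simp only [hl, Pi.zero_apply, Pi.neg_apply]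
      rw [← decide_not, decide_eq_decide, Int.even_iff, Int.even_iff]
      omega

theorem ruleM_lab (F : Fam i0 i1 P Good) (hS : ∀ x ∈ Good, IsoS (Dx i0 i1 P x))
    (x : FreePart d) : RuleM (e_ i0) (e_ i1) (fun h => lab i0 i1 P Good c (act h x)) := by
  classical
  by_cases hx : x ∈ Good
  · have hl : ∀ a b : ℤ, lab i0 i1 P Good c (act (pl i0 i1 a b) x) = labD (Dx i0 i1 P x) a b := by
      intro a b
      unfold lab
      rw [if_pos ((F.inv' _ _).2 hx), labD_act]
    have M := marks_build (hS x hx)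
    have l0 : lab i0 i1 P Good c (act 0 x) = labD (Dx i0 i1 P x) 0 0 := by
      rw [← pl_zero (i0 := i0) (i1 := i1), hl]
    have l1 : lab i0 i1 P Good c (act (e_ i0) x) = labD (Dx i0 i1 P x) 1 0 := by
      rw [pos_e0 (i0 := i0) (i1 := i1), hl]
    have l2 : lab i0 i1 P Good c (act (e_ i1) x) = labD (Dx i0 i1 P x) 0 1 := by
      rw [pos_e1 (i0 := i0) (i1 := i1), hl]
    refine ⟨?_, ?_, ?_, ?_⟩
    · simp only [l0]; exact M.t1 0 0
    · simp only [l0, l1, l2]; exact M.t3 0 0
    · simp only [l0]; exact M.r1 0 0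
    · simp only [l0, l1, l2]; exact M.r3 0 0
  · have hl : ∀ g, (lab i0 i1 P Good c (act g x)).1 = .n ∧ (lab i0 i1 P Good c (act g x)).2.1 = .n
        ∧ (lab i0 i1 P Good c (act g x)).2.2.2 = .n := by
      intro g
      unfold lab
      rw [if_neg (fun h => hx ((F.inv' _ _).1 h))]
      exact ⟨rfl, rfl, rfl⟩
    refine ⟨?_, ?_, ?_, ?_⟩
    · simp only [(hl 0).1]; simp
    · simp only [(hl 0).2.2]; simp
    · simp only [(hl 0).2.1]; simp
    · simp only [(hl 0).2.2]; simp

/-- The equivariant map. -/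
noncomputable def TT_ (e : Fin k ≃ Lab) (f : FreePart d → Lab) (x : FreePart d) :
    Conf d (Fin k) := fun g => e.symm (f (act g x))

theorem isEquivMap_SB (h01 : i0 ≠ i1) (F : Fam i0 i1 P Good)
    (hc : ∀ g x, c (act g x) = g + c x) :
    IsEquivMap (SB e (e_ i0) (e_ i1)) (TT_ e (lab i0 i1 P Good c)) := by
  refine ⟨fun x g => ?_, fun g x y h => ?_⟩
  · have := ruleB_lab h01 F hc (act g x)
    simpa [shift, TT_, act_act] using this
  · have : y = act g x := Subtype.ext h
    subst this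
    funext h
    simp [shift, TT_, act_act]

theorem isEquivMap_SA (h01 : i0 ≠ i1) (F : Fam i0 i1 P Good)
    (hc : ∀ g x, c (act g x) = g + c x) (hS : ∀ x ∈ Good, IsoS (Dx i0 i1 P x)) :
    IsEquivMap (SA e (e_ i0) (e_ i1)) (TT_ e (lab i0 i1 P Good c)) := by
  refine ⟨fun x g => ?_, (isEquivMap_SB h01 F hc).equivariant⟩
  constructor
  · exact (isEquivMap_SB h01 F hc).mem x g
  · have := ruleM_lab F hS (c := c) (act g x)
    simpa [shift, TT_, act_act] using this

/-- The Borel part of the map. -/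
theorem measurable_labD (hP : ∀ s, MeasurableSet (P s)) :
    Measurable (TT_ e (fun x => labD (Dx i0 i1 P x) 0 0)) := by
  classical
  have hD : ∀ p q s, Measurable fun x => Dx i0 i1 P x p q s := by
    intro p q s
    exact measurableSet_setOfPred.1 (measurable_act (pl i0 i1 p q) (hP s))
  have hT : Measurable fun x => Top (Dx i0 i1 P x) 0 0 :=
    Measurable.exists fun p => Measurable.exists fun q => Measurable.exists fun s =>
      (hD p q s).and measurable_const
  have hB : Measurable fun x => Bot (Dx i0 i1 P x) 0 0 :=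
    Measurable.exists fun p => Measurable.exists fun q => Measurable.exists fun s =>
      (hD p q s).and measurable_const
  have hL : Measurable fun x => Lef (Dx i0 i1 P x) 0 0 :=
    Measurable.exists fun p => Measurable.exists fun q => Measurable.exists fun s =>
      (hD p q s).and measurable_const
  have hR : Measurable fun x => Rig (Dx i0 i1 P x) 0 0 :=
    Measurable.exists fun p => Measurable.exists fun q => Measurable.exists fun s =>
      (hD p q s).and measurable_const
  have hTr : Measurable fun x => Tri (Dx i0 i1 P x) 0 0 :=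
    Measurable.exists fun p => Measurable.exists fun q => Measurable.exists fun s =>
      (hD p q s).and measurable_const
  have hRt : Measurable fun x => Rtri (Dx i0 i1 P x) 0 0 :=
    Measurable.exists fun p => Measurable.exists fun q => Measurable.exists fun s =>
      (hD p q s).and measurable_const
  have hCel : ∀ s p q, Measurable fun x => Cel (Dx i0 i1 P x) s 0 0 p q := fun s p q =>
    (hD p q s).and measurable_const
  have hC : Measurable fun x => Col (Dx i0 i1 P x) 0 0 :=
    Measurable.exists fun s => Measurable.exists fun p => Measurable.exists fun q =>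
      (hCel s p q).and ((Measurable.forall fun s' => measurable_const.imp
        (Measurable.forall fun p' => Measurable.forall fun q' => (hCel s' p' q').not)).and
          measurable_const)
  have hf : Measurable fun x : FreePart d => e.symm (labD (Dx i0 i1 P x) 0 0) := by
    have : (fun x : FreePart d => e.symm (labD (Dx i0 i1 P x) 0 0)) =
        (fun r : Prop × Prop × Prop × Prop × Prop × Prop × Prop =>
          e.symm ((if r.1 then .t else if r.2.1 then .b else .n : HL),
            (if r.2.2.1 then .l else if r.2.2.2.1 then .r else .n : VL), decide r.2.2.2.2.1,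
            (if r.2.2.2.2.2.1 then .t else if r.2.2.2.2.2.2 then .r else .n : ML))) ∘
        (fun x => (Top (Dx i0 i1 P x) 0 0, Bot (Dx i0 i1 P x) 0 0, Lef (Dx i0 i1 P x) 0 0,
          Rig (Dx i0 i1 P x) 0 0, Col (Dx i0 i1 P x) 0 0, Tri (Dx i0 i1 P x) 0 0,
          Rtri (Dx i0 i1 P x) 0 0)) := by
      funext x
      simp only [Function.comp, labD, Hlab, Vlab, Clab, Mlab]
    rw [this]
    refine (Measurable.of_discrete).comp ?_
    exact hT.prodMk (hB.prodMk (hL.prodMk (hR.prodMk (hC.prodMk (hTr.prodMk hRt)))))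
  exact measurable_pi_iff.2 fun g => hf.comp (measurable_act g)

theorem agree (F : Fam i0 i1 P Good) {x : FreePart d} (hx : x ∈ Good) :
    TT_ e (lab i0 i1 P Good c) x = TT_ e (fun x => labD (Dx i0 i1 P x) 0 0) x := by
  funext g
  unfold TT_ lab
  rw [if_pos (F.inv g x hx)]

theorem hasBaire_SA (h01 : i0 ≠ i1) (F : Fam i0 i1 P Good)
    (hS : ∀ x ∈ Good, IsoS (Dx i0 i1 P x)) (hP : ∀ s, MeasurableSet (P s))
    (hG : Good ∈ residual (FreePart d)) : HasBaire (SA e (e_ i0) (e_ i1)) := by
  obtain ⟨c, hc⟩ := exists_coord d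
  refine ⟨_, isEquivMap_SA h01 F hc hS, fun B hB => ?_⟩
  have h1 := (measurable_labD (e := e) (i0 := i0) (i1 := i1) hP hB).baireMeasurableSet
  refine h1.congr ?_
  filter_upwards [hG] with x hx
  apply propext
  change _ ∈ B ↔ _ ∈ B
  rw [agree F hx]

theorem hasMeasure_SB (h01 : i0 ≠ i1) (H : ∀ μ : Measure (FreePart d), IsProbabilityMeasure μ →
    ∃ P Good, Fam i0 i1 P Good ∧ (∀ s, MeasurableSet (P s)) ∧ ∀ᵐ x ∂μ, x ∈ Good) :
    HasMeasure (SB e (e_ i0) (e_ i1)) := by
  intro μ hμ
  obtain ⟨P, Good, F, hP, hG⟩ := H μ hμ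
  obtain ⟨c, hc⟩ := exists_coord d
  refine ⟨_, isEquivMap_SB h01 F hc, fun B hB => ?_⟩
  have h1 := (measurable_labD (e := e) (i0 := i0) (i1 := i1) hP hB).nullMeasurableSet (μ := μ)
  refine h1.congr ?_
  filter_upwards [hG] with x hx
  apply propext
  change _ ∈ B ↔ _ ∈ B
  rw [agree F hx]

end Global

end Pool.Agent.W927
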