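import Pool.Agent.W927.Lcl
import Pool.Agent.W927.Glob

/-!
Directions encoded in vertex labels: charts of balls of radius two.
-/

namespace Pool.Agent.W927

open MeasureTheory

/-- Directions: `(i, true)` is `e_i`, `(i, false)` is `-e_i`. -/
abbrev Dir (d : ℕ) := Fin d × Bool

section Dir
variable {d : ℕ}

/-- The unit vector of a direction. -/
def vec (a : Dir d) : Fin d → ℤ := if a.2 then Pi.single a.1 1 else -Pi.single a.1 1

/-- The opposite direction. -/
def ngt (a : Dir d) : Dir d := (a.1, !a.2)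

/-- Evaluation along a direction. -/
def ev (a : Dir d) (w : Fin d → ℤ) : ℤ := if a.2 then w a.1 else -w a.1

theorem ev_add (a : Dir d) (w w' : Fin d → ℤ) : ev a (w + w') = ev a w + ev a w' := by
  unfold ev; split_ifs <;> simp; ring

theorem ev_vec (a b : Dir d) : ev a (vec b) = if a.1 = b.1 then (if a.2 = b.2 then 1 else -1)
    else 0 := by
  obtain ⟨i, s⟩ := a
  obtain ⟨j, t⟩ := b
  by_cases h : i = j
  · subst h
    cases s <;> cases t <;> simp [ev, vec]
  · cases s <;> cases t <;> simp [ev, vec, h]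

theorem ev_self (a : Dir d) : ev a (vec a) = 1 := by rw [ev_vec]; simp

theorem eq_of_ev {a b : Dir d} (h : 1 ≤ ev a (vec b)) : a = b := by
  rw [ev_vec] at h
  split_ifs at h with h1 h2
  · exact Prod.ext h1 h2
  · omega
  · omega

theorem ngt_of_ev {a b : Dir d} (h : ev a (vec b) < 0) : b = ngt a := by
  rw [ev_vec] at h
  split_ifs at h with h1 h2
  · omega
  · refine Prod.ext h1.symm ?_
    revert h2
    obtain ⟨i, s⟩ := a
    obtain ⟨j, t⟩ := b
    cases s <;> cases t <;> simp [ngt]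
  · omega

theorem vec_ngt (a : Dir d) : vec (ngt a) = -vec a := by
  obtain ⟨i, s⟩ := a
  cases s <;> simp [vec, ngt]

theorem ngt_ngt (a : Dir d) : ngt (ngt a) = a := by
  obtain ⟨i, s⟩ := a
  simp [ngt]

theorem vec_inj {a b : Dir d} (h : vec a = vec b) : a = b := by
  apply eq_of_ev
  rw [← h, ev_self]

theorem vec_ne_zero (a : Dir d) : vec a ≠ 0 := by
  intro h
  have := ev_self a
  rw [h] at this
  simp [ev] at this

theorem ngt_ne (a : Dir d) : ngt a ≠ a := by
  obtain ⟨i, s⟩ := a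
  cases s <;> simp [ngt]

theorem add_eq {a b c c' : Dir d} (h : vec a + vec c = vec b + vec c') (hab : a ≠ b) :
    (c = ngt a ∧ c' = ngt b) ∨ (c = b ∧ c' = a) := by
  by_cases hc : c = ngt a
  · left
    refine ⟨hc, ?_⟩
    rw [hc, vec_ngt, add_neg_cancel] at h
    apply vec_inj
    rw [vec_ngt]
    exact eq_neg_of_add_eq_zero_right h.symm
  · right
    have h1 : ev a (vec a + vec c) = ev a (vec b + vec c') := by rw [h]
    rw [ev_add, ev_add, ev_self] at h1
    have h2 : 0 ≤ ev a (vec c) := by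
      by_contra h3
      exact hc (ngt_of_ev (by omega))
    have h3 : ev a (vec b) ≤ 0 := by
      by_contra h4
      exact hab (eq_of_ev (by omega))
    have h4 : a = c' := eq_of_ev (by omega)
    subst h4
    rw [add_comm] at h
    exact ⟨vec_inj (add_right_cancel h), rfl⟩

/-- Optional unit vector. -/
def vo : Option (Dir d) → (Fin d → ℤ)
  | none => 0
  | some a => vec a

variable (d) in
/-- The ball of radius two in `ℤ^d`. -/
def B2 : Set (Fin d → ℤ) := {g | ∃ a b : Option (Dir d), g = vo a + vo b}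

theorem zero_mem : (0 : Fin d → ℤ) ∈ B2 d := ⟨none, none, by simp [vo]⟩
theorem vec_mem (a : Dir d) : vec a ∈ B2 d := ⟨some a, none, by simp [vo]⟩
theorem vec2_mem (a b : Dir d) : vec a + vec b ∈ B2 d := ⟨some a, some b, rfl⟩

theorem finite_B2 : (B2 d).Finite := by
  refine (Set.finite_range fun p : Option (Dir d) × Option (Dir d) => vo p.1 + vo p.2).subset ?_
  rintro g ⟨a, b, rfl⟩
  exact ⟨(a, b), rfl⟩

/-- A chart of a rooted labelled graph: an isomorphism from the ball of radius two of `ℤ^d`. -/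
structure Chart {k : ℕ} (B : RG k) (ψ : (Fin d → ℤ) → B.W) : Prop where
  root : ψ 0 = B.root
  inj : ∀ g ∈ B2 d, ∀ h ∈ B2 d, ψ g = ψ h → g = h
  surj : ∀ w, ∃ g ∈ B2 d, ψ g = w
  adj : ∀ g ∈ B2 d, ∀ h ∈ B2 d, (B.G.Adj (ψ g) (ψ h) ↔ ∃ a, h = g + vec a)

/-- Labels: a colour, the direction towards the neighbour of given colour, a label. -/
abbrev LabG (N d : ℕ) := Fin N × (Fin N → Dir d) × Lab

/-- The conditions on a labelled ball of radius two. -/
def QG {N : ℕ} (i0 i1 : Fin d) (l : (Fin d → ℤ) → LabG N d) : Prop :=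
  (∀ a, (l 0).2.1 (l (vec a)).1 = a) ∧
  (∀ a b, (l (vec a)).2.1 (l (vec a + vec b)).1 = b) ∧
  RuleB (e_ i0) (e_ i1) (fun g => (l g).2.2)

/-- The allowed balls. -/
def GoodRG {N k : ℕ} (i0 i1 : Fin d) (e : Fin k ≃ LabG N d) (B : RG k) : Prop :=
  ∃ ψ : (Fin d → ℤ) → B.W, Chart B ψ ∧ QG i0 i1 (fun g => e (B.lab (ψ g)))

theorem GoodRG.iso {N k : ℕ} {i0 i1 : Fin d} {e : Fin k ≃ LabG N d} {A B : RG k}
    (h : RG.Iso A B) (hA : GoodRG i0 i1 e A) : GoodRG i0 i1 e B := by
  obtain ⟨φ, h1, h2⟩ := h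
  obtain ⟨ψ, hψ, hQ⟩ := hA
  refine ⟨fun g => φ (ψ g), ⟨?_, ?_, ?_, ?_⟩, ?_⟩
  · rw [hψ.root, h1]
  · intro g hg h hh e
    exact hψ.inj g hg h hh (φ.injective e)
  · intro w
    obtain ⟨g, hg, h⟩ := hψ.surj (φ.symm w)
    exact ⟨g, hg, by rw [h]; simp⟩
  · intro g hg h hh
    rw [← hψ.adj g hg h hh]
    exact φ.map_rel_iff
  · simp only [h2]
    exact hQ

theorem vo_mem (a : Option (Dir d)) : (vo a : Fin d → ℤ) ∈ B2 d := ⟨a, none, by simp [vo]⟩

theorem chart_ball {k : ℕ} {B : RG k} {ψ : (Fin d → ℤ) → B.W} (h : Chart B ψ) (w : B.W) :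
    w ∈ ball B.G 2 B.root := by
  obtain ⟨g, ⟨a, b, rfl⟩, rfl⟩ := h.surj w
  rw [← h.root]
  cases a with
  | none =>
    cases b with
    | none =>
      have e : (vo none + vo none : Fin d → ℤ) = 0 := by simp [vo]
      rw [e]
      exact ⟨.nil, by simp⟩
    | some b =>
      have e : (vo none + vo (some b) : Fin d → ℤ) = vec b := by simp [vo]
      rw [e]
      have h1 : B.G.Adj (ψ 0) (ψ (vec b)) :=
        (h.adj _ zero_mem _ (vec_mem b)).2 ⟨b, by simp⟩
      exact ⟨.cons h1 .nil, by simp⟩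
  | some a =>
    have h1 : B.G.Adj (ψ 0) (ψ (vec a)) :=
      (h.adj _ zero_mem _ (vec_mem a)).2 ⟨a, by simp⟩
    cases b with
    | none =>
      have e : (vo (some a) + vo none : Fin d → ℤ) = vec a := by simp [vo]
      rw [e]
      exact ⟨.cons h1 .nil, by simp⟩
    | some b =>
      have h2 : B.G.Adj (ψ (vec a)) (ψ (vec a + vec b)) :=
        (h.adj _ (vec_mem a) _ (vec2_mem a b)).2 ⟨b, rfl⟩
      exact ⟨.cons h1 (.cons h2 .nil), Nat.le_refl 2⟩

theorem chart_finite {k : ℕ} {B : RG k} {ψ : (Fin d → ℤ) → B.W} (h : Chart B ψ) :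
    Finite B.W := by
  have h1 : (Set.univ : Set B.W) ⊆ ψ '' B2 d := by
    intro w _
    obtain ⟨g, hg, e⟩ := h.surj w
    exact ⟨g, hg, e⟩
  exact Set.finite_univ_iff.1 ((finite_B2.image ψ).subset h1)

/-- The labelling problem. -/
def PB_ (N d : ℕ) (i0 i1 : Fin d) {k : ℕ} (e : Fin k ≃ LabG N d) : LCL where
  k := k
  r := 2
  P := {q | ∃ B, Quotient.mk (RG.setoid k) B = q ∧ GoodRG i0 i1 e B}
  small := by
    rintro B ⟨A, hA, hg⟩
    obtain ⟨ψ, hψ, -⟩ := GoodRG.iso (Quotient.exact hA) hg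
    exact ⟨chart_finite hψ, chart_ball hψ⟩

theorem solves_iff {N : ℕ} {i0 i1 : Fin d} {k : ℕ} {e : Fin k ≃ LabG N d} {V : Type}
    (G : SimpleGraph V) (Y : Set V) (f : V → Fin k) :
    (PB_ N d i0 i1 e).SolvesOn G Y f ↔ ∀ v ∈ Y, GoodRG i0 i1 e (ballRG G 2 f v) := by
  constructor
  · intro h v hv
    obtain ⟨A, hA, hg⟩ := h v hv
    exact GoodRG.iso (Quotient.exact hA) hg
  · intro h v hv
    exact ⟨_, rfl, h v hv⟩

end Dir

section Shift
variable {d : ℕ}

theorem adj_iff (x y : FreePart d) : (shiftGraph d).Adj x y ↔ ∃ a : Dir d, y = act (vec a) x := by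
  constructor
  · rintro ⟨i, h | h⟩
    · exact ⟨(i, true), Subtype.ext (by rw [h]; rfl)⟩
    · exact ⟨(i, false), Subtype.ext (by rw [h]; rfl)⟩
  · rintro ⟨⟨i, s⟩, rfl⟩
    cases s
    · exact ⟨i, Or.inr rfl⟩
    · exact ⟨i, Or.inl rfl⟩

theorem mem_ball_iff (x y : FreePart d) :
    y ∈ ball (shiftGraph d) 2 x ↔ ∃ g ∈ B2 d, y = act g x := by
  constructor
  · rintro ⟨p, hp⟩
    cases p with
    | nil => exact ⟨0, zero_mem, (act_zero x).symm⟩
    | cons h p =>
      obtain ⟨a, rfl⟩ := (adj_iff _ _).1 h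
      cases p with
      | nil => exact ⟨_, vec_mem a, rfl⟩
      | cons h' p =>
        obtain ⟨b, rfl⟩ := (adj_iff _ _).1 h'
        cases p with
        | nil => exact ⟨_, vec2_mem b a, by rw [act_act]⟩
        | cons h'' p =>
          simp at hp
  · rintro ⟨g, ⟨a, b, rfl⟩, rfl⟩
    have h1 : ∀ (c : Dir d) (z : FreePart d), (shiftGraph d).Adj z (act (vec c) z) :=
      fun c z => (adj_iff _ _).2 ⟨c, rfl⟩
    cases a with
    | none =>
      cases b with
      | none =>
        have e : (vo none + vo none : Fin d → ℤ) = 0 := by simp [vo]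
        rw [e, act_zero]
        exact ⟨.nil, by simp⟩
      | some b =>
        have e : (vo none + vo (some b) : Fin d → ℤ) = vec b := by simp [vo]
        rw [e]
        exact ⟨.cons (h1 b x) .nil, by simp⟩
    | some a =>
      cases b with
      | none =>
        have e : (vo (some a) + vo none : Fin d → ℤ) = vec a := by simp [vo]
        rw [e]
        exact ⟨.cons (h1 a x) .nil, by simp⟩
      | some b =>
        have h2 := h1 a (act (vec b) x)
        rw [act_act] at h2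
        exact ⟨.cons (h1 b x) (.cons h2 .nil), Nat.le_refl 2⟩

end Shift

end Pool.Agent.W927
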