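import Pool.Agent.W927.Glob

/-!
Families of squares covering almost every cell.
-/

namespace Pool.Agent.W927

open MeasureTheory Filter Topology

section Sep

variable {d : ℕ} (i0 i1 : Fin d)

/-- Move inside the plane. -/
def mv (p q : ℤ) (x : FreePart d) : FreePart d := act (pl i0 i1 p q) x

theorem mv_mv (p q p' q' : ℤ) (x : FreePart d) :
    mv i0 i1 p q (mv i0 i1 p' q' x) = mv i0 i1 (p + p') (q + q') x := by
  unfold mv; rw [act_act, pl_add]

theorem mv_zero (x : FreePart d) : mv i0 i1 0 0 x = x := by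
  unfold mv; rw [pl_zero, act_zero]

theorem measurable_mv (p q : ℤ) : Measurable (mv i0 i1 p q) := measurable_act _

/-- Separated sets. -/
def Sep (R : ℤ) (Y : Set (FreePart d)) : Prop :=
  ∀ x ∈ Y, ∀ p q : ℤ, -R ≤ p → p ≤ R → -R ≤ q → q ≤ R → mv i0 i1 p q x ∈ Y → p = 0 ∧ q = 0

/-- A countable cover by separated sets. -/
theorem exists_sep_cover (h01 : i0 ≠ i1) (R : ℕ) : ∃ A : ℕ → Set (FreePart d),
    (∀ n, MeasurableSet (A n)) ∧ (∀ n, Sep i0 i1 R (A n)) ∧ ∀ x, ∃ n, x ∈ A n := by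
  classical
  let B : Finset (Fin d → ℤ) × Finset (Fin d → ℤ) → Set (FreePart d) := fun NE =>
    {x | (∀ h ∈ NE.1, (x.1 h = true ↔ h ∈ NE.2)) ∧
      ∀ p q : ℤ, (-(R : ℤ) ≤ p ∧ p ≤ R ∧ -(R : ℤ) ≤ q ∧ q ≤ R) → ¬ (p = 0 ∧ q = 0) →
        ∃ h ∈ NE.1, x.1 (h + pl i0 i1 p q) ≠ x.1 h}
  have hcoord : ∀ h : Fin d → ℤ, Measurable fun x : FreePart d => x.1 h := fun h =>
    (measurable_pi_apply h).comp measurable_subtype_coe
  have hB : ∀ NE, MeasurableSet (B NE) := by
    intro NE
    refine measurableSet_setOfPred.2 (Measurable.and ?_ ?_)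
    · refine Measurable.forall fun h => measurable_const.imp (Measurable.iff ?_ measurable_const)
      exact measurableSet_setOfPred.1 (hcoord h (MeasurableSet.singleton true))
    · refine Measurable.forall fun p => Measurable.forall fun q => measurable_const.imp
        (measurable_const.imp (Measurable.exists fun h => measurable_const.and ?_))
      exact (measurableSet_setOfPred.1 (measurableSet_eq_fun (hcoord _) (hcoord _))).not
  have hsep : ∀ NE, Sep i0 i1 R (B NE) := by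
    intro NE x hx p q h1 h2 h3 h4 hy
    by_contra hne
    obtain ⟨h, hh, hne'⟩ := hx.2 p q ⟨h1, h2, h3, h4⟩ hne
    have e1 := hx.1 h hh
    have e2 := hy.1 h hh
    apply hne'
    have e3 : (mv i0 i1 p q x).1 h = x.1 (h + pl i0 i1 p q) := rfl
    rw [e3] at e2
    have e4 := e2.trans e1.symm
    exact Bool.eq_iff_iff.2 e4
  have hcov : ∀ x, ∃ NE, x ∈ B NE := by
    intro x
    have h1 : ∀ u : ℤ × ℤ, ∃ h : Fin d → ℤ, ¬ (u.1 = 0 ∧ u.2 = 0) →
        x.1 (h + pl i0 i1 u.1 u.2) ≠ x.1 h := by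
      intro u
      by_cases hu : u.1 = 0 ∧ u.2 = 0
      · exact ⟨0, fun h => absurd hu h⟩
      · have h2 : pl i0 i1 u.1 u.2 ≠ 0 := by
          intro h3
          rw [← pl_zero (i0 := i0) (i1 := i1)] at h3
          exact hu (pl_inj h01 h3)
        have h4 := x.2 _ h2
        by_contra hcon
        push Not at hcon
        apply h4
        funext k
        exact (hcon k).2
    choose f hf using h1
    set N : Finset (Fin d → ℤ) :=
      (Finset.Icc (-(R : ℤ)) R ×ˢ Finset.Icc (-(R : ℤ)) R).image f with hN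
    refine ⟨(N, N.filter fun h => x.1 h = true), ?_, ?_⟩
    · intro h hh
      simp only [Finset.mem_filter]
      exact ⟨fun k => ⟨hh, k⟩, fun k => k.2⟩
    · intro p q hpq hne
      refine ⟨f (p, q), ?_, hf (p, q) hne⟩
      refine Finset.mem_image_of_mem f ?_
      simp only [Finset.mem_product, Finset.mem_Icc]
      omega
  obtain ⟨g, hg⟩ := exists_surjective_nat (Finset (Fin d → ℤ) × Finset (Fin d → ℤ))
  refine ⟨fun n => B (g n), fun n => hB _, fun n => hsep _, fun x => ?_⟩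
  obtain ⟨NE, h⟩ := hcov x
  obtain ⟨n, rfl⟩ := hg NE
  exact ⟨n, h⟩

/-- Neighbourhood of a set. -/
def Nb (R : ℤ) (Y : Set (FreePart d)) : Set (FreePart d) :=
  {x | ∃ p q : ℤ, (-R ≤ p ∧ p ≤ R ∧ -R ≤ q ∧ q ≤ R) ∧ mv i0 i1 p q x ∈ Y}

theorem measurableSet_Nb {R : ℤ} {Y : Set (FreePart d)} (hY : MeasurableSet Y) :
    MeasurableSet (Nb i0 i1 R Y) :=
  measurableSet_setOfPred.2 (Measurable.exists fun p => Measurable.exists fun q =>
    measurable_const.and (measurableSet_setOfPred.1 (measurable_mv i0 i1 p q hY)))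

theorem exists_max_sep (h01 : i0 ≠ i1) (R : ℕ) : ∃ Y : Set (FreePart d),
    MeasurableSet Y ∧ Sep i0 i1 R Y ∧ ∀ x, x ∈ Nb i0 i1 R Y := by
  classical
  obtain ⟨A, hA, hsep, hcov⟩ := exists_sep_cover i0 i1 h01 R
  let U : ℕ → Set (FreePart d) := fun n => Nat.rec ∅ (fun n Un => Un ∪ (A n \ Nb i0 i1 R Un)) n
  have hU0 : U 0 = ∅ := rfl
  have hUs : ∀ n, U (n + 1) = U n ∪ (A n \ Nb i0 i1 R (U n)) := fun n => rfl
  have hUm : ∀ n, MeasurableSet (U n) := by
    intro n
    induction n with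
    | zero => exact MeasurableSet.empty
    | succ n ih =>
      rw [hUs]
      exact ih.union ((hA n).diff (measurableSet_Nb i0 i1 ih))
  have hmono : Monotone U := monotone_nat_of_le_succ fun n => by
    rw [hUs]; exact Set.subset_union_left
  have hUsep : ∀ n, Sep i0 i1 R (U n) := by
    intro n
    induction n with
    | zero => intro x hx; exact absurd hx (Set.notMem_empty _)
    | succ n ih =>
      rw [hUs]
      rintro x (hx | hx) p q h1 h2 h3 h4 (hy | hy)
      · exact ih x hx p q h1 h2 h3 h4 hy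
      · exfalso
        apply hy.2
        refine ⟨-p, -q, by omega, ?_⟩
        rw [mv_mv, neg_add_cancel, neg_add_cancel, mv_zero]
        exact hx
      · exfalso
        exact hx.2 ⟨p, q, by omega, hy⟩
      · exact hsep n x hx.1 p q h1 h2 h3 h4 hy.1
  refine ⟨⋃ n, U n, MeasurableSet.iUnion hUm, ?_, fun x => ?_⟩
  · intro x hx p q h1 h2 h3 h4 hy
    obtain ⟨n, hn⟩ := Set.mem_iUnion.1 hx
    obtain ⟨m, hm⟩ := Set.mem_iUnion.1 hy
    exact hUsep (max n m) x (hmono (le_max_left _ _) hn) p q h1 h2 h3 h4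
      (hmono (le_max_right _ _) hm)
  · obtain ⟨n, hn⟩ := hcov x
    by_cases hx : x ∈ Nb i0 i1 R (U n)
    · obtain ⟨p, q, h, h'⟩ := hx
      exact ⟨p, q, h, Set.mem_iUnion.2 ⟨n, h'⟩⟩
    · refine ⟨0, 0, by omega, ?_⟩
      rw [mv_zero]
      refine Set.mem_iUnion.2 ⟨n + 1, ?_⟩
      rw [hUs]
      exact Or.inr ⟨hn, hx⟩

/-- Cells covered by the squares of radius `s` around the points of `C`. -/
def Qc (s : ℤ) (C : Set (FreePart d)) : Set (FreePart d) :=
  {x | ∃ p q : ℤ, (p - s ≤ 0 ∧ 0 < p + s ∧ q - s ≤ 0 ∧ 0 < q + s) ∧ mv i0 i1 p q x ∈ C}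

/-- The distance of `(p, q)` to the boundary of the square of radius `s` is at most `r`. -/
def Near (p q s r : ℤ) : Prop :=
  -(s + r) ≤ p ∧ p ≤ s + r ∧ -(s + r) ≤ q ∧ q ≤ s + r ∧
    (p ≤ -(s - r) ∨ s - r ≤ p ∨ q ≤ -(s - r) ∨ s - r ≤ q)

/-- Points within distance `r` of the boundary of a square of radius `s`. -/
def Dc (s r : ℤ) (C : Set (FreePart d)) : Set (FreePart d) :=
  {x | ∃ p q : ℤ, Near p q s r ∧ mv i0 i1 p q x ∈ C}

theorem measurableSet_Qc {s : ℤ} {C : Set (FreePart d)} (hC : MeasurableSet C) :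
    MeasurableSet (Qc i0 i1 s C) :=
  measurableSet_setOfPred.2 (Measurable.exists fun p => Measurable.exists fun q =>
    measurable_const.and (measurableSet_setOfPred.1 (measurable_mv i0 i1 p q hC)))

theorem measurableSet_Dc {s r : ℤ} {C : Set (FreePart d)} (hC : MeasurableSet C) :
    MeasurableSet (Dc i0 i1 s r C) :=
  measurableSet_setOfPred.2 (Measurable.exists fun p => Measurable.exists fun q =>
    measurable_const.and (measurableSet_setOfPred.1 (measurable_mv i0 i1 p q hC)))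

/-- One greedy step. -/
theorem greedy_step (h01 : i0 ≠ i1) (ν : Measure (FreePart d)) [IsFiniteMeasure ν]
    (K : Set (FreePart d)) (r S0 : ℕ) {ε : ℝ} (hε : 0 < ε) :
    ∃ (s : ℕ) (C : Set (FreePart d)), S0 ≤ s ∧ MeasurableSet C ∧ Sep i0 i1 (2 * s) C ∧
      ν.real K ≤ 81 * ν.real (K ∩ Qc i0 i1 s C) ∧ ν.real (Dc i0 i1 s r C) ≤ ε := by
  classical
  -- number of candidate radii
  obtain ⟨J, hJ0, hJ⟩ : ∃ J : ℕ, 0 < J ∧ ν.real Set.univ / ε < J := by
    obtain ⟨J, hJ⟩ := exists_nat_gt (ν.real Set.univ / ε)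
    refine ⟨J + 1, by omega, hJ.trans ?_⟩
    push_cast; linarith
  set S : ℕ := S0 + J * (2 * r + 1) + r + 1 with hS
  obtain ⟨Y, hY, hYsep, hYmax⟩ := exists_max_sep i0 i1 h01 (4 * S)
  let Cc : ℤ × ℤ → Set (FreePart d) := fun k => mv i0 i1 (S * k.1) (S * k.2) ⁻¹' Y
  have hCm : ∀ k, MeasurableSet (Cc k) := fun k => measurable_mv i0 i1 _ _ hY
  have hCsep : ∀ k, Sep i0 i1 (4 * S) (Cc k) := by
    intro k x hx p q h1 h2 h3 h4 hy
    have hx' : mv i0 i1 (S * k.1) (S * k.2) x ∈ Y := hx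
    have hy' : mv i0 i1 p q (mv i0 i1 (S * k.1) (S * k.2) x) ∈ Y := by
      have : mv i0 i1 (S * k.1) (S * k.2) (mv i0 i1 p q x) ∈ Y := hy
      rw [mv_mv, add_comm _ p, add_comm _ q] at this
      rw [mv_mv]
      exact this
    exact hYsep _ hx' p q (by push_cast; omega) (by push_cast; omega) (by push_cast; omega)
      (by push_cast; omega) hy'
  set F : Finset (ℤ × ℤ) := Finset.Icc (-4) 4 ×ˢ Finset.Icc (-4) 4 with hF
  have hFc : F.card = 81 := by rw [hF]; decide
  have hSpos : (0 : ℤ) < S := by rw [hS]; positivity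
  have hcov : K ⊆ ⋃ k ∈ F, (K ∩ Qc i0 i1 S (Cc k)) := by
    intro x hx
    obtain ⟨p, q, hpq, hm⟩ := hYmax x
    push_cast at hpq
    have ep := Int.emod_add_mul_ediv p S
    have eq' := Int.emod_add_mul_ediv q S
    have np := Int.emod_nonneg p hSpos.ne'
    have lp := Int.emod_lt_of_pos p hSpos
    have nq := Int.emod_nonneg q hSpos.ne'
    have lq := Int.emod_lt_of_pos q hSpos
    have bp : -4 ≤ p / S ∧ p / S ≤ 4 := by
      constructor
      · rw [Int.le_ediv_iff_mul_le hSpos]; linarith [hpq.1]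
      · have : p / S < 5 := by
          rw [Int.ediv_lt_iff_lt_mul hSpos]; linarith [hpq.2.1]
        omega
    have bq : -4 ≤ q / S ∧ q / S ≤ 4 := by
      constructor
      · rw [Int.le_ediv_iff_mul_le hSpos]; linarith [hpq.2.2.1]
      · have : q / S < 5 := by
          rw [Int.ediv_lt_iff_lt_mul hSpos]; linarith [hpq.2.2.2]
        omega
    refine Set.mem_iUnion₂.2 ⟨(p / S, q / S), ?_, hx, p % S, q % S, by omega, ?_⟩
    · rw [hF, Finset.mem_product, Finset.mem_Icc, Finset.mem_Icc]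
      exact ⟨bp, bq⟩
    · change mv i0 i1 (S * (p / S)) (S * (q / S)) (mv i0 i1 (p % S) (q % S) x) ∈ Y
      rw [mv_mv, add_comm _ (p % S), add_comm _ (q % S), ep, eq']
      exact hm
  obtain ⟨k, hkF, hk⟩ : ∃ k ∈ F, ν.real K ≤ 81 * ν.real (K ∩ Qc i0 i1 S (Cc k)) := by
    by_contra hcon
    push Not at hcon
    have h1 : ν.real K ≤ ∑ k ∈ F, ν.real (K ∩ Qc i0 i1 S (Cc k)) :=
      (measureReal_mono hcov (measure_ne_top _ _)).trans (measureReal_biUnion_finset_le _ _)
    have hne : F.Nonempty := by rw [← Finset.card_pos, hFc]; norm_num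
    have h2 : ∑ k ∈ F, 81 * ν.real (K ∩ Qc i0 i1 S (Cc k)) < ∑ _k ∈ F, ν.real K :=
      Finset.sum_lt_sum_of_nonempty hne hcon
    rw [← Finset.mul_sum, Finset.sum_const, hFc, nsmul_eq_mul] at h2
    push_cast at h2
    linarith
  -- choose the radius
  let sj : ℕ → ℕ := fun j => S + j * (2 * r + 1)
  have hsj : ∀ j < J, sj j + r < 2 * S := by
    intro j hj
    have : j * (2 * r + 1) ≤ J * (2 * r + 1) := Nat.mul_le_mul_right _ hj.le
    change S + j * (2 * r + 1) + r < 2 * S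
    omega
  have hdisj : ∀ j < J, ∀ j' < J, j < j' →
      Disjoint (Dc i0 i1 (sj j) r (Cc k)) (Dc i0 i1 (sj j') r (Cc k)) := by
    intro j hj j' hj' hjj
    rw [Set.disjoint_left]
    rintro x ⟨p, q, h1, h2⟩ ⟨p', q', h1', h2'⟩
    have g1 := hsj j hj
    have g2 := hsj j' hj'
    have g3 : sj j + 2 * r + 1 ≤ sj j' := by
      have : (j + 1) * (2 * r + 1) ≤ j' * (2 * r + 1) := Nat.mul_le_mul_right _ hjj
      change S + j * (2 * r + 1) + 2 * r + 1 ≤ S + j' * (2 * r + 1)
      rw [add_mul] at this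
      omega
    have h3 : mv i0 i1 (p' - p) (q' - q) (mv i0 i1 p q x) ∈ Cc k := by
      rw [mv_mv, sub_add_cancel, sub_add_cancel]
      exact h2'
    have h4 := hCsep k _ h2 (p' - p) (q' - q) (by unfold Near at *; omega)
      (by unfold Near at *; omega) (by unfold Near at *; omega) (by unfold Near at *; omega) h3
    have h5 : p' = p ∧ q' = q := by omega
    rw [h5.1, h5.2] at h1'
    unfold Near at *
    omega
  obtain ⟨j, hjJ, hj⟩ : ∃ j < J, ν.real (Dc i0 i1 (sj j) r (Cc k)) ≤ ε := by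
    by_contra hcon
    push Not at hcon
    have h1 : ∑ j ∈ Finset.range J, ν.real (Dc i0 i1 (sj j) r (Cc k)) ≤ ν.real Set.univ := by
      rw [← measureReal_biUnion_finset]
      · exact measureReal_mono (Set.subset_univ _)
      · intro a ha b hb hab
        rw [Finset.coe_range, Set.mem_Iio] at ha hb
        rcases lt_or_gt_of_ne hab with h | h
        · exact hdisj a ha b hb h
        · exact (hdisj b hb a ha h).symm
      · intro b _
        exact measurableSet_Dc i0 i1 (hCm k)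
    have h2 : ∑ _j ∈ Finset.range J, ε < ∑ j ∈ Finset.range J, ν.real (Dc i0 i1 (sj j) r (Cc k)) :=
      Finset.sum_lt_sum_of_nonempty (Finset.nonempty_range_iff.2 (by omega))
        (fun j hj => hcon j (Finset.mem_range.1 hj))
    rw [Finset.sum_const, Finset.card_range, nsmul_eq_mul] at h2
    rw [div_lt_iff₀ hε] at hJ
    linarith
  have g := hsj j hjJ
  refine ⟨sj j, Cc k, ?_, hCm k, ?_, hk.trans ?_, hj⟩
  · change S0 ≤ S + j * (2 * r + 1)
    omega
  · intro x hx p q h1 h2 h3 h4 hy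
    exact hCsep k x hx p q (by omega) (by omega) (by omega) (by omega) hy
  · have : K ∩ Qc i0 i1 S (Cc k) ⊆ K ∩ Qc i0 i1 (sj j) (Cc k) := by
      rintro x ⟨hx, p, q, h1, h2⟩
      have h5 : (S : ℤ) ≤ (sj j : ℤ) := by
        exact_mod_cast Nat.le_add_right S (j * (2 * r + 1))
      exact ⟨hx, p, q, by omega, h2⟩
    have h6 := measureReal_mono (μ := ν) this
    linarith

end Sep

end Pool.Agent.W927
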