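import Mathlib

/-!
Planar combinatorics of walls and islands on the square grid.
-/

namespace Pool.Agent.W927

/-- Labels of a horizontal unit edge: no wall, top side, bottom side. -/
inductive HL | n | t | b
  deriving DecidableEq

instance : Fintype HL := ⟨{.n, .t, .b}, by intro x; cases x <;> simp⟩

/-- Labels of a vertical unit edge: no wall, left side, right side. -/
inductive VL | n | l | r
  deriving DecidableEq

instance : Fintype VL := ⟨{.n, .l, .r}, by intro x; cases x <;> simp⟩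

/-- The vertex rule: which labels may appear on the left, right, lower and upper edge
of a vertex. -/
def okV (a a' : HL) (c d : VL) : Prop :=
  (a = .n ∧ a' = .n ∧ c = .n ∧ d = .n) ∨
  (a = .t ∧ a' = .t ∧ c = .n ∧ d = .n) ∨
  (a = .b ∧ a' = .b ∧ c = .n ∧ d = .n) ∨
  (a = .n ∧ a' = .n ∧ c = .l ∧ d = .l) ∨
  (a = .n ∧ a' = .n ∧ c = .r ∧ d = .r) ∨
  (a = .n ∧ a' = .t ∧ c = .l ∧ d = .n) ∨
  (a = .t ∧ a' = .n ∧ c = .r ∧ d = .n) ∨
  (a = .n ∧ a' = .b ∧ c = .n ∧ d = .l) ∨
  (a = .b ∧ a' = .n ∧ c = .n ∧ d = .r)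

instance (a a' : HL) (c d : VL) : Decidable (okV a a' c d) := by
  unfold okV; infer_instance

/-- All vertices of the plane obey the vertex rule. -/
def Walls (H : ℤ → ℤ → HL) (V : ℤ → ℤ → VL) : Prop :=
  ∀ i j, okV (H (i - 1) j) (H i j) (V i (j - 1)) (V i j)

/-- `[a, a+w] × [c, c+h]` is an island. -/
def Isl (H : ℤ → ℤ → HL) (V : ℤ → ℤ → VL) (a c w h : ℤ) : Prop :=
  0 < w ∧ 0 < h ∧
  (∀ i, a ≤ i → i < a + w → H i c = .b ∧ H i (c + h) = .t) ∧
  (∀ j, c ≤ j → j < c + h → V a j = .l ∧ V (a + w) j = .r)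

/-- The cell `(x, y)` is covered by some island. -/
def Encl (H : ℤ → ℤ → HL) (V : ℤ → ℤ → VL) (x y : ℤ) : Prop :=
  ∃ a c w h, Isl H V a c w h ∧ a ≤ x ∧ x < a + w ∧ c ≤ y ∧ y < c + h

/-- All lines of walls are finite in all four directions. -/
structure Fin4 (H : ℤ → ℤ → HL) (V : ℤ → ℤ → VL) : Prop where
  right : ∀ x y, ∃ k : ℕ, H (x + k) y = .n
  left : ∀ x y, ∃ k : ℕ, H (x - k) y = .n
  up : ∀ x y, ∃ k : ℕ, V x (y + k) = .n
  down : ∀ x y, ∃ k : ℕ, V x (y - k) = .n

theorem run_fwd {α : Type*} (f : ℤ → α) (c n : α) (hcn : c ≠ n) (a : ℤ) (h0 : f a = c)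
    (hF : ∃ k : ℕ, f (a + k) = n) (step : ∀ x, f x = c → f (x + 1) = c ∨ f (x + 1) = n) :
    ∃ w : ℤ, 0 < w ∧ (∀ i, a ≤ i → i < a + w → f i = c) ∧ f (a + w) = n := by
  classical
  have hk := Nat.find_spec hF
  set k := Nat.find hF with hkdef
  have hmin : ∀ m : ℕ, m < k → f (a + m) ≠ n := fun m hm => Nat.find_min hF hm
  have hall : ∀ m : ℕ, m < k → f (a + m) = c := by
    intro m
    induction m with
    | zero => intro _; simpa using h0
    | succ m ih =>
      intro hm
      have h1 := ih (by omega)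
      rcases step _ h1 with h | h
      · rw [← h]; push_cast; ring_nf
      · exact absurd (by rw [← h]; push_cast; ring_nf) (hmin (m + 1) hm)
  refine ⟨k, ?_, ?_, hk⟩
  · rcases Nat.eq_zero_or_pos k with h | h
    · rw [h] at hk
      simp only [Nat.cast_zero, add_zero] at hk
      exact absurd (h0.symm.trans hk) hcn
    · exact_mod_cast h
  · intro i h1 h2
    have := hall (i - a).toNat (by omega)
    rw [show a + ((i - a).toNat : ℤ) = i by omega] at this
    exact this

theorem run_bwd {α : Type*} (f : ℤ → α) (c n : α) (hcn : c ≠ n) (a : ℤ) (h0 : f a = c)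
    (hF : ∃ k : ℕ, f (a - k) = n) (step : ∀ x, f x = c → f (x - 1) = c ∨ f (x - 1) = n) :
    ∃ w : ℤ, 0 < w ∧ (∀ i, a - w < i → i ≤ a → f i = c) ∧ f (a - w) = n := by
  obtain ⟨w, hw, h1, h2⟩ := run_fwd (fun z => f (-z)) c n hcn (-a) (by simpa using h0)
    (by
      obtain ⟨k, hk⟩ := hF
      exact ⟨k, by simpa [sub_eq_add_neg, add_comm] using hk⟩)
    (by
      intro x hx
      have := step _ hx
      simpa [sub_eq_add_neg, add_comm] using this)
  refine ⟨w, hw, ?_, ?_⟩
  · intro i h3 h4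
    have := h1 (-i) (by omega) (by omega)
    simpa using this
  · simpa [sub_eq_add_neg, add_comm] using h2

section
variable {H : ℤ → ℤ → HL} {V : ℤ → ℤ → VL}

theorem okV_facts : ∀ (a a' : HL) (c d : VL), okV a a' c d →
    (a = .t → a' = .t ∨ a' = .n) ∧ (a' = .t → a = .t ∨ a = .n) ∧
    (a = .b → a' = .b ∨ a' = .n) ∧ (a' = .b → a = .b ∨ a = .n) ∧
    (c = .l → d = .l ∨ d = .n) ∧ (d = .l → c = .l ∨ c = .n) ∧
    (c = .r → d = .r ∨ d = .n) ∧ (d = .r → c = .r ∨ c = .n) ∧
    (a = .t → a' = .n → c = .r ∧ d = .n) ∧ (a' = .t → a = .n → c = .l ∧ d = .n) ∧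
    (a = .b → a' = .n → c = .n ∧ d = .r) ∧ (a' = .b → a = .n → c = .n ∧ d = .l) ∧
    (c = .l → d = .n → a = .n ∧ a' = .t) ∧ (d = .l → c = .n → a = .n ∧ a' = .b) ∧
    (c = .r → d = .n → a = .t ∧ a' = .n) ∧ (d = .r → c = .n → a = .b ∧ a' = .n) ∧
    (a ≠ .n → a' ≠ .n → c = .n ∧ d = .n) ∧ (c ≠ .n → d ≠ .n → a = .n ∧ a' = .n) ∧
    (a = .n → a' = .n → (c = .n ∧ d = .n) ∨ (c = .l ∧ d = .l) ∨ (c = .r ∧ d = .r)) ∧
    (c = .n → d = .n → (a = .n ∧ a' = .n) ∨ (a = .t ∧ a' = .t) ∨ (a = .b ∧ a' = .b)) := by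
  intro a a' c d h
  cases a <;> cases a' <;> cases c <;> cases d <;> simp_all [okV]

theorem run_t_right (hW : Walls H V) (hF : Fin4 H V) {x y : ℤ} (h : H x y = .t) :
    ∃ w : ℤ, 0 < w ∧ (∀ i, x ≤ i → i < x + w → H i y = .t) ∧ H (x + w) y = .n ∧
      V (x + w) (y - 1) = .r ∧ V (x + w) y = .n := by
  obtain ⟨w, hw, h1, h2⟩ := run_fwd (fun i => H i y) .t .n (by decide) x h (hF.right x y)
    (fun z hz => (okV_facts _ _ _ _ (by simpa using hW (z + 1) y)).1 hz)
  refine ⟨w, hw, h1, h2, ?_⟩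
  have h3 := okV_facts _ _ _ _ (hW (x + w) y)
  exact h3.2.2.2.2.2.2.2.2.1 (h1 _ (by omega) (by omega)) h2

theorem run_t_left (hW : Walls H V) (hF : Fin4 H V) {x y : ℤ} (h : H x y = .t) :
    ∃ w : ℤ, 0 < w ∧ (∀ i, x - w < i → i ≤ x → H i y = .t) ∧ H (x - w) y = .n ∧
      V (x - w + 1) (y - 1) = .l ∧ V (x - w + 1) y = .n := by
  obtain ⟨w, hw, h1, h2⟩ := run_bwd (fun i => H i y) .t .n (by decide) x h (hF.left x y)
    (fun z hz => (okV_facts _ _ _ _ (hW z y)).2.1 hz)
  refine ⟨w, hw, h1, h2, ?_⟩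
  have h3 := okV_facts _ _ _ _ (hW (x - w + 1) y)
  exact h3.2.2.2.2.2.2.2.2.2.1 (h1 _ (by omega) (by omega))
    (by rw [show x - w + 1 - 1 = x - w by ring]; exact h2)

theorem run_b_right (hW : Walls H V) (hF : Fin4 H V) {x y : ℤ} (h : H x y = .b) :
    ∃ w : ℤ, 0 < w ∧ (∀ i, x ≤ i → i < x + w → H i y = .b) ∧ H (x + w) y = .n ∧
      V (x + w) (y - 1) = .n ∧ V (x + w) y = .r := by
  obtain ⟨w, hw, h1, h2⟩ := run_fwd (fun i => H i y) .b .n (by decide) x h (hF.right x y)
    (fun z hz => (okV_facts _ _ _ _ (by simpa using hW (z + 1) y)).2.2.1 hz)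
  refine ⟨w, hw, h1, h2, ?_⟩
  have h3 := okV_facts _ _ _ _ (hW (x + w) y)
  exact h3.2.2.2.2.2.2.2.2.2.2.1 (h1 _ (by omega) (by omega)) h2

theorem run_b_left (hW : Walls H V) (hF : Fin4 H V) {x y : ℤ} (h : H x y = .b) :
    ∃ w : ℤ, 0 < w ∧ (∀ i, x - w < i → i ≤ x → H i y = .b) ∧ H (x - w) y = .n ∧
      V (x - w + 1) (y - 1) = .n ∧ V (x - w + 1) y = .l := by
  obtain ⟨w, hw, h1, h2⟩ := run_bwd (fun i => H i y) .b .n (by decide) x h (hF.left x y)
    (fun z hz => (okV_facts _ _ _ _ (hW z y)).2.2.2.1 hz)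
  refine ⟨w, hw, h1, h2, ?_⟩
  have h3 := okV_facts _ _ _ _ (hW (x - w + 1) y)
  exact h3.2.2.2.2.2.2.2.2.2.2.2.1 (h1 _ (by omega) (by omega))
    (by rw [show x - w + 1 - 1 = x - w by ring]; exact h2)

theorem run_l_up (hW : Walls H V) (hF : Fin4 H V) {x y : ℤ} (h : V x y = .l) :
    ∃ w : ℤ, 0 < w ∧ (∀ j, y ≤ j → j < y + w → V x j = .l) ∧ V x (y + w) = .n ∧
      H (x - 1) (y + w) = .n ∧ H x (y + w) = .t := by
  obtain ⟨w, hw, h1, h2⟩ := run_fwd (fun j => V x j) .l .n (by decide) y h (hF.up x y)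
    (fun z hz => (okV_facts _ _ _ _ (by simpa using hW x (z + 1))).2.2.2.2.1 hz)
  refine ⟨w, hw, h1, h2, ?_⟩
  have h3 := okV_facts _ _ _ _ (hW x (y + w))
  exact h3.2.2.2.2.2.2.2.2.2.2.2.2.1 (h1 _ (by omega) (by omega)) h2

theorem run_l_down (hW : Walls H V) (hF : Fin4 H V) {x y : ℤ} (h : V x y = .l) :
    ∃ w : ℤ, 0 < w ∧ (∀ j, y - w < j → j ≤ y → V x j = .l) ∧ V x (y - w) = .n ∧
      H (x - 1) (y - w + 1) = .n ∧ H x (y - w + 1) = .b := by
  obtain ⟨w, hw, h1, h2⟩ := run_bwd (fun j => V x j) .l .n (by decide) y h (hF.down x y)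
    (fun z hz => (okV_facts _ _ _ _ (hW x z)).2.2.2.2.2.1 hz)
  refine ⟨w, hw, h1, h2, ?_⟩
  have h3 := okV_facts _ _ _ _ (hW x (y - w + 1))
  exact h3.2.2.2.2.2.2.2.2.2.2.2.2.2.1 (h1 _ (by omega) (by omega))
    (by rw [show y - w + 1 - 1 = y - w by ring]; exact h2)

theorem run_r_up (hW : Walls H V) (hF : Fin4 H V) {x y : ℤ} (h : V x y = .r) :
    ∃ w : ℤ, 0 < w ∧ (∀ j, y ≤ j → j < y + w → V x j = .r) ∧ V x (y + w) = .n ∧
      H (x - 1) (y + w) = .t ∧ H x (y + w) = .n := by
  obtain ⟨w, hw, h1, h2⟩ := run_fwd (fun j => V x j) .r .n (by decide) y h (hF.up x y)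
    (fun z hz => (okV_facts _ _ _ _ (by simpa using hW x (z + 1))).2.2.2.2.2.2.1 hz)
  refine ⟨w, hw, h1, h2, ?_⟩
  have h3 := okV_facts _ _ _ _ (hW x (y + w))
  exact h3.2.2.2.2.2.2.2.2.2.2.2.2.2.2.1 (h1 _ (by omega) (by omega)) h2

theorem run_r_down (hW : Walls H V) (hF : Fin4 H V) {x y : ℤ} (h : V x y = .r) :
    ∃ w : ℤ, 0 < w ∧ (∀ j, y - w < j → j ≤ y → V x j = .r) ∧ V x (y - w) = .n ∧
      H (x - 1) (y - w + 1) = .b ∧ H x (y - w + 1) = .n := by
  obtain ⟨w, hw, h1, h2⟩ := run_bwd (fun j => V x j) .r .n (by decide) y h (hF.down x y)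
    (fun z hz => (okV_facts _ _ _ _ (hW x z)).2.2.2.2.2.2.2.1 hz)
  refine ⟨w, hw, h1, h2, ?_⟩
  have h3 := okV_facts _ _ _ _ (hW x (y - w + 1))
  exact h3.2.2.2.2.2.2.2.2.2.2.2.2.2.2.2.1 (h1 _ (by omega) (by omega))
    (by rw [show y - w + 1 - 1 = y - w by ring]; exact h2)


theorem run_unique {α : Type*} (f : ℤ → α) (u : α) {a w a' w' i0 : ℤ}
    (h1 : ∀ i, a ≤ i → i < a + w → f i = u) (h2 : f (a - 1) ≠ u) (h3 : f (a + w) ≠ u)
    (h1' : ∀ i, a' ≤ i → i < a' + w' → f i = u) (h2' : f (a' - 1) ≠ u) (h3' : f (a' + w') ≠ u)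
    (g1 : a ≤ i0) (g2 : i0 < a + w) (g1' : a' ≤ i0) (g2' : i0 < a' + w') :
    a = a' ∧ w = w' := by
  have e1 : ¬ a < a' := fun hlt => h2' (h1 _ (by omega) (by omega))
  have e2 : ¬ a' < a := fun hlt => h2 (h1' _ (by omega) (by omega))
  have e3 : ¬ a + w < a' + w' := fun hlt => h3 (h1' _ (by omega) (by omega))
  have e4 : ¬ a' + w' < a + w := fun hlt => h3' (h1 _ (by omega) (by omega))
  omega

theorem okV_facts2 : ∀ (a a' : HL) (c d : VL), okV a a' c d →
    (a' = .b → d = .l → a = .n ∧ c = .n) ∧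
    (a = .b → d = .r → a' = .n ∧ c = .n) ∧
    (a' = .t → c = .l → a = .n ∧ d = .n) ∧
    (a = .t → c = .r → a' = .n ∧ d = .n) ∧
    (d = .l → a = .n) ∧ (d = .r → a' = .n) ∧
    (a' = .b → c = .n) ∧ (a' = .t → d = .n) ∧
    (c = .l → a = .n) ∧ (c = .r → a' = .n) ∧
    (a = .b → c = .n) ∧ (a = .t → d = .n) ∧
    (c = .l → d = .l → a' = .n) ∧ (c = .r → d = .r → a = .n) ∧
    (a = .b → a' = .b → d = .n) ∧ (a = .t → a' = .t → c = .n) := by
  intro a a' c d h
  cases a <;> cases a' <;> cases c <;> cases d <;> simp_all [okV]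

namespace Isl

variable {a c w h : ℤ}

theorem corners (hW : Walls H V) (I : Isl H V a c w h) :
    (H (a - 1) c = .n ∧ V a (c - 1) = .n) ∧
    (H (a + w) c = .n ∧ V (a + w) (c - 1) = .n) ∧
    (H (a - 1) (c + h) = .n ∧ V a (c + h) = .n) ∧
    (H (a + w) (c + h) = .n ∧ V (a + w) (c + h) = .n) := by
  obtain ⟨hw, hh, h1, h2⟩ := I
  refine ⟨?_, ?_, ?_, ?_⟩
  · exact (okV_facts2 _ _ _ _ (hW a c)).1 (h1 a (by omega) (by omega)).1
      (h2 c (by omega) (by omega)).1
  · have := (okV_facts2 _ _ _ _ (hW (a + w) c)).2.1 (h1 _ (by omega) (by omega)).1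
      (h2 c (by omega) (by omega)).2
    exact this
  · exact (okV_facts2 _ _ _ _ (hW a (c + h))).2.2.1 (h1 a (by omega) (by omega)).2
      (h2 _ (by omega) (by omega)).1
  · exact (okV_facts2 _ _ _ _ (hW (a + w) (c + h))).2.2.2.1 (h1 _ (by omega) (by omega)).2
      (h2 _ (by omega) (by omega)).2

/-- Outside the left side there are no horizontal walls touching it. -/
theorem out_left (hW : Walls H V) (I : Isl H V a c w h) {j : ℤ} (h1 : c ≤ j) (h2 : j ≤ c + h) :
    H (a - 1) j = .n := by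
  rcases eq_or_lt_of_le h2 with h3 | h3
  · subst h3; exact (I.corners hW).2.2.1.1
  · exact (okV_facts2 _ _ _ _ (hW a j)).2.2.2.2.1 (I.2.2.2 j h1 h3).1

theorem out_right (hW : Walls H V) (I : Isl H V a c w h) {j : ℤ} (h1 : c ≤ j) (h2 : j ≤ c + h) :
    H (a + w) j = .n := by
  rcases eq_or_lt_of_le h2 with h3 | h3
  · subst h3; exact (I.corners hW).2.2.2.1
  · exact (okV_facts2 _ _ _ _ (hW (a + w) j)).2.2.2.2.2.1 (I.2.2.2 j h1 h3).2

theorem out_bot (hW : Walls H V) (I : Isl H V a c w h) {i : ℤ} (h1 : a ≤ i) (h2 : i ≤ a + w) :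
    V i (c - 1) = .n := by
  rcases eq_or_lt_of_le h2 with h3 | h3
  · subst h3; exact (I.corners hW).2.1.2
  · exact (okV_facts2 _ _ _ _ (hW i c)).2.2.2.2.2.2.1 (I.2.2.1 i h1 h3).1

theorem out_top (hW : Walls H V) (I : Isl H V a c w h) {i : ℤ} (h1 : a ≤ i) (h2 : i ≤ a + w) :
    V i (c + h) = .n := by
  rcases eq_or_lt_of_le h2 with h3 | h3
  · subst h3; exact (I.corners hW).2.2.2.2
  · exact (okV_facts2 _ _ _ _ (hW i (c + h))).2.2.2.2.2.2.2.1 (I.2.2.1 i h1 h3).2

theorem in_left (hW : Walls H V) (I : Isl H V a c w h) {j : ℤ} (h1 : c < j) (h2 : j < c + h) :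
    H a j = .n :=
  (okV_facts2 _ _ _ _ (hW a j)).2.2.2.2.2.2.2.2.2.2.2.2.1
    (I.2.2.2 _ (by omega) (by omega)).1 (I.2.2.2 _ (by omega) (by omega)).1

theorem in_right (hW : Walls H V) (I : Isl H V a c w h) {j : ℤ} (h1 : c < j) (h2 : j < c + h) :
    H (a + w - 1) j = .n :=
  (okV_facts2 _ _ _ _ (hW (a + w) j)).2.2.2.2.2.2.2.2.2.2.2.2.2.1
    (I.2.2.2 _ (by omega) (by omega)).2 (I.2.2.2 _ (by omega) (by omega)).2

theorem in_bot (hW : Walls H V) (I : Isl H V a c w h) {i : ℤ} (h1 : a < i) (h2 : i < a + w) :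
    V i c = .n :=
  (okV_facts2 _ _ _ _ (hW i c)).2.2.2.2.2.2.2.2.2.2.2.2.2.2.1
    (I.2.2.1 _ (by omega) (by omega)).1 (I.2.2.1 _ (by omega) (by omega)).1

theorem in_top (hW : Walls H V) (I : Isl H V a c w h) {i : ℤ} (h1 : a < i) (h2 : i < a + w) :
    V i (c + h - 1) = .n :=
  (okV_facts2 _ _ _ _ (hW i (c + h))).2.2.2.2.2.2.2.2.2.2.2.2.2.2.2
    (I.2.2.1 _ (by omega) (by omega)).2 (I.2.2.1 _ (by omega) (by omega)).2

end Isl

/-- `(p, q)` is a vertex of the boundary of the box. -/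
def OnB (a c w h p q : ℤ) : Prop :=
  a ≤ p ∧ p ≤ a + w ∧ c ≤ q ∧ q ≤ c + h ∧ (p = a ∨ p = a + w ∨ q = c ∨ q = c + h)

namespace Isl

variable {a c w h a' c' w' h' : ℤ}

theorem uniq_l (hW : Walls H V) (I : Isl H V a c w h) (I' : Isl H V a' c' w' h') {q : ℤ}
    (ha : a = a') (g1 : c ≤ q) (g2 : q < c + h) (g1' : c' ≤ q) (g2' : q < c' + h') :
    a = a' ∧ c = c' ∧ w = w' ∧ h = h' := by
  subst ha
  have k1 := I.corners hW
  have k2 := I'.corners hW
  obtain ⟨e1, e2⟩ := run_unique (V a) .l (i0 := q) (fun j x y => (I.2.2.2 j x y).1)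
    (by rw [k1.1.2]; decide) (by rw [k1.2.2.1.2]; decide)
    (fun j x y => (I'.2.2.2 j x y).1)
    (by rw [k2.1.2]; decide) (by rw [k2.2.2.1.2]; decide) g1 g2 g1' g2'
  subst e1 e2
  obtain ⟨e1, e2⟩ := run_unique (fun i => H i c) .b (i0 := a) (fun j x y => (I.2.2.1 j x y).1)
    (by simp only [k1.1.1]; decide) (by simp only [k1.2.1.1]; decide)
    (fun j x y => (I'.2.2.1 j x y).1)
    (by simp only [k2.1.1]; decide) (by simp only [k2.2.1.1]; decide)
    le_rfl (by have := I.1; omega) le_rfl (by have := I'.1; omega)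
  exact ⟨rfl, rfl, e2, rfl⟩

theorem uniq_b (hW : Walls H V) (I : Isl H V a c w h) (I' : Isl H V a' c' w' h') {p : ℤ}
    (hc : c = c') (g1 : a ≤ p) (g2 : p < a + w) (g1' : a' ≤ p) (g2' : p < a' + w') :
    a = a' ∧ c = c' ∧ w = w' ∧ h = h' := by
  subst hc
  have k1 := I.corners hW
  have k2 := I'.corners hW
  obtain ⟨e1, e2⟩ := run_unique (fun i => H i c) .b (i0 := p) (fun j x y => (I.2.2.1 j x y).1)
    (by simp only [k1.1.1]; decide) (by simp only [k1.2.1.1]; decide)
    (fun j x y => (I'.2.2.1 j x y).1)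
    (by simp only [k2.1.1]; decide) (by simp only [k2.2.1.1]; decide) g1 g2 g1' g2'
  subst e1 e2
  exact uniq_l hW I I' (q := c) rfl le_rfl (by have := I.2.1; omega) le_rfl
    (by have := I'.2.1; omega)

theorem uniq_t (hW : Walls H V) (I : Isl H V a c w h) (I' : Isl H V a' c' w' h') {p : ℤ}
    (hc : c + h = c' + h') (g1 : a ≤ p) (g2 : p < a + w) (g1' : a' ≤ p) (g2' : p < a' + w') :
    a = a' ∧ c = c' ∧ w = w' ∧ h = h' := by
  have k1 := I.corners hW
  have k2 := I'.corners hW
  rw [← hc] at k2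
  obtain ⟨e1, e2⟩ := run_unique (fun i => H i (c + h)) .t (i0 := p)
    (fun j x y => (I.2.2.1 j x y).2)
    (by simp only [k1.2.2.1.1]; decide) (by simp only [k1.2.2.2.1]; decide)
    (fun j x y => by simp only [hc]; exact (I'.2.2.1 j x y).2)
    (by simp only [k2.2.2.1.1]; decide) (by simp only [k2.2.2.2.1]; decide) g1 g2 g1' g2'
  subst e1 e2
  have := I.2.1
  have := I'.2.1
  exact uniq_l hW I I' (q := c + h - 1) rfl (by omega) (by omega) (by omega) (by omega)

theorem uniq_r (hW : Walls H V) (I : Isl H V a c w h) (I' : Isl H V a' c' w' h') {q : ℤ}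
    (ha : a + w = a' + w') (g1 : c ≤ q) (g2 : q < c + h) (g1' : c' ≤ q) (g2' : q < c' + h') :
    a = a' ∧ c = c' ∧ w = w' ∧ h = h' := by
  have k1 := I.corners hW
  have k2 := I'.corners hW
  rw [← ha] at k2
  obtain ⟨e1, e2⟩ := run_unique (V (a + w)) .r (i0 := q) (fun j x y => (I.2.2.2 j x y).2)
    (by rw [k1.2.1.2]; decide) (by rw [k1.2.2.2.2]; decide)
    (fun j x y => by rw [ha]; exact (I'.2.2.2 j x y).2)
    (by rw [k2.2.1.2]; decide) (by rw [k2.2.2.2.2]; decide) g1 g2 g1' g2'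
  subst e1 e2
  have := I.1
  have := I'.1
  exact uniq_b hW I I' (p := a + w - 1) rfl (by omega) (by omega) (by omega) (by omega)

/-- Position facts for a boundary vertex. -/
theorem pos (hW : Walls H V) (I : Isl H V a c w h) {p q : ℤ} (hB : OnB a c w h p q) :
    (H p q = .t → q = c + h ∧ p < a + w) ∧ (H p q = .b → q = c ∧ p < a + w) ∧
    (V p q = .l → p = a ∧ q < c + h) ∧ (V p q = .r → p = a + w ∧ q < c + h) ∧
    (H (p - 1) q = .t → q = c + h ∧ a < p) ∧ (H (p - 1) q = .b → q = c ∧ a < p) ∧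
    (V p (q - 1) = .l → p = a ∧ c < q) ∧ (V p (q - 1) = .r → p = a + w ∧ c < q) ∧
    ¬ (H p q = .n ∧ V p q = .n ∧ H (p - 1) q = .n ∧ V p (q - 1) = .n) := by
  obtain ⟨b1, b2, b3, b4, b5⟩ := hB
  have hw := I.1
  have hh := I.2.1
  have K := I.corners hW
  by_cases p1 : p = a
  · subst p1
    have ol := I.out_left hW b3 b4
    rcases eq_or_lt_of_le b3 with q1 | q1
    · subst q1
      have t1 := (I.2.2.1 p le_rfl (by omega)).1
      have t2 := (I.2.2.2 c le_rfl (by omega)).1
      simp [ol, t1, t2, K.1.2]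
      omega
    · rcases eq_or_lt_of_le b4 with q2 | q2
      · subst q2
        have t1 := (I.2.2.1 p le_rfl (by omega)).2
        have t2 := (I.2.2.2 (c + h - 1) (by omega) (by omega)).1
        simp [ol, t1, t2, K.2.2.1.2]
        omega
      · have t1 := (I.2.2.2 q (by omega) (by omega)).1
        have t2 := (I.2.2.2 (q - 1) (by omega) (by omega)).1
        have t3 := I.in_left hW q1 q2
        simp [ol, t1, t2, t3]
        omega
  by_cases p2 : p = a + w
  · subst p2
    have ol := I.out_right hW b3 b4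
    rcases eq_or_lt_of_le b3 with q1 | q1
    · subst q1
      have t1 := (I.2.2.1 (a + w - 1) (by omega) (by omega)).1
      have t2 := (I.2.2.2 c le_rfl (by omega)).2
      simp [ol, t1, t2, K.2.1.2]
      omega
    · rcases eq_or_lt_of_le b4 with q2 | q2
      · subst q2
        have t1 := (I.2.2.1 (a + w - 1) (by omega) (by omega)).2
        have t2 := (I.2.2.2 (c + h - 1) (by omega) (by omega)).2
        simp [ol, t1, t2, K.2.2.2.2]
        omega
      · have t1 := (I.2.2.2 q (by omega) (by omega)).2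
        have t2 := (I.2.2.2 (q - 1) (by omega) (by omega)).2
        have t3 := I.in_right hW q1 q2
        simp [ol, t1, t2, t3]
        omega
  by_cases q1 : q = c
  · subst q1
    have ol := I.out_bot hW b1 b2
    have t1 := (I.2.2.1 p (by omega) (by omega)).1
    have t2 := (I.2.2.1 (p - 1) (by omega) (by omega)).1
    have t3 := I.in_bot hW (i := p) (by omega) (by omega)
    simp [ol, t1, t2, t3]
    omega
  · have q2 : q = c + h := by omega
    subst q2
    have ol := I.out_top hW b1 b2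
    have t1 := (I.2.2.1 p (by omega) (by omega)).2
    have t2 := (I.2.2.1 (p - 1) (by omega) (by omega)).2
    have t3 := I.in_top hW (i := p) (by omega) (by omega)
    simp [ol, t1, t2, t3]
    omega

theorem bdry_unique (hW : Walls H V) (I : Isl H V a c w h) (I' : Isl H V a' c' w' h') {p q : ℤ}
    (hB : OnB a c w h p q) (hB' : OnB a' c' w' h' p q) :
    a = a' ∧ c = c' ∧ w = w' ∧ h = h' := by
  obtain ⟨f1, f2, f3, f4, f5, f6, f7, f8, f9⟩ := I.pos hW hB
  obtain ⟨g1, g2, g3, g4, g5, g6, g7, g8, g9⟩ := I'.pos hW hB'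
  obtain ⟨b1, b2, b3, b4, -⟩ := hB
  obtain ⟨d1, d2, d3, d4, -⟩ := hB'
  cases e1 : H p q with
  | t =>
    have u := f1 e1
    have u' := g1 e1
    exact uniq_t hW I I' (p := p) (by omega) (by omega) (by omega) (by omega) (by omega)
  | b =>
    have u := f2 e1
    have u' := g2 e1
    exact uniq_b hW I I' (p := p) (by omega) (by omega) (by omega) (by omega) (by omega)
  | n =>
    cases e2 : V p q with
    | l =>
      have u := f3 e2
      have u' := g3 e2
      exact uniq_l hW I I' (q := q) (by omega) (by omega) (by omega) (by omega) (by omega)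
    | r =>
      have u := f4 e2
      have u' := g4 e2
      exact uniq_r hW I I' (q := q) (by omega) (by omega) (by omega) (by omega) (by omega)
    | n =>
      cases e3 : H (p - 1) q with
      | t =>
        have u := f5 e3
        have u' := g5 e3
        exact uniq_t hW I I' (p := p - 1) (by omega) (by omega) (by omega) (by omega) (by omega)
      | b =>
        have u := f6 e3
        have u' := g6 e3
        exact uniq_b hW I I' (p := p - 1) (by omega) (by omega) (by omega) (by omega) (by omega)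
      | n =>
        cases e4 : V p (q - 1) with
        | l =>
          have u := f7 e4
          have u' := g7 e4
          exact uniq_l hW I I' (q := q - 1) (by omega) (by omega) (by omega) (by omega) (by omega)
        | r =>
          have u := f8 e4
          have u' := g8 e4
          exact uniq_r hW I I' (q := q - 1) (by omega) (by omega) (by omega) (by omega) (by omega)
        | n => exact absurd ⟨e1, e2, e3, e4⟩ f9

/-- Two islands whose closed boxes meet are equal or strictly nested. -/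
theorem laminar (hW : Walls H V) (I : Isl H V a c w h) (I' : Isl H V a' c' w' h')
    (x1 : a ≤ a' + w') (x2 : a' ≤ a + w) (x3 : c ≤ c' + h') (x4 : c' ≤ c + h) :
    (a = a' ∧ c = c' ∧ w = w' ∧ h = h') ∨
    (a < a' ∧ a' + w' < a + w ∧ c < c' ∧ c' + h' < c + h) ∨
    (a' < a ∧ a + w < a' + w' ∧ c' < c ∧ c + h < c' + h') := by
  by_contra hcon
  have hw := I.1
  have hh := I.2.1
  have hw' := I'.1
  have hh' := I'.2.1
  have key : ∀ p q, ¬ (OnB a c w h p q ∧ OnB a' c' w' h' p q) := fun p q u =>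
    hcon (Or.inl (bdry_unique hW I I' u.1 u.2))
  have k1 := key a c'
  have k2 := key a (c' + h')
  have k3 := key (a + w) c'
  have k4 := key (a + w) (c' + h')
  have k5 := key a' c
  have k6 := key a' (c + h)
  have k7 := key (a' + w') c
  have k8 := key (a' + w') (c + h)
  unfold OnB at *
  omega

end Isl

theorem closure_aux (hW : Walls H V) (hF : Fin4 H V) : ∀ n : ℕ, ∀ a t w : ℤ, w ≤ n → 0 < w →
    (∀ i, a ≤ i → i < a + w → H i t = .t) → H (a + w) t = .n → V a (t - 1) = .l →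
    ∃ h, 0 < h ∧ Isl H V a (t - h) w h := by
  intro n
  induction n with
  | zero => intro a t w h1 h2; push_cast at h1; omega
  | succ n IH =>
    intro a t w hwn hw htop hend hleft
    push_cast at hwn
    obtain ⟨p, hp, hl, -, -, hbl⟩ := run_l_down hW hF hleft
    have hl' : ∀ j, t - p ≤ j → j < t → V a j = .l := fun j x y => hl j (by omega) (by omega)
    replace hbl : H a (t - p) = .b := by rw [← hbl]; congr 1; ring
    have hr0 : V (a + w) (t - 1) = .r :=
      ((okV_facts _ _ _ _ (hW (a + w) t)).2.2.2.2.2.2.2.2.1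
        (htop _ (by omega) (by omega)) hend).1
    obtain ⟨q, hq, hr, -, hbr, hbr2⟩ := run_r_down hW hF hr0
    have hr' : ∀ j, t - q ≤ j → j < t → V (a + w) j = .r := fun j x y =>
      hr j (by omega) (by omega)
    replace hbr : H (a + w - 1) (t - q) = .b := by rw [← hbr]; congr 1; ring
    replace hbr2 : H (a + w) (t - q) = .n := by rw [← hbr2]; congr 1; ring
    -- interior facts
    have intT : ∀ i, a < i → i < a + w → V i (t - 1) = .n := fun i x y =>
      (okV_facts2 _ _ _ _ (hW i t)).2.2.2.2.2.2.2.2.2.2.2.2.2.2.2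
        (htop _ (by omega) (by omega)) (htop _ (by omega) (by omega))
    have intL : ∀ j, t - p < j → j < t → H a j = .n := fun j x y =>
      (okV_facts2 _ _ _ _ (hW a j)).2.2.2.2.2.2.2.2.2.2.2.2.1
        (hl' _ (by omega) (by omega)) (hl' _ (by omega) (by omega))
    have intR : ∀ j, t - q < j → j < t → H (a + w - 1) j = .n := fun j x y =>
      (okV_facts2 _ _ _ _ (hW (a + w) j)).2.2.2.2.2.2.2.2.2.2.2.2.2.1
        (hr' _ (by omega) (by omega)) (hr' _ (by omega) (by omega))
    by_cases hpq : p ≤ q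
    · obtain ⟨u, hu, hb, hbe, hbv, hbv2⟩ := run_b_right hW hF hbl
      have hpq' : u < w ∨ (u = w ∧ p = q) := by
        by_contra hcon
        have h1 : w ≤ u := by omega
        have h2 : H (a + w - 1) (t - p) = .b := hb _ (by omega) (by omega)
        by_cases h3 : p = q
        · have h4 : w < u := by omega
          have h5 := hb (a + w) (by omega) (by omega)
          rw [h3, hbr2] at h5
          cases h5
        · rw [intR (t - p) (by omega) (by omega)] at h2
          cases h2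
      rcases hpq' with hlt | ⟨h1, h2⟩
      · exfalso
        obtain ⟨r', hr'0, hr1, hr2, hr3, hr4⟩ := run_r_up hW hF hbv2
        have hrp : r' < p := by
          by_contra hcon
          have h1 := hr1 (t - 1) (by omega) (by omega)
          rw [intT (a + u) (by omega) (by omega)] at h1
          cases h1
        obtain ⟨u', hu', ht1, ht2, ht3, ht4⟩ := run_t_left hW hF hr3
        have huu : u' < u := by
          by_contra hcon
          have h1 := ht1 a (by omega) (by omega)
          rw [intL (t - p + r') (by omega) (by omega)] at h1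
          cases h1
        obtain ⟨h'', hh'', J⟩ := IH (a + u - u') (t - p + r') u' (by omega) hu'
          (fun i x y => ht1 i (by omega) (by omega))
          (by rw [← hr4]; congr 1; ring)
          (by rw [← ht3]; congr 1; ring)
        have K := J.corners hW
        have e1 : V (a + u) (t - p + r' - h'' - 1) = .n := by
          rw [← K.2.1.2]; congr 1; ring
        have e2 : t - p + r' - h'' = t - p := by
          by_contra hne
          rcases lt_or_gt_of_ne hne with hlt' | hgt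
          · have h1 := (J.2.2.2 (t - p - 1) (by omega) (by omega)).2
            rw [show a + u - u' + u' = a + u by ring, hbv] at h1
            cases h1
          · have h1 := hr1 (t - p + r' - h'' - 1) (by omega) (by omega)
            rw [e1] at h1
            cases h1
        have h1 := K.1.1
        rw [e2, hb _ (by omega) (by omega)] at h1
        cases h1
      · subst h1 h2
        refine ⟨p, hp, hw, hp, fun i x y => ⟨hb i x y, ?_⟩, fun j x y => ⟨hl' j x (by omega),
          hr' j x (by omega)⟩⟩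
        rw [show t - p + p = t by ring]
        exact htop i x y
    · exfalso
      obtain ⟨u, hu, hb, hbe, hbv, hbv2⟩ := run_b_left hW hF hbr
      have huw : u < w := by
        by_contra hcon
        have h1 := hb a (by omega) (by omega)
        rw [intL (t - q) (by omega) (by omega)] at h1
        cases h1
      obtain ⟨r', hr'0, hr1, hr2, hr3, hr4⟩ := run_l_up hW hF hbv2
      have hrp : r' < q := by
        by_contra hcon
        have h1 := hr1 (t - 1) (by omega) (by omega)
        rw [intT (a + w - 1 - u + 1) (by omega) (by omega)] at h1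
        cases h1
      obtain ⟨u', hu', ht1, ht2, ht3, ht4⟩ := run_t_right hW hF hr4
      have huu : u' < u := by
        by_contra hcon
        have h1 := ht1 (a + w - 1) (by omega) (by omega)
        rw [intR (t - q + r') (by omega) (by omega)] at h1
        cases h1
      obtain ⟨h'', hh'', J⟩ := IH (a + w - 1 - u + 1) (t - q + r') u' (by omega) hu'
        (fun i x y => ht1 i (by omega) (by omega)) ht2
        (hr1 _ (by omega) (by omega))
      have K := J.corners hW
      have e1 := K.1.2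
      have e2 : t - q + r' - h'' = t - q := by
        by_contra hne
        rcases lt_or_gt_of_ne hne with hlt' | hgt
        · have h1 := (J.2.2.2 (t - q - 1) (by omega) (by omega)).1
          rw [hbv] at h1
          cases h1
        · have h1 := hr1 (t - q + r' - h'' - 1) (by omega) (by omega)
          rw [e1] at h1
          cases h1
      have h1 := K.2.1.1
      rw [e2, hb _ (by omega) (by omega)] at h1
      cases h1

/-- Every top left corner is the corner of an island. -/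
theorem closure_TL (hW : Walls H V) (hF : Fin4 H V) {a t : ℤ} (h1 : H a t = .t)
    (h2 : V a (t - 1) = .l) : ∃ w h, Isl H V a (t - h) w h := by
  obtain ⟨w, hw, k1, k2, -⟩ := run_t_right hW hF h1
  obtain ⟨h, -, I⟩ := closure_aux hW hF w.toNat a t w (by omega) hw k1 k2 h2
  exact ⟨w, h, I⟩

/-- Every left wall edge lies on the left side of an island. -/
theorem closure_l (hW : Walls H V) (hF : Fin4 H V) {x y : ℤ} (h1 : V x y = .l) :
    ∃ c w h, Isl H V x c w h ∧ c ≤ y ∧ y < c + h := by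
  obtain ⟨k, hk, k1, k2, k3, k4⟩ := run_l_up hW hF h1
  obtain ⟨w, h, I⟩ := closure_TL hW hF k4 (k1 _ (by omega) (by omega))
  have hh0 := I.2.1
  refine ⟨_, w, h, I, ?_, by omega⟩
  by_contra hcon
  have h3 := k1 (y + k - h - 1) (by omega) (by omega)
  rw [(I.corners hW).1.2] at h3
  cases h3

/-- Every right wall edge lies on the right side of an island. -/
theorem closure_r (hW : Walls H V) (hF : Fin4 H V) {x y : ℤ} (h1 : V x y = .r) :
    ∃ a c w h, Isl H V a c w h ∧ x = a + w ∧ c ≤ y ∧ y < c + h := by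
  obtain ⟨k, hk, k1, k2, k3, k4⟩ := run_r_up hW hF h1
  obtain ⟨u, hu, t1, t2, t3, t4⟩ := run_t_left hW hF k3
  have t5 := t1 (x - 1 - u + 1) (by omega) (by omega)
  obtain ⟨w, h, I⟩ := closure_TL hW hF t5 t3
  have hw : x = x - 1 - u + 1 + w := by
    have hw0 := I.1
    by_contra hne
    rcases lt_or_gt_of_ne hne with h3 | h3
    · have h4 := (I.2.2.1 x (by omega) (by omega)).2
      rw [show y + k - h + h = y + k by ring, k4] at h4
      cases h4
    · have h4 := t1 (x - 1 - u + 1 + w) (by omega) (by omega)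
      have h5 := (I.corners hW).2.2.2.1
      rw [show y + k - h + h = y + k by ring, h4] at h5
      cases h5
  have hh0 := I.2.1
  refine ⟨_, _, w, h, I, hw, ?_, by omega⟩
  by_contra hcon
  have h3 := k1 (y + k - h - 1) (by omega) (by omega)
  have h4 := (I.corners hW).2.1.2
  rw [← hw] at h4
  rw [h4] at h3
  cases h3

/-- Colour rules: colours of neighbouring cells differ unless a wall separates them. -/
structure Cols (H : ℤ → ℤ → HL) (V : ℤ → ℤ → VL) (C : ℤ → ℤ → Bool) : Prop where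
  hor : ∀ i j, V i j = .n → C i j = !C (i - 1) j
  ver : ∀ i j, H i j = .n → C i j = !C i (j - 1)

theorem alternate (f : ℤ → Bool) (x : ℤ) : ∀ n : ℕ,
    (∀ i, x < i → i ≤ x + n → f i = !f (i - 1)) → f (x + n) = xor (f x) n.bodd := by
  intro n
  induction n with
  | zero => intro _; simp
  | succ n ih =>
    intro h
    have h1 := ih (fun i a b => h i a (by push_cast; omega))
    have h2 := h (x + (n + 1 : ℕ)) (by push_cast; omega) le_rfl
    rw [h2, show x + ((n + 1 : ℕ) : ℤ) - 1 = x + n by push_cast; ring, h1, Nat.bodd_succ]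
    cases f x <;> cases n.bodd <;> rfl

theorem skip (hW : Walls H V) {C : ℤ → ℤ → Bool} (hC : Cols H V C) {a c h y : ℤ} {w : ℕ}
    (I : Isl H V a c w h) (h1 : c ≤ y) (h2 : y < c + h) :
    C (a + w) y = xor (C (a - 1) y) (w + 1).bodd := by
  have e1 := alternate (fun j => C (a - 1) j) (c - 1) (y - c + 1).toNat
    (fun j u v => hC.ver _ _ (I.out_left hW (by omega) (by omega)))
  have e2 := alternate (fun j => C (a + w) j) (c - 1) (y - c + 1).toNat
    (fun j u v => hC.ver _ _ (I.out_right hW (by omega) (by omega)))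
  have e3 := alternate (fun i => C i (c - 1)) (a - 1) (w + 1)
    (fun j u v => hC.hor _ _ (I.out_bot hW (by omega) (by push_cast at v; omega)))
  rw [show c - 1 + ((y - c + 1).toNat : ℤ) = y by omega] at e1 e2
  rw [show a - 1 + ((w + 1 : ℕ) : ℤ) = a + w by push_cast; ring] at e3
  rw [e2, e3, e1]
  cases C (a - 1) (c - 1) <;> cases (w + 1).bodd <;> cases (y - c + 1).toNat.bodd <;> rfl

/-- Colours of cells of one row that are not covered by islands alternate with distance. -/
theorem row_coh (hW : Walls H V) (hF : Fin4 H V) {C : ℤ → ℤ → Bool} (hC : Cols H V C) {y : ℤ} :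
    ∀ n : ℕ, ∀ x, ¬ Encl H V x y → ¬ Encl H V (x + n) y → C (x + n) y = xor (C x y) n.bodd := by
  intro n
  induction n using Nat.strong_induction_on with
  | _ n IH =>
    intro x hx hxn
    rcases Nat.eq_zero_or_pos n with h0 | h0
    · subst h0; simp
    cases e : V (x + 1) y with
    | n =>
      have h1 : ¬ Encl H V (x + 1) y := by
        rintro ⟨a, c, w, h, I, g1, g2, g3, g4⟩
        rcases eq_or_lt_of_le g1 with g5 | g5
        · rw [← g5, (I.2.2.2 y g3 g4).1] at e
          cases e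
        · exact hx ⟨a, c, w, h, I, by omega, by omega, g3, g4⟩
      have h2 := IH (n - 1) (by omega) (x + 1) h1
        (by rw [show x + 1 + ((n - 1 : ℕ) : ℤ) = x + n by omega]; exact hxn)
      rw [show x + 1 + ((n - 1 : ℕ) : ℤ) = x + n by omega, hC.hor _ _ e,
        show x + 1 - 1 = x by ring] at h2
      rw [h2]
      obtain ⟨m, rfl⟩ : ∃ m, n = m + 1 := ⟨n - 1, by omega⟩
      rw [Nat.add_sub_cancel, Nat.bodd_succ]
      cases C x y <;> cases m.bodd <;> rfl
    | l =>
      obtain ⟨c, w, h, I, g1, g2⟩ := closure_l hW hF e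
      have hw := I.1
      have hh := I.2.1
      have h1 : x + 1 + w ≤ x + n := by
        by_contra hcon
        exact hxn ⟨_, c, w, h, I, by omega, by omega, g1, g2⟩
      have h2 : ¬ Encl H V (x + 1 + w) y := by
        rintro ⟨a', c', w', h', I', k1, k2, k3, k4⟩
        rcases Isl.laminar hW I I' (by omega) (by omega) (by omega) (by omega) with k | k | k
        · omega
        · omega
        · exact hx ⟨_, _, _, _, I', by omega, by omega, by omega, by omega⟩
      obtain ⟨m, rfl⟩ : ∃ m : ℕ, w = m := ⟨w.toNat, by omega⟩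
      have h3 := skip hW hC I g1 g2
      obtain ⟨k, rfl⟩ : ∃ k : ℕ, n = k + m + 1 := ⟨n - m - 1, by omega⟩
      have h4 := IH k (by omega) (x + 1 + m) h2
        (by rw [show x + 1 + (m : ℤ) + (k : ℤ) = x + ((k + m + 1 : ℕ) : ℤ) by push_cast; ring]
            exact hxn)
      rw [show x + 1 + (m : ℤ) + (k : ℤ) = x + ((k + m + 1 : ℕ) : ℤ) by push_cast; ring, h3,
        show x + 1 - 1 = x by ring] at h4
      rw [h4, Nat.bodd_succ, Nat.bodd_succ, Nat.bodd_add]
      cases C x y <;> cases m.bodd <;> cases k.bodd <;> rfl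
    | r =>
      obtain ⟨a, c, w, h, I, g0, g1, g2⟩ := closure_r hW hF e
      have hw := I.1
      exact absurd ⟨a, c, w, h, I, by omega, by omega, g1, g2⟩ hx

/-- Marks used to charge every island. -/
inductive ML | n | t | r
  deriving DecidableEq

instance : Fintype ML := ⟨{.n, .t, .r}, by intro x; cases x <;> simp⟩

/-- Rules for marks. -/
structure Marks (H : ℤ → ℤ → HL) (V : ℤ → ℤ → VL) (M : ℤ → ℤ → ML) : Prop where
  t1 : ∀ i j, H i j = .t → M i j = .t
  t3 : ∀ i j, M i j = .t → M (i + 1) j = .t → M i (j + 1) = .t ∧ H i (j + 1) = .n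
  r1 : ∀ i j, V i j = .r → M i j = .r
  r3 : ∀ i j, M i j = .r → M i (j + 1) = .r → M (i + 1) j = .r ∧ V (i + 1) j = .n

theorem companion_t {M : ℤ → ℤ → ML} (hM : Marks H V M) {a c w h : ℤ} (I : Isl H V a c w h) :
    ∀ j : ℕ, ∀ i, a ≤ i → i + j < a + w →
      M i (c + h + j) = .t ∧ (0 < j → H i (c + h + j) = .n) := by
  intro j
  induction j with
  | zero =>
    intro i h1 h2
    refine ⟨hM.t1 _ _ ?_, by simp⟩
    simpa using (I.2.2.1 i h1 (by simpa using h2)).2
  | succ j ih =>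
    intro i h1 h2
    push_cast at h2
    have := hM.t3 i (c + h + j) (ih i h1 (by omega)).1 (ih (i + 1) (by omega) (by omega)).1
    rw [show c + h + ((j + 1 : ℕ) : ℤ) = c + h + j + 1 by push_cast; ring]
    exact ⟨this.1, fun _ => this.2⟩

theorem companion_r {M : ℤ → ℤ → ML} (hM : Marks H V M) {a c w h : ℤ} (I : Isl H V a c w h) :
    ∀ i : ℕ, ∀ j, c ≤ j → j + i < c + h →
      M (a + w + i) j = .r ∧ (0 < i → V (a + w + i) j = .n) := by
  intro i
  induction i with
  | zero =>
    intro j h1 h2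
    refine ⟨hM.r1 _ _ ?_, by simp⟩
    simpa using (I.2.2.2 j h1 (by simpa using h2)).2
  | succ i ih =>
    intro j h1 h2
    push_cast at h2
    have := hM.r3 (a + w + i) j (ih j h1 (by omega)).1 (ih (j + 1) (by omega) (by omega)).1
    rw [show a + w + ((i + 1 : ℕ) : ℤ) = a + w + i + 1 by push_cast; ring]
    exact ⟨this.1, fun _ => this.2⟩

/-- Maximal islands among those with both sides at most `L`. -/
def MaxIsl (L : ℤ) (H : ℤ → ℤ → HL) (V : ℤ → ℤ → VL) (a c w h : ℤ) : Prop :=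
  Isl H V a c w h ∧ w ≤ L ∧ h ≤ L ∧ ∀ a' c' w' h', Isl H V a' c' w' h' → w' ≤ L → h' ≤ L →
    ¬ (a' < a ∧ a + w < a' + w' ∧ c' < c ∧ c + h < c' + h')

section Pieces
variable {L : ℤ} {a c w h a' c' w' h' x y : ℤ}

theorem cell_cell (hW : Walls H V) (I : MaxIsl L H V a c w h) (I' : MaxIsl L H V a' c' w' h')
    (h1 : a ≤ x) (h2 : x < a + w) (h3 : c ≤ y) (h4 : y < c + h)
    (h1' : a' ≤ x) (h2' : x < a' + w') (h3' : c' ≤ y) (h4' : y < c' + h') :
    a = a' ∧ c = c' ∧ w = w' ∧ h = h' := by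
  rcases Isl.laminar hW I.1 I'.1 (by omega) (by omega) (by omega) (by omega) with k | k | k
  · exact k
  · exact absurd ⟨k.1, k.2.1, k.2.2.1, k.2.2.2⟩ (I'.2.2.2 _ _ _ _ I.1 I.2.1 I.2.2.1)
  · exact absurd ⟨k.1, k.2.1, k.2.2.1, k.2.2.2⟩ (I.2.2.2 _ _ _ _ I'.1 I'.2.1 I'.2.2.1)

theorem cell_t (hW : Walls H V) {M : ℤ → ℤ → ML} (hM : Marks H V M)
    (I : MaxIsl L H V a c w h) (I' : MaxIsl L H V a' c' w' h')
    (h1 : a ≤ x) (h2 : c + h ≤ y) (h3 : (x - a) + (y - c - h) < w)
    (h1' : a' ≤ x) (h2' : x < a' + w') (h3' : c' ≤ y) (h4' : y < c' + h') : False := by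
  have hw0 := I.1.1
  have hh0 := I.1.2.1
  rcases lt_trichotomy c' (c + h) with k | k | k
  · rcases Isl.laminar hW I.1 I'.1 (by omega) (by omega) (by omega) (by omega) with m | m | m
    · omega
    · omega
    · exact absurd ⟨m.1, m.2.1, m.2.2.1, m.2.2.2⟩ (I.2.2.2 _ _ _ _ I'.1 I'.2.1 I'.2.2.1)
  · have e1 := (I'.1.2.2.1 x h1' h2').1
    have e2 := (I.1.2.2.1 x h1 (by omega)).2
    rw [← k, e1] at e2
    cases e2
  · have e1 := (I'.1.2.2.1 x h1' h2').1
    have e2 := (companion_t hM I.1 (c' - (c + h)).toNat x h1 (by omega)).2 (by omega)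
    rw [show c + h + ((c' - (c + h)).toNat : ℤ) = c' by omega, e1] at e2
    cases e2

theorem cell_r (hW : Walls H V) {M : ℤ → ℤ → ML} (hM : Marks H V M)
    (I : MaxIsl L H V a c w h) (I' : MaxIsl L H V a' c' w' h')
    (h1 : a + w ≤ x) (h2 : c ≤ y) (h3 : (x - a - w) + (y - c) < h)
    (h1' : a' ≤ x) (h2' : x < a' + w') (h3' : c' ≤ y) (h4' : y < c' + h') : False := by
  have hw0 := I.1.1
  have hh0 := I.1.2.1
  rcases lt_trichotomy a' (a + w) with k | k | k
  · rcases Isl.laminar hW I.1 I'.1 (by omega) (by omega) (by omega) (by omega) with m | m | m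
    · omega
    · omega
    · exact absurd ⟨m.1, m.2.1, m.2.2.1, m.2.2.2⟩ (I.2.2.2 _ _ _ _ I'.1 I'.2.1 I'.2.2.1)
  · have e1 := (I'.1.2.2.2 y h3' h4').1
    have e2 := (I.1.2.2.2 y h2 (by omega)).2
    rw [← k, e1] at e2
    cases e2
  · have e1 := (I'.1.2.2.2 y h3' h4').1
    have e2 := (companion_r hM I.1 (a' - (a + w)).toNat y h2 (by omega)).2 (by omega)
    rw [show a + w + ((a' - (a + w)).toNat : ℤ) = a' by omega, e1] at e2
    cases e2

theorem t_t (hW : Walls H V) {M : ℤ → ℤ → ML} (hM : Marks H V M)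
    (I : Isl H V a c w h) (I' : Isl H V a' c' w' h')
    (h1 : a ≤ x) (h2 : c + h ≤ y) (h3 : (x - a) + (y - c - h) < w)
    (h1' : a' ≤ x) (h2' : c' + h' ≤ y) (h3' : (x - a') + (y - c' - h') < w') :
    a = a' ∧ c = c' ∧ w = w' ∧ h = h' := by
  have e : c + h = c' + h' := by
    by_contra hne
    rcases lt_or_gt_of_ne hne with k | k
    · have e1 := (I'.2.2.1 x h1' (by omega)).2
      have e2 := (companion_t hM I (c' + h' - (c + h)).toNat x h1 (by omega)).2 (by omega)
      rw [show c + h + ((c' + h' - (c + h)).toNat : ℤ) = c' + h' by omega, e1] at e2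
      cases e2
    · have e1 := (I.2.2.1 x h1 (by omega)).2
      have e2 := (companion_t hM I' (c + h - (c' + h')).toNat x h1' (by omega)).2 (by omega)
      rw [show c' + h' + ((c + h - (c' + h')).toNat : ℤ) = c + h by omega, e1] at e2
      cases e2
  exact Isl.uniq_t hW I I' (p := x) e (by omega) (by omega) (by omega) (by omega)

theorem r_r (hW : Walls H V) {M : ℤ → ℤ → ML} (hM : Marks H V M)
    (I : Isl H V a c w h) (I' : Isl H V a' c' w' h')
    (h1 : a + w ≤ x) (h2 : c ≤ y) (h3 : (x - a - w) + (y - c) < h)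
    (h1' : a' + w' ≤ x) (h2' : c' ≤ y) (h3' : (x - a' - w') + (y - c') < h') :
    a = a' ∧ c = c' ∧ w = w' ∧ h = h' := by
  have e : a + w = a' + w' := by
    by_contra hne
    rcases lt_or_gt_of_ne hne with k | k
    · have e1 := (I'.2.2.2 y h2' (by omega)).2
      have e2 := (companion_r hM I (a' + w' - (a + w)).toNat y h2 (by omega)).2 (by omega)
      rw [show a + w + ((a' + w' - (a + w)).toNat : ℤ) = a' + w' by omega, e1] at e2
      cases e2
    · have e1 := (I.2.2.2 y h2 (by omega)).2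
      have e2 := (companion_r hM I' (a + w - (a' + w')).toNat y h2' (by omega)).2 (by omega)
      rw [show a' + w' + ((a + w - (a' + w')).toNat : ℤ) = a + w by omega, e1] at e2
      cases e2
  exact Isl.uniq_r hW I I' (q := y) e (by omega) (by omega) (by omega) (by omega)

theorem t_r {M : ℤ → ℤ → ML} (hM : Marks H V M)
    (I : Isl H V a c w h) (I' : Isl H V a' c' w' h')
    (h1 : a ≤ x) (h2 : c + h ≤ y) (h3 : (x - a) + (y - c - h) < w)
    (h1' : a' + w' ≤ x) (h2' : c' ≤ y) (h3' : (x - a' - w') + (y - c') < h') : False := by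
  have e1 := (companion_t hM I (y - (c + h)).toNat x h1 (by omega)).1
  have e2 := (companion_r hM I' (x - (a' + w')).toNat y h2' (by omega)).1
  rw [show c + h + ((y - (c + h)).toNat : ℤ) = y by omega] at e1
  rw [show a' + w' + ((x - (a' + w')).toNat : ℤ) = x by omega, e1] at e2
  cases e2

end Pieces

/-- A covered cell lies in a maximal island. -/
theorem exists_maxIsl {L a c w h x y : ℤ} (I : Isl H V a c w h) (hw : w ≤ L)
    (hh : h ≤ L) (h1 : a ≤ x) (h2 : x < a + w) (h3 : c ≤ y) (h4 : y < c + h) :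
    ∃ a c w h, MaxIsl L H V a c w h ∧ a ≤ x ∧ x < a + w ∧ c ≤ y ∧ y < c + h := by
  classical
  by_contra hcon
  have key : ∀ n : ℕ, ∃ a c w h, Isl H V a c w h ∧ (n : ℤ) ≤ w ∧ w ≤ L ∧ h ≤ L ∧
      a ≤ x ∧ x < a + w ∧ c ≤ y ∧ y < c + h := by
    intro n
    induction n with
    | zero => exact ⟨a, c, w, h, I, by have := I.1; push_cast; omega, hw, hh, h1, h2, h3, h4⟩
    | succ n ih =>
      obtain ⟨a, c, w, h, J, g1, g2, g3, g4, g5, g6, g7⟩ := ih
      have hnm : ¬ MaxIsl L H V a c w h := fun hm => hcon ⟨a, c, w, h, hm, g4, g5, g6, g7⟩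
      unfold MaxIsl at hnm
      push Not at hnm
      obtain ⟨a', c', w', h', J', k1, k2, k3, k4, k5, k6⟩ := hnm J g2 g3
      exact ⟨a', c', w', h', J', by push_cast; omega, k1, k2, by omega, by omega, by omega,
        by omega⟩
  obtain ⟨a', c', w', h', -, g1, g2, -⟩ := key (L.toNat + 1)
  push_cast at g1
  omega

theorem isl_shift {H H' : ℤ → ℤ → HL} {V V' : ℤ → ℤ → VL} {p q : ℤ}
    (hH : ∀ i j, H' i j = H (p + i) (q + j)) (hV : ∀ i j, V' i j = V (p + i) (q + j))
    (a c w h : ℤ) : Isl H' V' a c w h ↔ Isl H V (p + a) (q + c) w h := by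
  unfold Isl
  constructor
  · rintro ⟨hw, hh, h1, h2⟩
    refine ⟨hw, hh, fun i x y => ?_, fun j x y => ?_⟩
    · have := h1 (i - p) (by omega) (by omega)
      rw [hH, hH, show p + (i - p) = i by ring, ← add_assoc] at this
      exact this
    · have := h2 (j - q) (by omega) (by omega)
      rw [hV, hV, show q + (j - q) = j by ring, ← add_assoc] at this
      exact this
  · rintro ⟨hw, hh, h1, h2⟩
    refine ⟨hw, hh, fun i x y => ?_, fun j x y => ?_⟩
    · have := h1 (p + i) (by omega) (by omega)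
      rw [hH, hH, ← add_assoc]
      exact this
    · have := h2 (q + j) (by omega) (by omega)
      rw [hV, hV, ← add_assoc]
      exact this

theorem encl_shift {H H' : ℤ → ℤ → HL} {V V' : ℤ → ℤ → VL} {p q : ℤ}
    (hH : ∀ i j, H' i j = H (p + i) (q + j)) (hV : ∀ i j, V' i j = V (p + i) (q + j))
    (x y : ℤ) : Encl H' V' x y ↔ Encl H V (p + x) (q + y) := by
  constructor
  · rintro ⟨a, c, w, h, I, g⟩
    exact ⟨p + a, q + c, w, h, (isl_shift hH hV _ _ _ _).1 I, by omega⟩
  · rintro ⟨a, c, w, h, I, g⟩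
    refine ⟨a - p, c - q, w, h, (isl_shift hH hV _ _ _ _).2 ?_, by omega⟩
    rwa [show p + (a - p) = a by ring, show q + (c - q) = c by ring]

theorem maxIsl_shift {H H' : ℤ → ℤ → HL} {V V' : ℤ → ℤ → VL} {p q : ℤ}
    (hH : ∀ i j, H' i j = H (p + i) (q + j)) (hV : ∀ i j, V' i j = V (p + i) (q + j))
    (L a c w h : ℤ) : MaxIsl L H' V' a c w h ↔ MaxIsl L H V (p + a) (q + c) w h := by
  unfold MaxIsl
  rw [isl_shift hH hV]
  refine and_congr_right fun _ => and_congr_right fun _ => and_congr_right fun _ => ?_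
  constructor
  · intro K a' c' w' h' I' g1 g2
    have := K (a' - p) (c' - q) w' h' ((isl_shift hH hV _ _ _ _).2
      (by rwa [show p + (a' - p) = a' by ring, show q + (c' - q) = c' by ring])) g1 g2
    omega
  · intro K a' c' w' h' I' g1 g2
    have := K _ _ w' h' ((isl_shift hH hV _ _ _ _).1 I') g1 g2
    omega

end

end Pool.Agent.W927
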