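import Pool.Agent.W927.Defs

/-!
Locally checkable labelling problems on the shift graph of `ℤ^d` (without directions).
-/

namespace Pool.Agent.W927

open MeasureTheory

/-- A rooted graph with vertices labelled by `Fin k`. -/
structure RG (k : ℕ) where
  /-- the vertices -/
  W : Type
  /-- the graph -/
  G : SimpleGraph W
  /-- the root -/
  root : W
  /-- the labels -/
  lab : W → Fin k

/-- Isomorphism of rooted labelled graphs. -/
def RG.Iso {k : ℕ} (A B : RG k) : Prop :=
  ∃ e : A.G ≃g B.G, e A.root = B.root ∧ ∀ w, B.lab (e w) = A.lab w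

/-- Isomorphism is an equivalence relation. -/
def RG.setoid (k : ℕ) : Setoid (RG k) where
  r := RG.Iso
  iseqv := by
    refine ⟨fun A => ⟨.refl, rfl, fun _ => rfl⟩, ?_, ?_⟩
    · rintro A B ⟨e, h1, h2⟩
      refine ⟨e.symm, ?_, fun w => ?_⟩
      · rw [← h1]; simp
      · rw [← h2]; simp
    · rintro A B C ⟨e, h1, h2⟩ ⟨f, h3, h4⟩
      refine ⟨e.trans f, ?_, fun w => ?_⟩
      · simp [h1, h3]
      · simp [h2, h4]

/-- Isomorphism types of rooted labelled graphs. -/
abbrev RGType (k : ℕ) := Quotient (RG.setoid k)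

/-- The ball of radius `r` around `v`: the endpoints of walks of length at most `r` from `v`. -/
def ball {V : Type} (G : SimpleGraph V) (r : ℕ) (v : V) : Set V :=
  {u | ∃ p : G.Walk v u, p.length ≤ r}

theorem mem_ball_self {V : Type} (G : SimpleGraph V) (r : ℕ) (v : V) : v ∈ ball G r v :=
  ⟨.nil, Nat.zero_le _⟩

/-- The ball of radius `r` around `v` as an induced subgraph, rooted at `v` and labelled by `f`. -/
def ballRG {V : Type} (G : SimpleGraph V) (r : ℕ) {k : ℕ} (f : V → Fin k) (v : V) : RG k where
  W := ball G r v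
  G := G.induce (ball G r v)
  root := ⟨v, mem_ball_self G r v⟩
  lab := fun w => f w

/-- A locally checkable labelling problem: the labels `Fin k`, the radius `r` and a set of
isomorphism types of finite rooted labelled graphs of radius at most `r`. -/
structure LCL where
  /-- the number of labels -/
  k : ℕ
  /-- the radius -/
  r : ℕ
  /-- the allowed isomorphism types -/
  P : Set (RGType k)
  /-- they are types of finite graphs of radius at most `r` -/
  small : ∀ B : RG k, Quotient.mk (RG.setoid k) B ∈ P →
    Finite B.W ∧ ∀ w, w ∈ ball B.G r B.root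

/-- `f` solves the problem at the vertices of `Y`. -/
def LCL.SolvesOn (L : LCL) {V : Type} (G : SimpleGraph V) (Y : Set V) (f : V → Fin L.k) : Prop :=
  ∀ v ∈ Y, Quotient.mk (RG.setoid L.k) (ballRG G L.r f v) ∈ L.P

/-- The shift graph of `ℤ^d`: `x` is adjacent to `y` iff `y = ± e_i • x` for some `i`. -/
def shiftGraph (d : ℕ) : SimpleGraph (FreePart d) where
  Adj x y := ∃ i : Fin d, y.1 = shift (Pi.single i 1) x.1 ∨ y.1 = shift (-Pi.single i 1) x.1
  symm := ⟨by
    rintro x y ⟨i, h | h⟩
    · refine ⟨i, Or.inr ?_⟩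
      rw [h]; funext k; simp [shift, add_assoc]
    · refine ⟨i, Or.inl ?_⟩
      rw [h]; funext k; simp [shift, add_assoc]⟩
  loopless := ⟨by
    rintro x ⟨i, h | h⟩
    · refine x.2 (Pi.single i 1) ?_ h.symm
      intro h0
      have := congrFun h0 i
      simp at this
    · refine x.2 (-Pi.single i 1) ?_ h.symm
      intro h0
      have := congrFun h0 i
      simp at this⟩

/-- A set of points of the free part that is invariant under the shift action. -/
def Invar {d : ℕ} (Y : Set (FreePart d)) : Prop :=
  ∀ (g : Fin d → ℤ) (x y : FreePart d), y.1 = shift g x.1 → x ∈ Y → y ∈ Y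

/-- A Borel solution on the whole shift graph. -/
def LCL.BorelSol (L : LCL) (d : ℕ) : Prop :=
  ∃ f : FreePart d → Fin L.k, Measurable f ∧ L.SolvesOn (shiftGraph d) Set.univ f

/-- A measurable solution: for every Borel probability measure, a Borel solution on an invariant
conull Borel set. -/
def LCL.MeasurableSol (L : LCL) (d : ℕ) : Prop :=
  ∀ μ : Measure (FreePart d), IsProbabilityMeasure μ → ∃ Y : Set (FreePart d),
    MeasurableSet Y ∧ Invar Y ∧ μ Yᶜ = 0 ∧
    ∃ f : FreePart d → Fin L.k, Measurable f ∧ L.SolvesOn (shiftGraph d) Y f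

/-- A Baire measurable solution: a Borel solution on an invariant comeagre Borel set. -/
def LCL.BaireSol (L : LCL) (d : ℕ) : Prop :=
  ∃ Y : Set (FreePart d), MeasurableSet Y ∧ Invar Y ∧ Y ∈ residual (FreePart d) ∧
    ∃ f : FreePart d → Fin L.k, Measurable f ∧ L.SolvesOn (shiftGraph d) Y f

end Pool.Agent.W927
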