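import Pool.Agent.W927.Glob

/-!
The generic family of squares.
-/

namespace Pool.Agent.W927

open MeasureTheory Filter Topology

/-- The ring of radius `s`. -/
def Rg (s z0 z1 : ℤ) : Prop :=
  -s ≤ z0 ∧ z0 ≤ s ∧ -s ≤ z1 ∧ z1 ≤ s ∧ (z0 = s ∨ z0 = -s ∨ z1 = s ∨ z1 = -s)

/-- The annulus around it. -/
def An (s z0 z1 : ℤ) : Prop :=
  -(5 * s) ≤ z0 ∧ z0 ≤ 5 * s ∧ -(5 * s) ≤ z1 ∧ z1 ≤ 5 * s ∧ (z0 < -s ∨ s < z0 ∨ z1 < -s ∨ s < z1)

/-- A ring of ones surrounded by an annulus of zeros. -/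
def Pat (y : ℤ → ℤ → Bool) (p q : ℤ) (s : ℕ) : Prop :=
  1 ≤ s ∧ (∀ z0 z1, Rg s (z0 - p) (z1 - q) → y z0 z1 = true) ∧
    (∀ z0 z1, An s (z0 - p) (z1 - q) → y z0 z1 = false)

/-- One of the eight cases of the isolation property. -/
theorem iso_case {s s' u0 u1 : ℤ} (hs : 1 ≤ s) (hss : s ≤ s') (h0 : 0 ≤ u1) (h1 : u1 ≤ u0)
    (K1 : ∀ z0 z1, ¬ (Rg s z0 z1 ∧ An s' (z0 - u0) (z1 - u1)))
    (K2 : ∀ z0 z1, ¬ (Rg s' (z0 - u0) (z1 - u1) ∧ An s z0 z1)) :
    (u0 = 0 ∧ u1 = 0 ∧ s = s') ∨ 4 * s' < u0 ∨ u0 + 4 * s < s' := by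
  by_contra hcon
  have c1 : u0 ≤ 4 * s' := by omega
  have c2 : s' ≤ u0 + 4 * s := by omega
  have c3 : ¬ (u0 = 0 ∧ u1 = 0 ∧ s = s') := by omega
  have step1 : u0 + s ≤ s' := by
    by_contra h
    by_cases h2 : u0 + s ≤ 5 * s'
    · apply K1 (-s) s
      unfold Rg An
      omega
    · apply K1 (-(5 * s' - u0)) s
      unfold Rg An
      omega
  by_cases h2 : s + 1 ≤ s' - u0
  · apply K2 (u0 - s') (s' - u0)
    unfold Rg An
    omega
  · apply K2 (u0 - s') (s + 1)
    unfold Rg An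
    omega

theorem isoS_pat (y : ℤ → ℤ → Bool) : IsoS (Pat y) := by
  refine ⟨fun p q s h => h.1, fun p q s p' q' s' h h' hss => ?_⟩
  obtain ⟨hs, hr, ha⟩ := h
  obtain ⟨hs', hr', ha'⟩ := h'
  have K1 : ∀ z0 z1, ¬ (Rg s (z0 - p) (z1 - q) ∧ An s' (z0 - p') (z1 - q')) := by
    rintro z0 z1 ⟨a, b⟩
    have := hr _ _ a
    rw [ha' _ _ b] at this
    cases this
  have K2 : ∀ z0 z1, ¬ (Rg s' (z0 - p') (z1 - q') ∧ An s (z0 - p) (z1 - q)) := by
    rintro z0 z1 ⟨a, b⟩
    have := hr' _ _ a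
    rw [ha _ _ b] at this
    cases this
  have hs2 : (1 : ℤ) ≤ s := by exact_mod_cast hs
  have hss2 : (s : ℤ) ≤ s' := by exact_mod_cast hss
  rcases le_total 0 (p' - p) with a | a <;> rcases le_total 0 (q' - q) with b | b <;>
    rcases le_total |p' - p| |q' - q| with c | c
  · rw [abs_of_nonneg a, abs_of_nonneg b] at c
    have := iso_case (s := s) (s' := s') (u0 := q' - q) (u1 := p' - p) hs2 hss2 a c
      (fun z0 z1 h => K1 (p + z1) (q + z0) (by unfold Rg An at *; omega))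
      (fun z0 z1 h => K2 (p + z1) (q + z0) (by unfold Rg An at *; omega))
    omega
  · rw [abs_of_nonneg a, abs_of_nonneg b] at c
    have := iso_case (s := s) (s' := s') (u0 := p' - p) (u1 := q' - q) hs2 hss2 b c
      (fun z0 z1 h => K1 (p + z0) (q + z1) (by unfold Rg An at *; omega))
      (fun z0 z1 h => K2 (p + z0) (q + z1) (by unfold Rg An at *; omega))
    omega
  · rw [abs_of_nonneg a, abs_of_nonpos b] at c
    have := iso_case (s := s) (s' := s') (u0 := q - q') (u1 := p' - p) hs2 hss2 a (by omega)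
      (fun z0 z1 h => K1 (p + z1) (q - z0) (by unfold Rg An at *; omega))
      (fun z0 z1 h => K2 (p + z1) (q - z0) (by unfold Rg An at *; omega))
    omega
  · rw [abs_of_nonneg a, abs_of_nonpos b] at c
    have := iso_case (s := s) (s' := s') (u0 := p' - p) (u1 := q - q') hs2 hss2 (by omega)
      (by omega)
      (fun z0 z1 h => K1 (p + z0) (q - z1) (by unfold Rg An at *; omega))
      (fun z0 z1 h => K2 (p + z0) (q - z1) (by unfold Rg An at *; omega))
    omega
  · rw [abs_of_nonpos a, abs_of_nonneg b] at c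
    have := iso_case (s := s) (s' := s') (u0 := q' - q) (u1 := p - p') hs2 hss2 (by omega)
      (by omega)
      (fun z0 z1 h => K1 (p - z1) (q + z0) (by unfold Rg An at *; omega))
      (fun z0 z1 h => K2 (p - z1) (q + z0) (by unfold Rg An at *; omega))
    omega
  · rw [abs_of_nonpos a, abs_of_nonneg b] at c
    have := iso_case (s := s) (s' := s') (u0 := p - p') (u1 := q' - q) hs2 hss2 b (by omega)
      (fun z0 z1 h => K1 (p - z0) (q + z1) (by unfold Rg An at *; omega))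
      (fun z0 z1 h => K2 (p - z0) (q + z1) (by unfold Rg An at *; omega))
    omega
  · rw [abs_of_nonpos a, abs_of_nonpos b] at c
    have := iso_case (s := s) (s' := s') (u0 := q - q') (u1 := p - p') hs2 hss2 (by omega)
      (by omega)
      (fun z0 z1 h => K1 (p - z1) (q - z0) (by unfold Rg An at *; omega))
      (fun z0 z1 h => K2 (p - z1) (q - z0) (by unfold Rg An at *; omega))
    omega
  · rw [abs_of_nonpos a, abs_of_nonpos b] at c
    have := iso_case (s := s) (s' := s') (u0 := p - p') (u1 := q - q') hs2 hss2 (by omega)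
      (by omega)
      (fun z0 z1 h => K1 (p - z0) (q - z1) (by unfold Rg An at *; omega))
      (fun z0 z1 h => K2 (p - z0) (q - z1) (by unfold Rg An at *; omega))
    omega

section Generic

variable {d : ℕ} (i0 i1 : Fin d)

/-- The generic family in the full shift. -/
def PY (s : ℕ) : Set (Conf d Bool) := {x | Pat (fun z0 z1 => x (pl i0 i1 z0 z1)) 0 0 s}

/-- The generic family in the free part. -/
def PB (s : ℕ) : Set (FreePart d) := {x | x.1 ∈ PY i0 i1 s}

theorem Dx_PB (x : FreePart d) (p q : ℤ) (s : ℕ) :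
    Dx i0 i1 (PB i0 i1) x p q s ↔ Pat (fun z0 z1 => x.1 (pl i0 i1 z0 z1)) p q s := by
  have h : ∀ z0 z1, (act (pl i0 i1 p q) x).1 (pl i0 i1 z0 z1) = x.1 (pl i0 i1 (z0 + p) (z1 + q)) := by
    intro z0 z1
    change x.1 (pl i0 i1 z0 z1 + pl i0 i1 p q) = _
    rw [pl_add]
  unfold Dx PB PY Pat
  simp only [Set.mem_ofPred_eq, h]
  refine and_congr_right fun _ => and_congr ⟨fun H z0 z1 hz => ?_, fun H z0 z1 hz => ?_⟩
    ⟨fun H z0 z1 hz => ?_, fun H z0 z1 hz => ?_⟩
  · have := H (z0 - p) (z1 - q) (by simpa using hz)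
    simpa using this
  · exact H _ _ (by simpa using hz)
  · have := H (z0 - p) (z1 - q) (by simpa using hz)
    simpa using this
  · exact H _ _ (by simpa using hz)

theorem isoS_PB (x : FreePart d) : IsoS (Dx i0 i1 (PB i0 i1) x) := by
  have h := isoS_pat (fun z0 z1 => x.1 (pl i0 i1 z0 z1))
  have e : Dx i0 i1 (PB i0 i1) x = Pat (fun z0 z1 => x.1 (pl i0 i1 z0 z1)) := by
    funext p q s
    exact propext (Dx_PB i0 i1 x p q s)
  rw [e]
  exact h

theorem isOpen_PY (s : ℕ) : IsOpen (PY i0 i1 s) := by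
  classical
  have e : PY i0 i1 s = {_x : Conf d Bool | 1 ≤ s} ∩
      ⋂ z ∈ Finset.Icc (-(5 * (s : ℤ))) (5 * s) ×ˢ Finset.Icc (-(5 * (s : ℤ))) (5 * s),
      ({x : Conf d Bool | Rg s z.1 z.2 → x (pl i0 i1 z.1 z.2) = true} ∩
       {x : Conf d Bool | An s z.1 z.2 → x (pl i0 i1 z.1 z.2) = false}) := by
    ext x
    simp only [PY, Pat, Set.mem_ofPred_eq, Set.mem_inter_iff, Set.mem_iInter, Finset.mem_product,
      Finset.mem_Icc, Prod.forall, sub_zero]
    refine and_congr_right fun _ => ⟨fun H a b _ => ⟨H.1 a b, H.2 a b⟩, fun H => ⟨fun a b h => ?_,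
      fun a b h => ?_⟩⟩
    · exact (H a b (by unfold Rg at h; omega)).1 h
    · exact (H a b (by unfold An at h; omega)).2 h
  rw [e]
  refine (isOpen_const).inter (isOpen_biInter_finset fun z _ => ?_)
  have hc : Continuous fun x : Conf d Bool => x (pl i0 i1 z.1 z.2) := continuous_apply _
  refine IsOpen.inter ?_ ?_
  · by_cases h : Rg s z.1 z.2
    · simp only [h, true_imp_iff]
      exact (isOpen_discrete {true}).preimage hc
    · simp only [h, false_imp_iff]
      exact isOpen_const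
  · by_cases h : An s z.1 z.2
    · simp only [h, true_imp_iff]
      exact (isOpen_discrete {false}).preimage hc
    · simp only [h, false_imp_iff]
      exact isOpen_const

theorem isOpen_PB (s : ℕ) : IsOpen (PB i0 i1 s) :=
  (isOpen_PY i0 i1 s).preimage continuous_subtype_val

/-- Every finite window is compatible with the pattern around it. -/
theorem cyl {O : Set (Conf d Bool)} (hO : IsOpen O) {x : Conf d Bool} (hx : x ∈ O) :
    ∃ I : Finset (Fin d → ℤ), ∀ y : Conf d Bool, (∀ a ∈ I, y a = x a) → y ∈ O := by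
  obtain ⟨I, u, h1, h2⟩ := isOpen_pi_iff.1 hO x hx
  refine ⟨I, fun y hy => h2 fun a ha => ?_⟩
  rw [hy a ha]
  exact (h1 a ha).2

theorem dense_free : Dense {x : Conf d Bool | ∀ g : Fin d → ℤ, g ≠ 0 → shift g x ≠ x} := by
  classical
  have e : {x : Conf d Bool | ∀ g : Fin d → ℤ, g ≠ 0 → shift g x ≠ x} =
      ⋂ g : Fin d → ℤ, {x : Conf d Bool | g ≠ 0 → shift g x ≠ x} := by
    ext x; simp
  rw [e]
  refine dense_iInter_of_isOpen (fun g => ?_) (fun g => ?_)
  · by_cases hg : g = 0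
    · simp [hg]
    · simp only [ne_eq, hg, not_false_eq_true, true_imp_iff]
      have hc : Continuous fun x : Conf d Bool => shift g x :=
        continuous_pi fun k => continuous_apply (k + g)
      exact isOpen_ne_fun hc continuous_id
  · by_cases hg : g = 0
    · simp [hg]
    · simp only [ne_eq, hg, not_false_eq_true, true_imp_iff]
      rw [dense_iff_inter_open]
      rintro O hO ⟨x, hx⟩
      obtain ⟨I, hI⟩ := cyl hO hx
      have hinf : Infinite (Fin d → ℤ) := by
        refine Infinite.of_injective (fun n : ℤ => n • g) ?_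
        intro a b hab
        obtain ⟨i, hi⟩ : ∃ i, g i ≠ 0 := by
          by_contra hcon
          push Not at hcon
          exact hg (funext hcon)
        have := congrFun hab i
        simp only [Pi.smul_apply, smul_eq_mul] at this
        exact mul_right_cancel₀ hi this
      obtain ⟨h, hh⟩ := hinf.exists_notMem_finset I
      refine ⟨Function.update x h (!(x (h + g))), hI _ (fun a ha => ?_), fun heq => ?_⟩
      · rw [Function.update_of_ne]
        rintro rfl
        exact hh ha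
      · have h1 := congrFun heq h
        simp only [shift, Function.update_self] at h1
        rw [Function.update_of_ne (by simpa using hg)] at h1
        cases hb : x (h + g) <;> rw [hb] at h1 <;> cases h1

/-- The points whose cell is covered. -/
def Cv : Set (FreePart d) := {x | ∃ s p q, Cel (Dx i0 i1 (PB i0 i1) x) s 0 0 p q}

theorem isOpen_Cv : IsOpen (Cv i0 i1) := by
  have e : Cv i0 i1 = ⋃ (s : ℕ) (p : ℤ) (q : ℤ), (act (pl i0 i1 p q) ⁻¹' PB i0 i1 s ∩
      {_x : FreePart d | p - s ≤ 0 ∧ 0 < p + s ∧ q - s ≤ 0 ∧ 0 < q + s}) := by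
    ext x
    simp only [Cv, Cel, Dx, Set.mem_ofPred_eq, Set.mem_iUnion, Set.mem_inter_iff, Set.mem_preimage]
  rw [e]
  refine isOpen_iUnion fun s => isOpen_iUnion fun p => isOpen_iUnion fun q => ?_
  exact ((isOpen_PB i0 i1 s).preimage (continuous_act _)).inter isOpen_const

theorem dense_Cv (h01 : i0 ≠ i1) : Dense (Cv i0 i1) := by
  classical
  rw [dense_iff_inter_open]
  rintro U hU ⟨x, hx⟩
  obtain ⟨O, hO, rfl⟩ := isOpen_induced_iff.1 hU
  obtain ⟨I, hI⟩ := cyl hO hx
  obtain ⟨s, hs1, hs⟩ : ∃ s : ℕ, 1 ≤ s ∧ ∀ a ∈ I, ∀ z0 z1 : ℤ, a = pl i0 i1 z0 z1 →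
      -(s : ℤ) < z0 ∧ z0 < s ∧ -(s : ℤ) < z1 ∧ z1 < s := by
    refine ⟨(∑ a ∈ I, ((a i0).natAbs + (a i1).natAbs)) + 1, by omega, ?_⟩
    rintro a ha z0 z1 rfl
    have h1 := Finset.single_le_sum
      (f := fun a : Fin d → ℤ => (a i0).natAbs + (a i1).natAbs) (fun _ _ => Nat.zero_le _) ha
    have h2 : pl i0 i1 z0 z1 i0 = z0 := by
      simp [pl, e_, Pi.single_eq_of_ne h01]
    have h3 : pl i0 i1 z0 z1 i1 = z1 := by
      simp [pl, e_, Pi.single_eq_of_ne h01.symm]
    simp only [h2, h3] at h1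
    rw [Nat.cast_add, Nat.cast_one]
    omega
  set y0 : Conf d Bool := fun a =>
    if ∃ z0 z1, a = pl i0 i1 z0 z1 ∧ Rg s z0 z1 then true
    else if ∃ z0 z1, a = pl i0 i1 z0 z1 ∧ An s z0 z1 then false else x.1 a with hy0
  have m1 : y0 ∈ O := by
    refine hI _ fun a ha => ?_
    have h1 : ¬ ∃ z0 z1, a = pl i0 i1 z0 z1 ∧ Rg s z0 z1 := by
      rintro ⟨z0, z1, e, h⟩
      have := hs a ha z0 z1 e
      unfold Rg at h
      omega
    have h2 : ¬ ∃ z0 z1, a = pl i0 i1 z0 z1 ∧ An s z0 z1 := by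
      rintro ⟨z0, z1, e, h⟩
      have := hs a ha z0 z1 e
      unfold An at h
      omega
    simp only [hy0, if_neg h1, if_neg h2]
  have m2 : y0 ∈ PY i0 i1 s := by
    refine ⟨hs1, fun z0 z1 h => ?_, fun z0 z1 h => ?_⟩
    · simp only [sub_zero] at h
      simp only [hy0]
      rw [if_pos ⟨z0, z1, rfl, h⟩]
    · simp only [sub_zero] at h
      simp only [hy0]
      rw [if_neg, if_pos ⟨z0, z1, rfl, h⟩]
      rintro ⟨a, b, e, h'⟩
      obtain ⟨rfl, rfl⟩ := pl_inj h01 e
      unfold Rg at h'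
      unfold An at h
      omega
  obtain ⟨y, ⟨hy1, hy2⟩, hy3⟩ := dense_iff_inter_open.1 dense_free (O ∩ PY i0 i1 s)
    (hO.inter (isOpen_PY i0 i1 s)) ⟨y0, m1, m2⟩
  refine ⟨⟨y, hy3⟩, hy1, s, 0, 0, ?_, by omega⟩
  rw [Dx_PB]
  exact hy2

/-- The generic set. -/
def GoodB : Set (FreePart d) := {x | ∀ g, act g x ∈ Cv i0 i1}

theorem fam_PB : Fam i0 i1 (PB i0 i1) (GoodB i0 i1) := by
  refine ⟨fun g x hx h => ?_, fun x _ => (isoS_PB i0 i1 x).weak, fun x hx => ?_⟩
  · rw [act_act]; exact hx _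
  · have := hx 0
    rw [act_zero] at this
    exact this

theorem isOpenMap_act (g : Fin d → ℤ) : IsOpenMap (act g) := by
  refine IsOpenMap.of_inverse (f' := act (-g)) (continuous_act (-g)) ?_ ?_
  · intro x
    rw [act_act, add_neg_cancel, act_zero]
  · intro x
    rw [act_act, neg_add_cancel, act_zero]

theorem goodB_residual (h01 : i0 ≠ i1) : GoodB i0 i1 ∈ residual (FreePart d) := by
  have e : GoodB i0 i1 = ⋂ g, act g ⁻¹' Cv i0 i1 := by
    ext x; simp [GoodB]
  rw [e, countable_iInter_mem]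
  intro g
  exact tendsto_residual_of_isOpenMap (continuous_act g) (isOpenMap_act g)
    (residual_of_dense_open (isOpen_Cv i0 i1) (dense_Cv i0 i1 h01))

theorem SA_hasBaire (h01 : i0 ≠ i1) {k : ℕ} (e : Fin k ≃ Lab) :
    HasBaire (SA e (e_ i0) (e_ i1)) :=
  hasBaire_SA h01 (fam_PB i0 i1) (fun x _ => isoS_PB i0 i1 x)
    (fun s => (isOpen_PB i0 i1 s).measurableSet) (goodB_residual i0 i1 h01)

end Generic

end Pool.Agent.W927
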