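import Pool.Agent.W927.Dirs
import Pool.Agent.W927.Pat
import Pool.Agent.W927.Greedy2

/-!
The labelling problem has measurable and Baire measurable solutions.
-/

namespace Pool.Agent.W927

open MeasureTheory Filter Topology

section Colour

variable {d : ℕ}

/-- Independent sets. -/
def Ind (S : Finset (Fin d → ℤ)) (A : Set (FreePart d)) : Prop :=
  ∀ x ∈ A, ∀ s ∈ S, act s x ∉ A

theorem exists_ind_cover (S : Finset (Fin d → ℤ)) (h0 : (0 : Fin d → ℤ) ∉ S) :
    ∃ A : ℕ → Set (FreePart d),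
    (∀ n, MeasurableSet (A n)) ∧ (∀ n, Ind S (A n)) ∧ ∀ x, ∃ n, x ∈ A n := by
  classical
  let B : Finset (Fin d → ℤ) × Finset (Fin d → ℤ) → Set (FreePart d) := fun NE =>
    {x | (∀ h ∈ NE.1, (x.1 h = true ↔ h ∈ NE.2)) ∧
      ∀ s ∈ S, ∃ h ∈ NE.1, x.1 (h + s) ≠ x.1 h}
  have hcoord : ∀ h : Fin d → ℤ, Measurable fun x : FreePart d => x.1 h := fun h =>
    (measurable_pi_apply h).comp measurable_subtype_coe
  have hB : ∀ NE, MeasurableSet (B NE) := by
    intro NE
    refine measurableSet_setOfPred.2 (Measurable.and ?_ ?_)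
    · refine Measurable.forall fun h => measurable_const.imp (Measurable.iff ?_ measurable_const)
      exact measurableSet_setOfPred.1 (hcoord h (MeasurableSet.singleton true))
    · refine Measurable.forall fun s => measurable_const.imp
        (Measurable.exists fun h => measurable_const.and ?_)
      exact (measurableSet_setOfPred.1 (measurableSet_eq_fun (hcoord _) (hcoord _))).not
  have hind : ∀ NE, Ind S (B NE) := by
    intro NE x hx s hs hy
    obtain ⟨h, hh, hne'⟩ := hx.2 s hs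
    have e1 := hx.1 h hh
    have e2 := hy.1 h hh
    apply hne'
    exact Bool.eq_iff_iff.2 (e2.trans e1.symm)
  have hcov : ∀ x, ∃ NE, x ∈ B NE := by
    intro x
    have h1 : ∀ s : Fin d → ℤ, ∃ h : Fin d → ℤ, s ≠ 0 → x.1 (h + s) ≠ x.1 h := by
      intro s
      by_cases hs : s = 0
      · exact ⟨0, fun h => absurd hs h⟩
      · have h4 := x.2 _ hs
        by_contra hcon
        push Not at hcon
        apply h4
        funext k
        exact (hcon k).2
    choose f hf using h1
    refine ⟨(S.image f, (S.image f).filter fun h => x.1 h = true), ?_, ?_⟩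
    · intro h hh
      simp only [Finset.mem_filter]
      exact ⟨fun k => ⟨hh, k⟩, fun k => k.2⟩
    · intro s hs
      exact ⟨f s, Finset.mem_image_of_mem f hs, hf s (fun h => h0 (h ▸ hs))⟩
  obtain ⟨g, hg⟩ := exists_surjective_nat (Finset (Fin d → ℤ) × Finset (Fin d → ℤ))
  refine ⟨fun n => B (g n), fun n => hB _, fun n => hind _, fun x => ?_⟩
  obtain ⟨NE, h⟩ := hcov x
  obtain ⟨n, rfl⟩ := hg NE
  exact ⟨n, h⟩

theorem exists_mis (S : Finset (Fin d → ℤ)) (h0 : (0 : Fin d → ℤ) ∉ S)
    (hsym : ∀ s ∈ S, -s ∈ S) {Y : Set (FreePart d)} (hY : MeasurableSet Y) :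
    ∃ M : Set (FreePart d), MeasurableSet M ∧ M ⊆ Y ∧ Ind S M ∧
      ∀ y ∈ Y, y ∈ M ∨ ∃ s ∈ S, act s y ∈ M := by
  classical
  obtain ⟨A, hA, hind, hcov⟩ := exists_ind_cover S h0
  let Nbr : Set (FreePart d) → Set (FreePart d) := fun U => {x | ∃ s ∈ S, act s x ∈ U}
  have hNm : ∀ U, MeasurableSet U → MeasurableSet (Nbr U) := fun U hU =>
    measurableSet_setOfPred.2 (Measurable.exists fun s => measurable_const.and
      (measurableSet_setOfPred.1 (measurable_act s hU)))
  let U : ℕ → Set (FreePart d) := fun n => Nat.rec ∅ (fun n Un => Un ∪ ((A n ∩ Y) \ Nbr Un)) n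
  have hUs : ∀ n, U (n + 1) = U n ∪ ((A n ∩ Y) \ Nbr (U n)) := fun n => rfl
  have hUm : ∀ n, MeasurableSet (U n) := by
    intro n
    induction n with
    | zero => exact MeasurableSet.empty
    | succ n ih =>
      rw [hUs]
      exact ih.union (((hA n).inter hY).diff (hNm _ ih))
  have hmono : Monotone U := monotone_nat_of_le_succ fun n => by
    rw [hUs]; exact Set.subset_union_left
  have hUind : ∀ n, Ind S (U n) := by
    intro n
    induction n with
    | zero => intro x hx; exact absurd hx (Set.notMem_empty _)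
    | succ n ih =>
      rw [hUs]
      rintro x (hx | hx) s hs (hy | hy)
      · exact ih x hx s hs hy
      · apply hy.2
        refine ⟨-s, hsym s hs, ?_⟩
        rw [act_act, neg_add_cancel, act_zero]
        exact hx
      · exact hx.2 ⟨s, hs, hy⟩
      · exact hind n x hx.1.1 s hs hy.1.1
  refine ⟨⋃ n, U n, MeasurableSet.iUnion hUm, ?_, ?_, fun x hx => ?_⟩
  · refine Set.iUnion_subset fun n => ?_
    induction n with
    | zero => exact Set.empty_subset _
    | succ n ih =>
      rw [hUs]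
      exact Set.union_subset ih fun x hx => hx.1.2
  · intro x hx s hs hy
    obtain ⟨n, hn⟩ := Set.mem_iUnion.1 hx
    obtain ⟨m, hm⟩ := Set.mem_iUnion.1 hy
    exact hUind (max n m) x (hmono (le_max_left _ _) hn) s hs (hmono (le_max_right _ _) hm)
  · obtain ⟨n, hn⟩ := hcov x
    rcases Classical.em (x ∈ Nbr (U n)) with hx' | hx'
    · obtain ⟨s, hs, h'⟩ := hx'
      exact Or.inr ⟨s, hs, Set.mem_iUnion.2 ⟨n, h'⟩⟩
    · refine Or.inl (Set.mem_iUnion.2 ⟨n + 1, ?_⟩)
      rw [hUs]
      exact Or.inr ⟨⟨hn, hx⟩, hx'⟩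

/-- Finite Borel colourings. -/
theorem exists_colouring (S : Finset (Fin d → ℤ)) (h0 : (0 : Fin d → ℤ) ∉ S)
    (hsym : ∀ s ∈ S, -s ∈ S) :
    ∃ κ : FreePart d → Fin (S.card + 1), Measurable κ ∧ ∀ x, ∀ s ∈ S, κ (act s x) ≠ κ x := by
  classical
  have H : ∀ Y : {Y : Set (FreePart d) // MeasurableSet Y}, ∃ M : Set (FreePart d),
      MeasurableSet M ∧ M ⊆ Y.1 ∧ Ind S M ∧ ∀ y ∈ Y.1, y ∈ M ∨ ∃ s ∈ S, act s y ∈ M :=
    fun Y => exists_mis S h0 hsym Y.2
  choose mis hm hsub hind hmax using H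
  let Y : ℕ → {Y : Set (FreePart d) // MeasurableSet Y} := fun n =>
    Nat.rec ⟨Set.univ, MeasurableSet.univ⟩ (fun _ Y => ⟨Y.1 \ mis Y, Y.2.diff (hm Y)⟩) n
  have hY0 : (Y 0).1 = Set.univ := rfl
  have hYs : ∀ n, (Y (n + 1)).1 = (Y n).1 \ mis (Y n) := fun n => rfl
  have hanti : ∀ n m, n ≤ m → (Y m).1 ⊆ (Y n).1 := by
    intro n m h
    induction m, h using Nat.le_induction with
    | base => exact subset_rfl
    | succ m _ ih => rw [hYs]; exact Set.sdiff_subset.trans ih
  have hdisj : ∀ n m, n < m → ∀ x, x ∈ mis (Y n) → x ∉ mis (Y m) := by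
    intro n m h x hx hx'
    have h1 := hanti (n + 1) m h (hsub _ hx')
    rw [hYs] at h1
    exact h1.2 hx
  have hcov : ∀ x, ∃ k : Fin (S.card + 1), x ∈ mis (Y k) := by
    intro x
    by_contra hcon
    push Not at hcon
    have hx : ∀ n, n ≤ S.card + 1 → x ∈ (Y n).1 := by
      intro n
      induction n with
      | zero => intro _; rw [hY0]; trivial
      | succ n ih =>
        intro h
        rw [hYs]
        exact ⟨ih (by omega), hcon ⟨n, by omega⟩⟩
    have h1 : ∀ k : Fin (S.card + 1), ∃ s, s ∈ S ∧ act s x ∈ mis (Y k) := by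
      intro k
      rcases hmax (Y k) x (hx k (by omega)) with h | ⟨s, hs, h⟩
      · exact absurd h (hcon k)
      · exact ⟨s, hs, h⟩
    choose t ht1 ht2 using h1
    have hinj : Function.Injective fun k => (⟨t k, ht1 k⟩ : S) := by
      intro a b hab
      have e : t a = t b := congrArg Subtype.val hab
      by_contra hne
      rcases lt_or_gt_of_ne hne with h | h
      · exact hdisj a b h _ (ht2 a) (by rw [e]; exact ht2 b)
      · exact hdisj b a h _ (ht2 b) (by rw [← e]; exact ht2 a)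
    have := Fintype.card_le_of_injective _ hinj
    simp at this
  choose κ hκ using hcov
  refine ⟨κ, ?_, ?_⟩
  · refine measurable_to_countable' fun k => ?_
    have : κ ⁻¹' {k} = mis (Y k) := by
      ext x
      constructor
      · rintro rfl
        exact hκ x
      · intro hx
        by_contra hne
        have hne' : (κ x : ℕ) ≠ k := fun h => hne (Fin.ext h)
        rcases lt_or_gt_of_ne hne' with h | h
        · exact hdisj _ _ h x (hκ x) hx
        · exact hdisj _ _ h x hx (hκ x)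
    rw [this]
    exact hm _
  · intro x s hs h
    have h1 := hκ (act s x)
    rw [h] at h1
    exact hind _ x (hκ x) s hs h1

theorem exists_nbr_colouring (d : ℕ) : ∃ (N : ℕ) (κ : FreePart d → Fin N), Measurable κ ∧
    ∀ (x : FreePart d) (a b : Dir d), κ (act (vec a) x) = κ (act (vec b) x) → a = b := by
  classical
  let S : Finset (Fin d → ℤ) := ((Finset.univ : Finset (Dir d × Dir d)).image
    (fun p => vec p.1 - vec p.2)).erase 0
  obtain ⟨κ, hκ, h⟩ := exists_colouring S (Finset.notMem_erase _ _) (by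
    intro s hs
    rw [Finset.mem_erase, Finset.mem_image] at hs ⊢
    obtain ⟨hs0, ⟨a, b⟩, -, rfl⟩ := hs
    exact ⟨fun h => hs0 (neg_eq_zero.1 h), (b, a), Finset.mem_univ _, by simp⟩)
  refine ⟨_, κ, hκ, fun x a b hab => ?_⟩
  by_contra hne
  apply h (act (vec b) x) (vec a - vec b)
  · rw [Finset.mem_erase, Finset.mem_image]
    exact ⟨fun h => hne (vec_inj (sub_eq_zero.1 h)), (a, b), Finset.mem_univ _, rfl⟩
  · rw [act_act, sub_add_cancel]
    exact hab

end Colour

section Solve

variable {d N k : ℕ} {i0 i1 : Fin d} {e : Fin k ≃ LabG N d}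

open Classical in
/-- The direction towards the neighbour of a given colour. -/
noncomputable def dl (i0 : Fin d) {N : ℕ} (t : Dir d → Fin N) (c : Fin N) : Dir d :=
  if h : ∃ a, t a = c then h.choose else (i0, true)

theorem dl_eq {t : Dir d → Fin N} (ht : ∀ a b, t a = t b → a = b) (a : Dir d) :
    dl i0 t (t a) = a := by
  unfold dl
  rw [dif_pos ⟨a, rfl⟩]
  exact ht _ _ (Exists.choose_spec (⟨a, rfl⟩ : ∃ b, t b = t a))

/-- The solution. -/
noncomputable def sol (i0 i1 : Fin d) (e : Fin k ≃ LabG N d) (κ : FreePart d → Fin N)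
    (P : ℕ → Set (FreePart d)) (x : FreePart d) : Fin k :=
  e.symm (κ x, dl i0 (fun a => κ (act (vec a) x)), labD (Dx i0 i1 P x) 0 0)

theorem measurable_sol {κ : FreePart d → Fin N} (hκ : Measurable κ)
    {P : ℕ → Set (FreePart d)} (hP : ∀ s, MeasurableSet (P s)) :
    Measurable (sol i0 i1 e κ P) := by
  let e2 : Fin (Fintype.card Lab) ≃ Lab := (Fintype.equivFin Lab).symm
  have h1 : Measurable fun x => e2.symm (labD (Dx i0 i1 P x) 0 0) := by
    have := (measurable_pi_apply (0 : Fin d → ℤ)).comp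
      (measurable_labD (e := e2) (i0 := i0) (i1 := i1) hP)
    have e3 : (fun x => e2.symm (labD (Dx i0 i1 P x) 0 0)) =
        (fun f : Conf d (Fin (Fintype.card Lab)) => f 0) ∘
          (TT_ e2 (fun x => labD (Dx i0 i1 P x) 0 0)) := by
      funext x
      simp [TT_, act_zero]
    rw [e3]
    exact this
  have h2 : Measurable fun x : FreePart d => fun a : Dir d => κ (act (vec a) x) :=
    measurable_pi_iff.2 fun a => hκ.comp (measurable_act _)
  have e4 : sol i0 i1 e κ P = (fun r : Fin N × (Dir d → Fin N) × Fin (Fintype.card Lab) =>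
      e.symm (r.1, dl i0 r.2.1, e2 r.2.2)) ∘
      (fun x => (κ x, (fun a : Dir d => κ (act (vec a) x)), e2.symm (labD (Dx i0 i1 P x) 0 0))) := by
    funext x
    simp [sol]
  rw [e4]
  exact (Measurable.of_discrete).comp (hκ.prodMk (h2.prodMk h1))

theorem good_sol (h01 : i0 ≠ i1) {κ : FreePart d → Fin N}
    (hκ : ∀ (x : FreePart d) (a b : Dir d), κ (act (vec a) x) = κ (act (vec b) x) → a = b)
    {P : ℕ → Set (FreePart d)} {Good : Set (FreePart d)} (F : Fam i0 i1 P Good)
    {x : FreePart d} (hx : x ∈ Good) :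
    GoodRG i0 i1 e (ballRG (shiftGraph d) 2 (sol i0 i1 e κ P) x) := by
  classical
  let ψ : (Fin d → ℤ) → ball (shiftGraph d) 2 x := fun g =>
    if h : g ∈ B2 d then ⟨act g x, (mem_ball_iff _ _).2 ⟨g, h, rfl⟩⟩ else ⟨x, mem_ball_self _ _ _⟩
  have hψ : ∀ g ∈ B2 d, (ψ g).1 = act g x := by
    intro g hg
    simp only [ψ, dif_pos hg]
  refine ⟨ψ, ⟨?_, ?_, ?_, ?_⟩, ?_⟩
  · apply Subtype.ext
    rw [hψ 0 zero_mem, act_zero]
    rfl
  · intro g hg h hh e
    have := congrArg Subtype.val e
    rw [hψ g hg, hψ h hh] at this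
    exact act_inj this
  · rintro ⟨w, hw⟩
    obtain ⟨g, hg, rfl⟩ := (mem_ball_iff _ _).1 hw
    exact ⟨g, hg, Subtype.ext (hψ g hg)⟩
  · intro g hg h hh
    change (shiftGraph d).Adj (ψ g).1 (ψ h).1 ↔ _
    rw [hψ g hg, hψ h hh, adj_iff]
    refine exists_congr fun a => ?_
    rw [act_act, add_comm]
    exact ⟨fun e => act_inj e, fun e => by rw [e]⟩
  · obtain ⟨c, hc⟩ := exists_coord d
    have hR := ruleB_lab h01 F hc x
    have hl : ∀ g, lab i0 i1 P Good c (act g x) = labD (Dx i0 i1 P (act g x)) 0 0 := by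
      intro g
      unfold lab
      rw [if_pos (F.inv g x hx)]
    simp only [hl] at hR
    have hv : ∀ g ∈ B2 d, e ((ballRG (shiftGraph d) 2 (sol i0 i1 e κ P) x).lab (ψ g)) =
        (κ (act g x), dl i0 (fun a => κ (act (vec a) (act g x))),
          labD (Dx i0 i1 P (act g x)) 0 0) := by
      intro g hg
      change e (sol i0 i1 e κ P (ψ g).1) = _
      rw [hψ g hg]
      simp [sol]
    obtain ⟨l, hl'⟩ : ∃ l : (Fin d → ℤ) → LabG N d,
        l = fun g => e ((ballRG (shiftGraph d) 2 (sol i0 i1 e κ P) x).lab (ψ g)) := ⟨_, rfl⟩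
    have hv : ∀ g ∈ B2 d, l g =
        (κ (act g x), dl i0 (fun a => κ (act (vec a) (act g x))),
          labD (Dx i0 i1 P (act g x)) 0 0) := by
      intro g hg
      rw [hl']
      exact hv g hg
    change QG i0 i1 (fun g => e ((ballRG (shiftGraph d) 2 (sol i0 i1 e κ P) x).lab (ψ g)))
    rw [← hl']
    refine ⟨fun a => ?_, fun a b => ?_, ?_⟩
    · rw [hv _ zero_mem, hv _ (vec_mem a)]
      simp only [act_zero]
      exact dl_eq (hκ x) a
    · rw [hv _ (vec_mem a), hv _ (vec2_mem a b)]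
      simp only
      have := dl_eq (i0 := i0) (hκ (act (vec a) x)) b
      rw [act_act, add_comm] at this
      exact this
    · have m0 : (-e_ i0 : Fin d → ℤ) ∈ B2 d := by
        have := vec_mem (ngt ((i0, true) : Dir d))
        rw [vec_ngt] at this
        exact this
      have m1 : (-e_ i1 : Fin d → ℤ) ∈ B2 d := by
        have := vec_mem (ngt ((i1, true) : Dir d))
        rw [vec_ngt] at this
        exact this
      simp only [RuleB, hv _ m0, hv _ m1, hv _ zero_mem]
      exact hR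

theorem good_meas {P : ℕ → Set (FreePart d)} (hP : ∀ s, MeasurableSet (P s)) :
    MeasurableSet {x : FreePart d | ∀ g, ∃ t p q, Cel (Dx i0 i1 P (act g x)) t 0 0 p q} := by
  refine measurableSet_setOfPred.2 (Measurable.forall fun g => Measurable.exists fun t =>
    Measurable.exists fun p => Measurable.exists fun q => Measurable.and ?_ measurable_const)
  exact measurableSet_setOfPred.1 ((measurable_act g) ((measurable_act (pl i0 i1 p q)) (hP t)))

theorem invar_good {P : ℕ → Set (FreePart d)} :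
    Invar {x : FreePart d | ∀ g, ∃ t p q, Cel (Dx i0 i1 P (act g x)) t 0 0 p q} := by
  intro g x y hy hx h
  have : y = act g x := Subtype.ext hy
  rw [this, act_act]
  exact hx _

theorem baireSol (h01 : i0 ≠ i1) {κ : FreePart d → Fin N} (hκm : Measurable κ)
    (hκ : ∀ (x : FreePart d) (a b : Dir d), κ (act (vec a) x) = κ (act (vec b) x) → a = b) :
    (PB_ N d i0 i1 e).BaireSol d := by
  have hP : ∀ s, MeasurableSet (PB i0 i1 s) := fun s => (isOpen_PB i0 i1 s).measurableSet
  refine ⟨GoodB i0 i1, good_meas hP, invar_good, goodB_residual i0 i1 h01,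
    sol i0 i1 e κ (PB i0 i1), measurable_sol hκm hP, ?_⟩
  exact (solves_iff (e := e) _ _ _).2 fun x hx => good_sol h01 hκ (fam_PB i0 i1) hx

theorem exists_fam' (h01 : i0 ≠ i1) (μ : Measure (FreePart d)) [IsProbabilityMeasure μ] :
    ∃ P : ℕ → Set (FreePart d), (∀ s, MeasurableSet (P s)) ∧
      Fam i0 i1 P {x : FreePart d | ∀ g, ∃ t p q, Cel (Dx i0 i1 P (act g x)) t 0 0 p q} ∧
      ∀ᵐ x ∂μ, x ∈ {x : FreePart d | ∀ g, ∃ t p q, Cel (Dx i0 i1 P (act g x)) t 0 0 p q} := by
  set ρ : Measure (FreePart d) := Measure.sum fun g : Fin d → ℤ => Measure.map (act g) μ with hρ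
  have hfin : ∀ g : Fin d → ℤ, IsFiniteMeasure (Measure.map (act g) μ) := fun g => inferInstance
  obtain ⟨s, C, K, Q⟩ := exists_seq i0 i1 h01 ρ.toFinite
    (ε := fun n => (1 / 162) * (161 / 162 : ℝ) ^ n) (fun n => by positivity)
  refine ⟨PG i0 i1 s C, Q.measurable_PG, ⟨?_, fun x _ => Q.isoW x, ?_⟩, ?_⟩
  · intro g x hx h
    rw [act_act]
    exact hx _
  · intro x hx
    have := hx 0
    rw [act_zero] at this
    exact this
  · have h1 : ∀ᵐ x ∂ρ.toFinite, ∃ t p q, Cel (Dx i0 i1 (PG i0 i1 s C) x) t 0 0 p q := by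
      filter_upwards [Q.ae_stage] with x hx
      obtain ⟨N, h1, h2⟩ := hx
      exact Q.cover x h1 h2
    rw [ae_toFinite, hρ, Measure.ae_sum_iff] at h1
    have h2 : ∀ᵐ x ∂μ, ∀ g, ∃ t p q, Cel (Dx i0 i1 (PG i0 i1 s C) (act g x)) t 0 0 p q := by
      rw [ae_all_iff]
      intro g
      exact ae_of_ae_map (measurable_act g).aemeasurable (h1 g)
    exact h2

theorem measurableSol (h01 : i0 ≠ i1) {κ : FreePart d → Fin N} (hκm : Measurable κ)
    (hκ : ∀ (x : FreePart d) (a b : Dir d), κ (act (vec a) x) = κ (act (vec b) x) → a = b) :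
    (PB_ N d i0 i1 e).MeasurableSol d := by
  intro μ hμ
  obtain ⟨P, hP, F, hG⟩ := exists_fam' h01 μ
  refine ⟨_, good_meas hP, invar_good, hG, sol i0 i1 e κ P, measurable_sol hκm hP, ?_⟩
  exact (solves_iff (e := e) _ _ _).2 fun x hx => good_sol h01 hκ F hx

end Solve

end Pool.Agent.W927
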